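import Mathlib

/-!
The statement: products of conjugates in the group of homeomorphisms of a space.
-/

set_option autoImplicit false

open Function Set Topology

noncomputable section

namespace Pool.Agent.V11210.SPH

/-- The compact-open topology on the group of homeomorphisms of `X`. -/
@[instance_reducible]
def homeoTop (X : Type) [TopologicalSpace X] : TopologicalSpace (X ≃ₜ X) :=
  TopologicalSpace.induced (fun h => (⟨h, h.continuous⟩ : C(X, X))) inferInstance

/-- The path component of the identity in the group of homeomorphisms of `X` with the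
compact-open topology. -/
def IdComp (X : Type) [TopologicalSpace X] : Set (X ≃ₜ X) :=
  @pathComponent (X ≃ₜ X) (homeoTop X) 1

/-- Every element `B ≠ 1` of the identity component is a product of exactly `n` conjugates of
every element `A ≠ 1` of the identity component. -/
def ConjProd (X : Type) [TopologicalSpace X] (n : ℕ) : Prop :=
  ∀ A ∈ IdComp X, ∀ B ∈ IdComp X, A ≠ 1 → B ≠ 1 →
    ∃ H : Fin n → (X ≃ₜ X), B = (List.ofFn fun i => H i * A * (H i)⁻¹).prod

/-- The unit sphere in three-dimensional Euclidean space. -/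
abbrev Sphere2 : Type := Metric.sphere (0 : EuclideanSpace ℝ (Fin 3)) 1

section

variable {X Y : Type} [TopologicalSpace X] [TopologicalSpace Y]

/-- Conjugation by a homeomorphism. -/
def cj (e : X ≃ₜ Y) (f : X ≃ₜ X) : Y ≃ₜ Y := (e.symm.trans f).trans e

theorem cj_apply (e : X ≃ₜ Y) (f : X ≃ₜ X) (y : Y) : cj e f y = e (f (e.symm y)) := rfl

theorem cj_one (e : X ≃ₜ Y) : cj e 1 = 1 := by
  ext y
  exact e.apply_symm_apply y

theorem cj_mul (e : X ≃ₜ Y) (f g : X ≃ₜ X) : cj e (f * g) = cj e f * cj e g := by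
  ext y
  change e (f (g (e.symm y))) = e (f (e.symm (e (g (e.symm y)))))
  rw [e.symm_apply_apply]

theorem cj_inv (e : X ≃ₜ Y) (f : X ≃ₜ X) : cj e f⁻¹ = (cj e f)⁻¹ := rfl

theorem cj_symm_cj (e : X ≃ₜ Y) (f : X ≃ₜ X) : cj e.symm (cj e f) = f := by
  ext x
  change e.symm (e (f (e.symm (e x)))) = f x
  rw [e.symm_apply_apply, e.symm_apply_apply]

theorem cj_cj_symm (e : X ≃ₜ Y) (f : Y ≃ₜ Y) : cj e (cj e.symm f) = f := by
  ext x
  change e (e.symm (f (e (e.symm x)))) = f x
  rw [e.apply_symm_apply, e.apply_symm_apply]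

variable [CompactSpace X] [T2Space X] [CompactSpace Y] [T2Space Y]

theorem mem_IdComp (h : X ≃ₜ X) : h ∈ IdComp X ↔ ∃ H : unitInterval → (X ≃ₜ X),
    (Continuous fun p : unitInterval × X => H p.1 p.2) ∧ H 0 = 1 ∧ H 1 = h := by
  constructor
  · rintro ⟨γ⟩
    have h1 : Continuous[_, homeoTop X] (fun t : unitInterval => @DFunLike.coe _ _ _ _ γ t) :=
      @Path.continuous _ (homeoTop X) _ _ γ
    have h2 : Continuous fun t : unitInterval =>
        (⟨@DFunLike.coe _ _ _ _ γ t, (@DFunLike.coe _ _ _ _ γ t : X ≃ₜ X).continuous⟩ : C(X, X)) :=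
      continuous_induced_rng.1 h1
    refine ⟨fun t => @DFunLike.coe _ _ _ _ γ t, ?_, ?_, ?_⟩
    · exact ContinuousMap.continuous_uncurry_of_continuous ⟨_, h2⟩
    · exact @Path.source _ (homeoTop X) _ _ γ
    · exact @Path.target _ (homeoTop X) _ _ γ
  · rintro ⟨H, h1, h2, h3⟩
    have h4 : Continuous[_, homeoTop X] H :=
      continuous_induced_rng.2 (ContinuousMap.continuous_of_continuous_uncurry _ h1)
    exact ⟨@Path.mk _ (homeoTop X) _ _ (@ContinuousMap.mk _ _ _ (homeoTop X) H h4) h2 h3⟩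

theorem continuous_isotopy_inv (H : unitInterval → (X ≃ₜ X))
    (hH : Continuous (fun p : unitInterval × X => H p.1 p.2)) :
    Continuous (fun p : unitInterval × X => (H p.1).symm p.2) := by
  let e : unitInterval × X ≃ unitInterval × X :=
    { toFun := fun p => (p.1, H p.1 p.2)
      invFun := fun p => (p.1, (H p.1).symm p.2)
      left_inv := fun p => by simp
      right_inv := fun p => by simp }
  have he : Continuous e := continuous_fst.prodMk hH
  have := (he.homeoOfEquivCompactToT2 (f := e)).symm.continuous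
  exact continuous_snd.comp this

theorem IdComp_mul {f g : X ≃ₜ X} (hf : f ∈ IdComp X) (hg : g ∈ IdComp X) : f * g ∈ IdComp X := by
  rw [mem_IdComp] at *
  obtain ⟨H, h1, h2, h3⟩ := hf
  obtain ⟨K, k1, k2, k3⟩ := hg
  refine ⟨fun t => H t * K t, ?_, by simp [h2, k2], by simp [h3, k3]⟩
  exact h1.comp (continuous_fst.prodMk k1)

theorem IdComp_inv {f : X ≃ₜ X} (hf : f ∈ IdComp X) : f⁻¹ ∈ IdComp X := by
  rw [mem_IdComp] at *
  obtain ⟨H, h1, h2, h3⟩ := hf
  exact ⟨fun t => (H t)⁻¹, continuous_isotopy_inv H h1, by simp [h2], by simp [h3]⟩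

theorem IdComp_cj (e : X ≃ₜ Y) {f : X ≃ₜ X} (hf : f ∈ IdComp X) : cj e f ∈ IdComp Y := by
  rw [mem_IdComp] at *
  obtain ⟨H, h1, h2, h3⟩ := hf
  refine ⟨fun t => cj e (H t), ?_, by simp only [h2, cj_one], by simp only [h3]⟩
  exact e.continuous.comp (h1.comp (continuous_fst.prodMk (e.symm.continuous.comp continuous_snd)))

theorem IdComp_conj (e : X ≃ₜ X) {f : X ≃ₜ X} (hf : f ∈ IdComp X) : e * f * e⁻¹ ∈ IdComp X :=
  IdComp_cj e hf

theorem ConjProd.transfer (e : X ≃ₜ Y) {n : ℕ} (h : ConjProd X n) : ConjProd Y n := by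
  intro A hA B hB hA1 hB1
  have hne : ∀ C : Y ≃ₜ Y, C ≠ 1 → cj e.symm C ≠ 1 := by
    intro C hC h1
    refine hC ?_
    rw [← cj_cj_symm e C, h1, cj_one]
  obtain ⟨H, hH⟩ := h (cj e.symm A) (IdComp_cj e.symm hA) (cj e.symm B) (IdComp_cj e.symm hB)
    (hne A hA1) (hne B hB1)
  refine ⟨fun i => cj e (H i), ?_⟩
  have h1 := congrArg (cj e) hH
  rw [cj_cj_symm] at h1
  rw [h1]
  let φ : (X ≃ₜ X) →* (Y ≃ₜ Y) := ⟨⟨cj e, cj_one e⟩, cj_mul e⟩
  have h2 : ∀ l : List (X ≃ₜ X), cj e l.prod = (l.map (cj e)).prod := fun l => map_list_prod φ l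
  rw [h2, List.map_ofFn]
  congr 1

end

end Pool.Agent.V11210.SPH
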