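import Pool.Agent.V11210.SPH.Orient
import Pool.Agent.V11210.SPH.Statement

/-!
Two conjugates do not suffice.
-/

set_option autoImplicit false

open Complex Set Filter Topology Function Metric
open scoped OnePoint ComplexConjugate

noncomputable section

namespace Pool.Agent.V11210.SPH

theorem tendsto_zero_of_R1 {α : Type} {l : Filter α} {g : α → S}
    (h : Tendsto (fun a => R1 (g a)) l (𝓝 0)) : Tendsto g l (𝓝 ((0 : ℂ) : S)) := by
  intro s hs
  rw [OnePoint.nhds_coe_eq] at hs
  obtain ⟨ε, hε, hb⟩ := Metric.mem_nhds_iff.1 (mem_map.1 hs)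
  have h1 := h.eventually (gt_mem_nhds (lt_min hε one_pos))
  rw [mem_map]
  filter_upwards [h1] with a ha
  change g a ∈ s
  generalize g a = x at ha
  induction x using OnePoint.rec with
  | infty =>
    rw [R1_infty] at ha
    exact absurd (ha.trans_le (min_le_right _ _)) (lt_irrefl _)
  | coe z =>
    rw [R1_coe] at ha
    refine hb ?_
    rw [mem_ball_zero_iff]
    rcases min_lt_iff.1 ha with h2 | h2
    · exact absurd (h2.trans_le (min_le_right _ _)) (lt_irrefl _)
    · exact h2.trans_le (min_le_left _ _)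

theorem R1_ι_coe {z : ℂ} (h : z ≠ 0) : R1 (ι (z : S)) = min 1 ‖z‖⁻¹ := by
  rw [ι_coe h, R1_coe, norm_inv]

/-- An isotopy of the plane which preserves the norm near infinity extends to the sphere. -/
theorem continuous_map_isotopy {F : unitInterval → ℂ → ℂ}
    (hF : Continuous fun p : unitInterval × ℂ => F p.1 p.2)
    (hn : ∀ t z, 1 ≤ ‖z‖ → ‖F t z‖ = ‖z‖) :
    Continuous fun p : unitInterval × S => (OnePoint.map (F p.1) p.2 : S) := by
  rw [continuous_iff_continuousAt]
  rintro ⟨t, x⟩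
  induction x using OnePoint.rec with
  | infty =>
    have h1 : Tendsto (fun p : unitInterval × S => ι (OnePoint.map (F p.1) p.2))
        (𝓝 (t, ∞)) (𝓝 ((0 : ℂ) : S)) := by
      refine tendsto_zero_of_R1 ?_
      have h2 : Continuous fun p : unitInterval × S => R1 (ι p.2) :=
        continuous_R1.comp (ι.continuous.comp continuous_snd)
      have h3 := h2.tendsto (t, ∞)
      rw [show R1 (ι (((t, ∞) : unitInterval × S)).2) = 0 by
        rw [ι_infty, R1_coe, norm_zero]
        norm_num] at h3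
      refine h3.congr' ?_
      have h4 : ∀ᶠ p : unitInterval × S in 𝓝 (t, ∞), p.2 ∈ IQ :=
        continuous_snd.continuousAt.eventually_mem (isOpen_IQ.mem_nhds infty_mem_IQ)
      filter_upwards [h4] with p hp
      obtain ⟨s, y⟩ := p
      change y ∈ IQ at hp
      change R1 (ι y) = R1 (ι (OnePoint.map (F s) y))
      induction y using OnePoint.rec with
      | infty => rfl
      | coe z =>
        rw [coe_mem_IQ] at hp
        have h5 := hn s z hp.le
        have h6 : z ≠ 0 := by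
          rw [← norm_pos_iff]
          linarith
        have h7 : F s z ≠ 0 := by
          rw [← norm_pos_iff, h5]
          linarith
        rw [OnePoint.map_some, R1_ι_coe h6, R1_ι_coe h7, h5]
    have h8 := (ι.continuous.tendsto ((0 : ℂ) : S)).comp h1
    rw [ι_zero] at h8
    refine h8.congr fun p => ?_
    rw [comp_apply, ι_ι]
  | coe z =>
    have h1 : IsOpenEmbedding (Prod.map id (↑) : unitInterval × ℂ → unitInterval × S) :=
      IsOpenEmbedding.id.prodMap OnePoint.isOpenEmbedding_coe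
    have h2 := h1.continuousAt_iff (g := fun p : unitInterval × S => (OnePoint.map (F p.1) p.2 : S))
      (x := (t, z))
    refine h2.1 ?_
    have h3 : Continuous fun p : unitInterval × ℂ => ((F p.1 p.2 : ℂ) : S) :=
      OnePoint.continuous_coe.comp hF
    exact h3.continuousAt

/-! ### The rotation -/

/-- The rotation by `exp a`. -/
def rotE (a : ℂ) : S ≃ₜ S := ofC (Homeomorph.mulLeft₀ (Complex.exp a) (Complex.exp_ne_zero a))

theorem rotE_coe (a z : ℂ) : rotE a (z : S) = ((Complex.exp a * z : ℂ) : S) := rfl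

theorem rotE_zero : rotE 0 = 1 := by
  ext x
  induction x using OnePoint.rec with
  | infty => rfl
  | coe z =>
    rw [rotE_coe, Complex.exp_zero, one_mul]
    rfl

/-- The half turn. -/
def turn : S ≃ₜ S := rotE (Real.pi * I)

theorem turn_coe (z : ℂ) : turn (z : S) = ((-z : ℂ) : S) := by
  rw [turn, rotE_coe, Complex.exp_pi_mul_I, neg_one_mul]

theorem turn_mul_turn : turn * turn = 1 := by
  ext x
  rw [mul_apply']
  induction x using OnePoint.rec with
  | infty => rfl
  | coe z =>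
    rw [turn_coe, turn_coe, neg_neg]
    rfl

theorem turn_ne_one : turn ≠ 1 := by
  intro h
  have h1 := DFunLike.congr_fun h ((1 : ℂ) : S)
  rw [turn_coe] at h1
  have h2 : (-1 : ℂ) = 1 := OnePoint.coe_injective h1
  norm_num at h2

theorem turn_mem : turn ∈ IdComp S := by
  rw [mem_IdComp]
  refine ⟨fun t => rotE ((((t : ℝ) * Real.pi : ℝ) : ℂ) * I), ?_, ?_, ?_⟩
  · have := continuous_map_isotopy (F := fun t z => Complex.exp ((((t : ℝ) * Real.pi : ℝ) : ℂ) * I) * z)
      (by fun_prop) (fun t z _ => by rw [norm_mul, Complex.norm_exp_ofReal_mul_I, one_mul])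
    exact this
  · simp only [Set.Icc.coe_zero, zero_mul, ofReal_zero, rotE_zero]
  · simp only [Set.Icc.coe_one, one_mul]
    rfl

/-! ### The radial contraction -/

/-- The radial isotopy of the plane. -/
def G (t : ℝ) (z : ℂ) : ℂ := (((1 - t) + t * min 1 ‖z‖ : ℝ) : ℂ) * z

theorem G_pos {t x : ℝ} (h0 : 0 ≤ t) (h1 : t ≤ 1) (hx : 0 < x) : 0 < (1 - t) + t * min 1 x := by
  have h2 : 0 < min 1 x := lt_min one_pos hx
  rcases h0.eq_or_lt with h | h
  · rw [← h]
    norm_num
  · nlinarith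

theorem norm_G {t : ℝ} (h0 : 0 ≤ t) (h1 : t ≤ 1) (z : ℂ) :
    ‖G t z‖ = ((1 - t) + t * min 1 ‖z‖) * ‖z‖ := by
  rw [G, norm_mul, norm_real, Real.norm_eq_abs, abs_of_nonneg]
  have := le_min zero_le_one (norm_nonneg z)
  nlinarith

theorem G_mono {t x y : ℝ} (h0 : 0 ≤ t) (h1 : t ≤ 1) (hx : 0 ≤ x) (hxy : x < y) :
    ((1 - t) + t * min 1 x) * x < ((1 - t) + t * min 1 y) * y := by
  have h2 := G_pos h0 h1 (hx.trans_lt hxy)
  have h3 : min 1 x ≤ min 1 y := min_le_min le_rfl hxy.le
  have h4 : ((1 - t) + t * min 1 x) ≤ ((1 - t) + t * min 1 y) := by nlinarith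
  calc ((1 - t) + t * min 1 x) * x ≤ ((1 - t) + t * min 1 y) * x := by gcongr
    _ < _ := by gcongr

theorem G_injective {t : ℝ} (h0 : 0 ≤ t) (h1 : t ≤ 1) : Injective (G t) := by
  intro z w h
  have h2 : ‖z‖ = ‖w‖ := by
    have h3 := congrArg norm h
    rw [norm_G h0 h1, norm_G h0 h1] at h3
    rcases lt_trichotomy ‖z‖ ‖w‖ with h4 | h4 | h4
    · exact absurd h3 (G_mono h0 h1 (norm_nonneg _) h4).ne
    · exact h4
    · exact absurd h3 (G_mono h0 h1 (norm_nonneg _) h4).ne'
  rw [G, G, h2] at h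
  by_cases hw : w = 0
  · rw [hw, norm_zero, norm_eq_zero] at h2
    rw [hw, h2]
  · have h5 := G_pos h0 h1 (norm_pos_iff.2 hw)
    exact mul_left_cancel₀ (ofReal_ne_zero.2 h5.ne') h

theorem G_surjective (t : ℝ) : Surjective (G t) := by
  intro w
  by_cases hw : w = 0
  · exact ⟨0, by rw [hw, G, mul_zero]⟩
  have hw' := norm_pos_iff.2 hw
  have hc : ContinuousOn (fun x : ℝ => ((1 - t) + t * min 1 x) * x) (Icc 0 (max 1 ‖w‖)) := by
    fun_prop
  have h2 := intermediate_value_Icc (le_max_of_le_left zero_le_one) hc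
  have h3 : ‖w‖ ∈ Icc (((1 - t) + t * min 1 0) * (0 : ℝ))
      (((1 - t) + t * min 1 (max 1 ‖w‖)) * (max 1 ‖w‖)) := by
    rw [min_eq_left (le_max_left _ _), mul_zero]
    refine ⟨hw'.le, ?_⟩
    rw [show 1 - t + t * 1 = 1 by ring, one_mul]
    exact le_max_right _ _
  obtain ⟨r, hr, hr2⟩ := h2 h3
  simp only at hr2
  have hr0 : r ≠ 0 := by
    rintro rfl
    rw [mul_zero] at hr2
    exact hw'.ne hr2
  refine ⟨((r / ‖w‖ : ℝ) : ℂ) * w, ?_⟩
  have h4 : ‖((r / ‖w‖ : ℝ) : ℂ) * w‖ = r := by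
    rw [norm_mul, norm_real, Real.norm_eq_abs, abs_of_nonneg (div_nonneg hr.1 hw'.le),
      div_mul_cancel₀ _ hw'.ne']
  rw [G, h4, ← mul_assoc, ← ofReal_mul]
  have h5 : (1 - t + t * min 1 r) * (r / ‖w‖) = 1 := by
    rw [← mul_div_assoc, hr2, div_self hw'.ne']
  rw [h5, ofReal_one, one_mul]

theorem norm_G_of_one_le {t : ℝ} (h0 : 0 ≤ t) (h1 : t ≤ 1) {z : ℂ} (hz : 1 ≤ ‖z‖) :
    ‖G t z‖ = ‖z‖ := by
  rw [norm_G h0 h1, min_eq_left hz]
  ring

theorem continuous_G : Continuous fun p : ℝ × ℂ => G p.1 p.2 := by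
  unfold G
  fun_prop

/-- The radial isotopy of the sphere. -/
def GS (t : unitInterval) : S ≃ₜ S :=
  mkS (G t) (continuous_G.comp (continuous_const.prodMk continuous_id))
    ⟨G_injective t.2.1 t.2.2, G_surjective t⟩
    (tendsto_of_norm fun _ hz => norm_G_of_one_le t.2.1 t.2.2 hz)

theorem GS_coe (t : unitInterval) (z : ℂ) : GS t (z : S) = ((G t z : ℂ) : S) := rfl

theorem GS_infty (t : unitInterval) : GS t ∞ = ∞ := rfl

theorem GS_zero : GS 0 = 1 := by
  ext x
  induction x using OnePoint.rec with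
  | infty => rfl
  | coe z =>
    rw [GS_coe, G]
    simp

theorem GS_mem (s : unitInterval) (hs : s = 1) : GS s ∈ IdComp S := by
  rw [mem_IdComp]
  refine ⟨GS, ?_, GS_zero, by rw [hs]⟩
  have := continuous_map_isotopy (F := fun t z => G t z)
    (continuous_G.comp ((continuous_subtype_val.comp continuous_fst).prodMk continuous_snd))
    (fun t z hz => norm_G_of_one_le t.2.1 t.2.2 hz)
  exact this

/-- The radial contraction. -/
def Br : S ≃ₜ S := GS 1

theorem Br_mem : Br ∈ IdComp S := GS_mem 1 rfl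

theorem Br_coe (z : ℂ) : Br (z : S) = (((min 1 ‖z‖ : ℝ) * z : ℂ) : S) := by
  rw [Br, GS_coe, G, Set.Icc.coe_one]
  congr 3
  ring

theorem Br_infty : Br ∞ = ∞ := rfl

theorem R1_Br (x : S) : R1 (Br x) = R1 x ^ 2 := by
  induction x using OnePoint.rec with
  | infty =>
    rw [Br_infty, R1_infty]
    norm_num
  | coe z =>
    rw [Br_coe, R1_coe, R1_coe, norm_mul, norm_real, Real.norm_eq_abs,
      abs_of_nonneg (le_min zero_le_one (norm_nonneg z))]
    rcases le_total 1 ‖z‖ with h | h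
    · rw [min_eq_left h, one_mul, min_eq_left h]
      norm_num
    · rw [min_eq_right h, min_eq_right, sq]
      nlinarith [norm_nonneg z]

theorem Br_of_R1 {x : S} (h : R1 x = 1) : Br x = x := by
  induction x using OnePoint.rec with
  | infty => rfl
  | coe z =>
    rw [R1_coe] at h
    rw [Br_coe, h, ofReal_one, one_mul]

theorem R1_zero : R1 ((0 : ℂ) : S) = 0 := by
  rw [R1_coe, norm_zero]
  norm_num

theorem Br_zero : Br ((0 : ℂ) : S) = ((0 : ℂ) : S) := by
  rw [Br_coe, mul_zero]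

theorem R1_of_Br {x : S} (h : Br x = x) : R1 x = 0 ∨ R1 x = 1 := by
  have h1 := R1_Br x
  rw [h] at h1
  have h2 : R1 x * (R1 x - 1) = 0 := by linarith
  rcases mul_eq_zero.1 h2 with h3 | h3
  · exact Or.inl h3
  · exact Or.inr (by linarith)

theorem R1_le_inv (x : S) : R1 x ≤ R1 (Br⁻¹ x) := by
  have h1 := R1_Br (Br⁻¹ x)
  rw [apply_inv_self'] at h1
  rw [h1]
  nlinarith [R1_nonneg (Br⁻¹ x), R1_le_one (Br⁻¹ x)]

theorem R1_pow (n : ℕ) (x : S) : R1 ((Br ^ n) x) = R1 x ^ (2 ^ n) := by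
  induction n with
  | zero => simp
  | succ n ih =>
    rw [pow_succ', mul_apply', R1_Br, ih, ← pow_mul]
    rfl

theorem R1_le_inv_pow (n : ℕ) (x : S) : R1 x ≤ R1 ((Br⁻¹ ^ n) x) := by
  induction n with
  | zero => simp
  | succ n ih =>
    rw [pow_succ', mul_apply']
    exact ih.trans (R1_le_inv _)

theorem exists_near {p : S} (hp : R1 p = 1) {V : Set S} (hV : V ∈ 𝓝 p) :
    ∃ y ∈ V, R1 y = 1 ∧ y ≠ p := by
  induction p using OnePoint.rec with
  | infty =>
    have h1 : Tendsto (fun n : ℕ => (((n : ℝ) : ℂ) : S)) atTop (𝓝 ∞) := by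
      have h2 : Tendsto (fun n : ℕ => ((n : ℝ) : ℂ)) atTop (cocompact ℂ) := by
        rw [← cobounded_eq_cocompact, ← tendsto_norm_atTop_iff_cobounded]
        refine tendsto_natCast_atTop_atTop.congr fun n => ?_
        rw [norm_real, Real.norm_eq_abs, Nat.abs_cast]
      refine (OnePoint.tendsto_coe_infty (X := ℂ)).comp ?_
      rwa [coclosedCompact_eq_cocompact]
    obtain ⟨n, hn, hn1⟩ := ((h1.eventually_mem hV).and (eventually_ge_atTop 1)).exists
    refine ⟨_, hn, ?_, OnePoint.coe_ne_infty _⟩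
    rw [R1_coe, norm_real, Real.norm_eq_abs, Nat.abs_cast, min_eq_left]
    exact_mod_cast hn1
  | coe z =>
    have hz : 1 ≤ ‖z‖ := by
      rw [R1_coe] at hp
      exact min_eq_left_iff.1 hp
    have h1 : Tendsto (fun s : ℝ => (((1 + s : ℝ) * z : ℂ) : S)) (𝓝[>] 0) (𝓝 (z : S)) := by
      have h2 : Continuous fun s : ℝ => (((1 + s : ℝ) * z : ℂ) : S) :=
        OnePoint.continuous_coe.comp (by fun_prop)
      have h3 := (h2.tendsto 0).mono_left (nhdsWithin_le_nhds (s := Ioi 0))
      rwa [add_zero, ofReal_one, one_mul] at h3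
    obtain ⟨s, hs, hs1⟩ := ((h1.eventually_mem hV).and self_mem_nhdsWithin).exists
    change 0 < s at hs1
    refine ⟨_, hs, ?_, ?_⟩
    · rw [R1_coe, norm_mul, norm_real, Real.norm_eq_abs, abs_of_pos (by linarith), min_eq_left]
      nlinarith
    · intro h
      have h4 := congrArg norm (OnePoint.coe_injective h)
      rw [norm_mul, norm_real, Real.norm_eq_abs, abs_of_pos (by linarith)] at h4
      nlinarith

/-- The radial contraction is not conjugate to its inverse. -/
theorem not_reversible (h : S ≃ₜ S) (hh : h * Br * h⁻¹ = Br⁻¹) : False := by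
  have h1 : h * Br = Br⁻¹ * h := by
    rw [← hh]
    group
  have h2 : ∀ n : ℕ, h * Br ^ n = Br⁻¹ ^ n * h := by
    intro n
    exact (SemiconjBy.pow_right h1 n : SemiconjBy h (Br ^ n) (Br⁻¹ ^ n))
  have h3 : ∀ x, h (Br x) = Br⁻¹ (h x) := fun x => DFunLike.congr_fun h1 x
  have h4 : ∀ n x, h ((Br ^ n) x) = (Br⁻¹ ^ n) (h x) := fun n x => DFunLike.congr_fun (h2 n) x
  have h5 : Br (h ((0 : ℂ) : S)) = h ((0 : ℂ) : S) := by
    have := h3 ((0 : ℂ) : S)
    rw [Br_zero] at this
    rw [this, apply_inv_self', ← this]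
  rcases R1_of_Br h5 with h6 | h6
  · have h7 := eq_zero_of_R1 h6
    let x : S := ((2⁻¹ : ℂ) : S)
    have hx : R1 x = 2⁻¹ := by
      rw [R1_coe]
      norm_num
    have h8 : 0 < R1 (h x) := by
      refine lt_of_le_of_ne (R1_nonneg _) ?_
      intro h9
      have h10 := eq_zero_of_R1 h9.symm
      rw [← h7] at h10
      have h11 := h.injective h10
      rw [h11, R1_zero] at hx
      norm_num at hx
    have h9 : Tendsto (fun n : ℕ => (Br ^ n) x) atTop (𝓝 ((0 : ℂ) : S)) := by
      refine tendsto_zero_of_R1 ?_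
      simp only [R1_pow, hx]
      exact (tendsto_pow_atTop_nhds_zero_of_lt_one (by norm_num) (by norm_num)).comp
        (tendsto_pow_atTop_atTop_of_one_lt (by norm_num : 1 < 2))
    have h10 := (h.continuous.tendsto _).comp h9
    rw [h7] at h10
    have h11 := (continuous_R1.tendsto _).comp h10
    rw [R1_zero] at h11
    obtain ⟨n, hn⟩ := (h11.eventually (gt_mem_nhds h8)).exists
    simp only [comp_apply, h4] at hn
    exact absurd (R1_le_inv_pow n (h x)) (not_le.2 hn)
  · have h7 : h '' {x | R1 x < 1} ∈ 𝓝 (h ((0 : ℂ) : S)) := by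
      refine (h.isOpenMap _ (isOpen_lt continuous_R1 continuous_const)).mem_nhds ⟨_, ?_, rfl⟩
      change R1 _ < 1
      rw [R1_zero]
      exact one_pos
    obtain ⟨y, ⟨x, hx, rfl⟩, hy1, hy2⟩ := exists_near h6 h7
    have h8 := Br_of_R1 hy1
    have h9 : Br x = x := by
      refine h.injective ?_
      rw [h3, inv_eq_iff', h8]
    rcases R1_of_Br h9 with h10 | h10
    · rw [eq_zero_of_R1 h10] at hy2
      exact hy2 rfl
    · change R1 x < 1 at hx
      rw [h10] at hx
      exact lt_irrefl _ hx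

theorem Br_ne_one : Br ≠ 1 := by
  intro h
  refine not_reversible 1 ?_
  rw [h]
  simp

theorem not_conjProd_one : ¬ ConjProd S 1 := by
  intro h
  obtain ⟨H, hH⟩ := h turn turn_mem Br Br_mem turn_ne_one Br_ne_one
  have h1 : Br = H 0 * turn * (H 0)⁻¹ := by
    rw [hH]
    simp
  refine not_reversible 1 ?_
  rw [one_mul, inv_one, mul_one, eq_inv_iff_mul_eq_one, h1]
  have h2 : H 0 * turn * (H 0)⁻¹ * (H 0 * turn * (H 0)⁻¹) = H 0 * (turn * turn) * (H 0)⁻¹ := by
    group
  rw [h2, turn_mul_turn]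
  group

theorem not_conjProd_two : ¬ ConjProd S 2 := by
  intro h
  obtain ⟨H, hH⟩ := h turn turn_mem Br Br_mem turn_ne_one Br_ne_one
  have h1 : Br = (H 0 * turn * (H 0)⁻¹) * (H 1 * turn * (H 1)⁻¹) := by
    rw [hH]
    simp
  have h2 : ∀ i, (H i * turn * (H i)⁻¹) * (H i * turn * (H i)⁻¹) = 1 := by
    intro i
    have h2 : H i * turn * (H i)⁻¹ * (H i * turn * (H i)⁻¹) = H i * (turn * turn) * (H i)⁻¹ := by
      group
    rw [h2, turn_mul_turn]
    group
  refine not_reversible (H 0 * turn * (H 0)⁻¹) ?_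
  rw [h1]
  have h3 := h2 0
  have h4 := h2 1
  clear h2 h1 hH
  generalize H 0 * turn * (H 0)⁻¹ = a at *
  generalize H 1 * turn * (H 1)⁻¹ = b at *
  rw [← mul_assoc, h3, one_mul, mul_inv_rev, inv_eq_of_mul_eq_one_right h3,
    inv_eq_of_mul_eq_one_right h4]

end Pool.Agent.V11210.SPH
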