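import Pool.Agent.V11210.SPH.LengthArea
import Pool.Agent.Helper202.Riemann

/-!
Continuous extension to the closed disc of the Riemann map of a domain which is the image of the
open unit disc under an injective continuous map of the closed unit disc.
-/

set_option autoImplicit false

open Complex Set Filter Topology Function MeasureTheory Metric
open scoped ENNReal

noncomputable section

namespace Pool.Agent.V11210.SPH

/-- The open unit disc. -/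
abbrev Dk : Set ℂ := ball 0 1

/-- The closed unit disc. -/
abbrev Ek : Set ℂ := closedBall 0 1

theorem Dk_sub_Ek : Dk ⊆ Ek := ball_subset_closedBall

theorem unif_inv {w : ℂ → ℂ} (wc : ContinuousOn w Ek) (wi : InjOn w Ek) {ε : ℝ} (hε : 0 < ε) :
    ∃ η > 0, ∀ a ∈ Ek, ∀ b ∈ Ek, ‖w b - w a‖ ≤ η → ‖b - a‖ < ε := by
  let K : Set (ℂ × ℂ) := (Ek ×ˢ Ek) ∩ {p | ε ≤ ‖p.2 - p.1‖}
  have hK : IsCompact K := by
    refine ((isCompact_closedBall 0 1).prod (isCompact_closedBall 0 1)).inter_right ?_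
    exact isClosed_le (by fun_prop) (by fun_prop)
  rcases K.eq_empty_or_nonempty with hKe | hKn
  · refine ⟨1, one_pos, fun a ha b hb _ => ?_⟩
    by_contra h
    have : (a, b) ∈ K := ⟨⟨ha, hb⟩, not_lt.1 h⟩
    rw [hKe] at this
    exact this
  · have hc : ContinuousOn (fun p : ℂ × ℂ => ‖w p.2 - w p.1‖) K := by
      refine ContinuousOn.norm (ContinuousOn.sub ?_ ?_)
      · exact wc.comp continuousOn_snd fun p hp => hp.1.2
      · exact wc.comp continuousOn_fst fun p hp => hp.1.1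
    obtain ⟨p, hp, hmin⟩ := hK.exists_isMinOn hKn hc
    have hpos : 0 < ‖w p.2 - w p.1‖ := by
      rw [norm_pos_iff, sub_ne_zero]
      intro h
      have h1 := wi hp.1.2 hp.1.1 h
      have h2 : ε ≤ ‖p.2 - p.1‖ := hp.2
      rw [h1, sub_self, norm_zero] at h2
      linarith
    refine ⟨‖w p.2 - w p.1‖ / 2, by positivity, fun a ha b hb h => ?_⟩
    by_contra hcon
    have h1 : (a, b) ∈ K := ⟨⟨ha, hb⟩, not_lt.1 hcon⟩
    have h2 : ‖w p.2 - w p.1‖ ≤ ‖w b - w a‖ := hmin h1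
    linarith

/-- The data of a Riemann map `g` of the image of the open unit disc under `w`, with
`v₀ = w⁻¹ ∘ g` and its inverse `ψ`. -/
structure RM (w g ψ v₀ : ℂ → ℂ) : Prop where
  wc : ContinuousOn w Ek
  wi : InjOn w Ek
  gd : DifferentiableOn ℂ g Dk
  gi : InjOn g Dk
  v0m : MapsTo v₀ Dk Dk
  v0e : ∀ z ∈ Dk, w (v₀ z) = g z
  ψm : MapsTo ψ Dk Dk
  ψc : ContinuousOn ψ Dk
  ψv : ∀ z ∈ Dk, ψ (v₀ z) = z
  vψ : ∀ z ∈ Dk, v₀ (ψ z) = z
  z0 : v₀ 0 = 0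

theorem zero_mem_Dk : (0 : ℂ) ∈ Dk := by simp

theorem exists_RM {w : ℂ → ℂ} (wc : ContinuousOn w Ek) (wi : InjOn w Ek)
    (wo : IsOpen (w '' Dk)) : ∃ g ψ v₀, RM w g ψ v₀ ∧ deriv g 0 ≠ 0 := by
  have hsc : IsSimplyConnected (w '' Dk) := by
    have h1 : IsCompact Ek := isCompact_closedBall 0 1
    have : CompactSpace Ek := isCompact_iff_compactSpace.1 h1
    have h2 : Topology.IsEmbedding (fun x : Ek => w x) := by
      refine Topology.IsClosedEmbedding.isEmbedding (Continuous.isClosedEmbedding ?_ ?_)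
      · exact continuousOn_iff_continuous_domRestrict.1 wc
      · intro x y h
        exact Subtype.ext (wi x.2 y.2 h)
    have h3 : w '' Dk = (fun x : Ek => w x) '' (Subtype.val ⁻¹' Dk) := by
      ext z
      constructor
      · rintro ⟨y, hy, rfl⟩
        exact ⟨⟨y, Dk_sub_Ek hy⟩, hy, rfl⟩
      · rintro ⟨y, hy, rfl⟩
        exact ⟨y, hy, rfl⟩
    rw [h3, h2.isSimplyConnected_image]
    have h4 : Subtype.val '' (Subtype.val ⁻¹' Dk : Set Ek) = Dk := by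
      rw [Subtype.image_preimage_coe]
      exact inter_eq_right.2 Dk_sub_Ek
    rw [← Topology.IsEmbedding.subtypeVal.isSimplyConnected_image, h4]
    have h5 : ContractibleSpace Dk :=
      (convex_ball (0 : ℂ) 1).contractibleSpace ⟨0, by simp⟩
    exact (inferInstance : SimplyConnectedSpace Dk)
  have hb : Bornology.IsBounded (w '' Dk) :=
    ((isCompact_closedBall (0 : ℂ) 1).image_of_continuousOn wc).isBounded.subset
      (image_mono Dk_sub_Ek)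
  have hne : w '' Dk ≠ univ := by
    intro h
    rw [h] at hb
    exact NormedSpace.unbounded_univ ℂ ℂ hb
  obtain ⟨g, φ, g1, g2, g3, g4, φ1, φ2, φ3, φ4⟩ := Pool.Agent.Helper202.Riemann.riemann_inv wo hsc
    hne (mem_image_of_mem w zero_mem_Dk)
  have hinv : ∀ z ∈ Dk, invFunOn w Dk (g z) ∈ Dk ∧ w (invFunOn w Dk (g z)) = g z := fun z hz =>
    ⟨invFunOn_mem (g2.mapsTo hz), invFunOn_eq (g2.mapsTo hz)⟩
  have hψ : ∀ z ∈ Dk, φ (w z) ∈ Dk := fun z hz => φ2 (mem_image_of_mem w hz)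
  refine ⟨g, fun z => φ (w z), fun z => invFunOn w Dk (g z), ⟨wc, wi, g1, g2.injOn,
    fun z hz => (hinv z hz).1, fun z hz => (hinv z hz).2, hψ, ?_, fun z hz => ?_, fun z hz => ?_, ?_⟩,
    g3 0 zero_mem_Dk⟩
  · exact φ1.continuousOn.comp (wc.mono Dk_sub_Ek) fun z hz => mem_image_of_mem w hz
  · simp only [(hinv z hz).2]
    exact φ4 z hz
  · refine wi (Dk_sub_Ek (hinv _ (hψ z hz)).1) (Dk_sub_Ek hz) ?_
    rw [(hinv _ (hψ z hz)).2]
    exact φ3 _ (mem_image_of_mem w hz)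
  · refine wi (Dk_sub_Ek (hinv _ zero_mem_Dk).1) (Dk_sub_Ek zero_mem_Dk) ?_
    rw [(hinv _ zero_mem_Dk).2, g4]

theorem polar_dist (r s c : ℝ) :
    ‖(r : ℂ) * exp (s * I) - c‖ ^ 2 = r ^ 2 + c ^ 2 - 2 * r * c * Real.cos s := by
  have h : (r : ℂ) * exp (s * I) - c = ((r * Real.cos s - c : ℝ) : ℂ) + ((r * Real.sin s : ℝ) : ℂ) * I := by
    rw [exp_mul_I, ← ofReal_cos, ← ofReal_sin]
    push_cast
    ring
  rw [h, ← Complex.normSq_eq_norm_sq, normSq_add_mul_I]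
  linear_combination r ^ 2 * Real.sin_sq_add_cos_sq s

/-- The disc minus a disc is connected; the case of a center on the positive real axis. -/
theorem preconnected_aux {s c : ℝ} (hc : s ≤ c) (hs : 0 < s) :
    IsPreconnected {z : ℂ | ‖z‖ < 1 ∧ s ≤ ‖z - c‖} := by
  have hc0 : 0 < c := hs.trans_le hc
  have h0 : (0 : ℂ) ∈ {z : ℂ | ‖z‖ < 1 ∧ s ≤ ‖z - c‖} := by
    refine ⟨by simp, ?_⟩
    rw [zero_sub, norm_neg, norm_real, Real.norm_eq_abs, abs_of_pos hc0]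
    exact hc
  refine isPreconnected_of_forall (0 : ℂ) ?_
  intro z hz
  set r := ‖z‖ with hr
  have hr0 : 0 ≤ r := norm_nonneg z
  have hr1 : r < 1 := hz.1
  -- the segment of the negative real axis
  let S : Set ℂ := (fun t : ℝ => -(t : ℂ)) '' Icc 0 r
  have hS : S ⊆ {z : ℂ | ‖z‖ < 1 ∧ s ≤ ‖z - c‖} := by
    rintro _ ⟨t, ht, rfl⟩
    constructor
    · rw [norm_neg, norm_real, Real.norm_eq_abs, abs_of_nonneg ht.1]
      exact ht.2.trans_lt hr1
    · have h2 : -(t : ℂ) - c = -((t + c : ℝ) : ℂ) := by push_cast; ring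
      rw [h2, norm_neg, norm_real, Real.norm_eq_abs, abs_of_nonneg (by linarith [ht.1])]
      linarith [ht.1]
  have hSc : IsPreconnected S := isPreconnected_Icc.image _ (by fun_prop)
  -- the arc from `z` to the negative real axis
  have hz' : z = r * exp ((arg z : ℝ) * I) := (norm_mul_exp_arg_mul_I z).symm
  have harc : ∀ σ : ℝ, |arg z| ≤ |σ| → |σ| ≤ Real.pi →
      (r : ℂ) * exp (σ * I) ∈ {z : ℂ | ‖z‖ < 1 ∧ s ≤ ‖z - c‖} := by
    intro σ hσ hσ'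
    have hn : ‖(r : ℂ) * exp (σ * I)‖ = r := by
      rw [norm_mul, norm_exp_ofReal_mul_I, mul_one, norm_real, Real.norm_eq_abs,
        abs_of_nonneg hr0]
    refine ⟨hn.le.trans_lt hr1, ?_⟩
    have hcos : Real.cos σ ≤ Real.cos (arg z) := by
      rw [← Real.cos_abs σ, ← Real.cos_abs (arg z)]
      exact Real.cos_le_cos_of_nonneg_of_le_pi (abs_nonneg _) hσ' hσ
    have h1 := polar_dist r σ c
    have h2 := polar_dist r (arg z) c
    rw [← hz'] at h2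
    have h3 : s ^ 2 ≤ ‖z - c‖ ^ 2 := by
      have := hz.2
      gcongr
    have h4 : 2 * r * c * Real.cos σ ≤ 2 * r * c * Real.cos (arg z) := by
      have : 0 ≤ 2 * r * c := by positivity
      exact mul_le_mul_of_nonneg_left hcos this
    have h5 : s ^ 2 ≤ ‖(r : ℂ) * exp (σ * I) - c‖ ^ 2 := by linarith
    exact le_of_sq_le_sq h5 (norm_nonneg _)
  obtain ⟨A, hA, hAc, hzA, hrA⟩ : ∃ A : Set ℂ, A ⊆ {z : ℂ | ‖z‖ < 1 ∧ s ≤ ‖z - c‖} ∧
      IsPreconnected A ∧ z ∈ A ∧ (-(r : ℂ)) ∈ A := by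
    rcases le_total 0 (arg z) with h0 | h0
    · refine ⟨(fun s : ℝ => (r : ℂ) * exp (s * I)) '' Icc (arg z) Real.pi, ?_, ?_, ?_, ?_⟩
      · rintro _ ⟨s, hs, rfl⟩
        have hs0 : 0 ≤ s := h0.trans hs.1
        exact harc s (by rw [abs_of_nonneg h0, abs_of_nonneg hs0]; exact hs.1)
          (by rw [abs_of_nonneg hs0]; exact hs.2)
      · exact isPreconnected_Icc.image _ (by fun_prop)
      · exact ⟨arg z, ⟨le_rfl, arg_le_pi z⟩, hz'.symm⟩
      · exact ⟨Real.pi, ⟨arg_le_pi z, le_rfl⟩, by simp [exp_pi_mul_I]⟩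
    · refine ⟨(fun s : ℝ => (r : ℂ) * exp (s * I)) '' Icc (-Real.pi) (arg z), ?_, ?_, ?_, ?_⟩
      · rintro _ ⟨s, hs, rfl⟩
        have hs0 : s ≤ 0 := hs.2.trans h0
        exact harc s (by rw [abs_of_nonpos h0, abs_of_nonpos hs0]; linarith [hs.2])
          (by rw [abs_of_nonpos hs0]; linarith [hs.1])
      · exact isPreconnected_Icc.image _ (by fun_prop)
      · exact ⟨arg z, ⟨(neg_pi_lt_arg z).le, le_rfl⟩, hz'.symm⟩
      · refine ⟨-Real.pi, ⟨le_rfl, (neg_pi_lt_arg z).le⟩, ?_⟩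
        have : exp (((-Real.pi : ℝ) : ℂ) * I) = -1 := by
          rw [ofReal_neg, neg_mul, exp_neg, exp_pi_mul_I]
          norm_num
        simp only [this]
        ring
  refine ⟨A ∪ S, union_subset hA hS, Or.inr ⟨0, ⟨le_rfl, hr0⟩, by simp⟩, Or.inl hzA, ?_⟩
  exact hAc.union (-(r : ℂ)) hrA ⟨r, ⟨hr0, le_rfl⟩, rfl⟩ hSc

theorem preconnected_diff {s : ℝ} {q : ℂ} (hc : s ≤ ‖q‖) (hs : 0 < s) :
    IsPreconnected {z : ℂ | ‖z‖ < 1 ∧ s ≤ ‖z - q‖} := by
  have hq : q ≠ 0 := norm_ne_zero_iff.1 (hs.trans_le hc).ne'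
  set u : ℂ := exp (arg q * I) with hu
  have hu1 : ‖u‖ = 1 := norm_exp_ofReal_mul_I _
  have hqu : q = u * ‖q‖ := by
    rw [mul_comm]
    exact (norm_mul_exp_arg_mul_I q).symm
  have hu0 : u ≠ 0 := norm_ne_zero_iff.1 (by rw [hu1]; exact one_ne_zero)
  have h1 := (preconnected_aux hc hs).image (fun z => u * z) (by fun_prop)
  convert h1 using 1
  ext z
  constructor
  · intro hz
    refine ⟨z / u, ⟨?_, ?_⟩, ?_⟩
    · rw [norm_div, hu1, div_one]
      exact hz.1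
    · have : z / u - (‖q‖ : ℂ) = (z - q) / u := by
        conv_rhs => rw [hqu]
        field_simp
      rw [this, norm_div, hu1, div_one]
      exact hz.2
    · field_simp
  · rintro ⟨y, hy, rfl⟩
    refine ⟨?_, ?_⟩
    · simp only [norm_mul, hu1, one_mul]
      exact hy.1
    · have : u * y - q = u * (y - ‖q‖) := by
        conv_lhs => rw [hqu]
        ring
      simp only [this, norm_mul, hu1, one_mul]
      exact hy.2

variable {w g ψ v₀ : ℂ → ℂ}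

theorem RM.v0c (h : RM w g ψ v₀) : ContinuousOn v₀ Dk := by
  intro z hz
  rw [Metric.continuousWithinAt_iff]
  intro ε hε
  obtain ⟨η, hη, H⟩ := unif_inv h.wc h.wi hε
  have h1 := h.gd.continuousOn z hz
  rw [Metric.continuousWithinAt_iff] at h1
  obtain ⟨δ, hδ, h2⟩ := h1 η hη
  refine ⟨δ, hδ, fun {y} hy hyz => ?_⟩
  rw [dist_eq_norm]
  refine H _ (Dk_sub_Ek (h.v0m hz)) _ (Dk_sub_Ek (h.v0m hy)) ?_
  rw [h.v0e z hz, h.v0e y hy, ← dist_eq_norm]
  exact (h2 hy hyz).le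

theorem RM.ψ0 (h : RM w g ψ v₀) : ψ 0 = 0 := by
  have := h.ψv 0 zero_mem_Dk
  rwa [h.z0] at this

theorem RM.vol (h : RM w g ψ v₀) : volume (g '' Dk) ≠ ⊤ := by
  have h1 : g '' Dk ⊆ w '' Ek := by
    rintro _ ⟨z, hz, rfl⟩
    exact ⟨v₀ z, Dk_sub_Ek (h.v0m hz), h.v0e z hz⟩
  exact ((measure_mono h1).trans_lt
    ((isCompact_closedBall (0 : ℂ) 1).image_of_continuousOn h.wc).measure_lt_top).ne

/-- Close to a boundary point, `v₀` has small oscillation. -/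
theorem RM.osc (h : RM w g ψ v₀) {ζ : ℂ} (hζ : ‖ζ‖ = 1) {ε : ℝ} (hε : 0 < ε) :
    ∃ δ > 0, ∀ x ∈ Dk, ∀ y ∈ Dk, ‖x - ζ‖ < δ → ‖y - ζ‖ < δ → ‖v₀ x - v₀ y‖ < ε := by
  -- a small radius on which `ψ` is small
  have hψ := h.ψc 0 zero_mem_Dk
  rw [Metric.continuousWithinAt_iff] at hψ
  obtain ⟨s₀, hs₀, hψs⟩ := hψ (1 / 2) (by norm_num)
  rw [h.ψ0] at hψs
  set s := min s₀ (ε / 2) with hs
  have hs0 : 0 < s := lt_min hs₀ (by positivity)
  obtain ⟨η, hη, H⟩ := unif_inv h.wc h.wi hs0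
  obtain ⟨r, hr, hr2, hcr⟩ := exists_small_crosscut h.gd h.gi h.vol hζ (δ := 1 / 2) (η := η)
    (by norm_num) hη
  -- a point of the crosscut
  have hz₁ : ζ * (1 - r) ∈ Dk := by
    rw [mem_ball_zero_iff, norm_mul, hζ, one_mul]
    have : (1 : ℂ) - r = ((1 - r : ℝ) : ℂ) := by push_cast; ring
    rw [this, norm_real, Real.norm_eq_abs, abs_of_pos (by linarith)]
    linarith
  have hz₁r : ‖ζ * (1 - r) - ζ‖ = r := by
    have : ζ * (1 - r) - ζ = -(ζ * r) := by ring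
    rw [this, norm_neg, norm_mul, hζ, one_mul, norm_real, Real.norm_eq_abs, abs_of_pos hr]
  set q := v₀ (ζ * (1 - r)) with hq
  have hqs : s ≤ ‖q‖ := by
    by_contra hcon
    have h1 : dist q 0 < s₀ := by
      rw [dist_zero_right]
      exact (not_le.1 hcon).trans_le (min_le_left _ _)
    have h2 := hψs (h.v0m hz₁) h1
    rw [h.ψv _ hz₁, dist_zero_right] at h2
    have h3 : ‖ζ‖ ≤ ‖ζ * (1 - r)‖ + ‖ζ * (1 - r) - ζ‖ := by
      have := norm_sub_le (ζ * (1 - r)) (ζ * (1 - r) - ζ)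
      simpa using this
    rw [hz₁r, hζ] at h3
    linarith
  -- the image of the crosscut is in a small disc
  have hK : ∀ z ∈ Dk, ‖z - ζ‖ = r → ‖v₀ z - q‖ < s := by
    intro z hz hzr
    refine H _ (Dk_sub_Ek (h.v0m hz₁)) _ (Dk_sub_Ek (h.v0m hz)) ?_
    rw [h.v0e _ hz, h.v0e _ hz₁]
    exact hcr _ hz₁ _ hz hz₁r hzr
  -- the complement of the small disc is connected
  have hconn := preconnected_diff hqs hs0
  have hin : ∀ z ∈ {z : ℂ | ‖z‖ < 1 ∧ s ≤ ‖z - q‖}, r < ‖ψ z - ζ‖ := by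
    have hmem : {z : ℂ | ‖z‖ < 1 ∧ s ≤ ‖z - q‖} ⊆ Dk := fun z hz => by
      rw [mem_ball_zero_iff]
      exact hz.1
    have hc : ContinuousOn ψ {z : ℂ | ‖z‖ < 1 ∧ s ≤ ‖z - q‖} := h.ψc.mono hmem
    have himg := hconn.image ψ hc
    have hsub : ψ '' {z : ℂ | ‖z‖ < 1 ∧ s ≤ ‖z - q‖} ⊆ {z | ‖z - ζ‖ < r} ∪ {z | r < ‖z - ζ‖} := by
      rintro _ ⟨z, hz, rfl⟩
      rcases lt_trichotomy ‖ψ z - ζ‖ r with h1 | h1 | h1
      · exact Or.inl h1
      · exfalso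
        have h2 := hK _ (h.ψm (hmem hz)) h1
        rw [h.vψ z (hmem hz)] at h2
        exact absurd hz.2 (not_le.2 h2)
      · exact Or.inr h1
    have hor := himg.subset_or_subset (u := {z | ‖z - ζ‖ < r}) (v := {z | r < ‖z - ζ‖})
      (isOpen_lt (by fun_prop) (by fun_prop)) (isOpen_lt (by fun_prop) (by fun_prop)) ?_ hsub
    · have h0 : (0 : ℂ) ∈ {z : ℂ | ‖z‖ < 1 ∧ s ≤ ‖z - q‖} := by
        refine ⟨by simp, ?_⟩
        rw [zero_sub, norm_neg]
        exact hqs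
      rcases hor with hor | hor
      · exfalso
        have h1 : ‖ψ 0 - ζ‖ < r := hor ⟨0, h0, rfl⟩
        rw [h.ψ0, zero_sub, norm_neg, hζ] at h1
        linarith
      · intro z hz
        exact hor ⟨z, hz, rfl⟩
    · rw [Set.disjoint_left]
      intro z hz1 hz2
      have hz1' : ‖z - ζ‖ < r := hz1
      have hz2' : r < ‖z - ζ‖ := hz2
      exact lt_asymm hz1' hz2'
  have hsmall : ∀ x ∈ Dk, ‖x - ζ‖ < r → ‖v₀ x - q‖ < s := by
    intro x hx hxr
    by_contra hcon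
    have h1 := hin (v₀ x) ⟨mem_ball_zero_iff.1 (h.v0m hx), not_lt.1 hcon⟩
    rw [h.ψv x hx] at h1
    exact lt_asymm hxr h1
  refine ⟨r, hr, fun x hx y hy hxr hyr => ?_⟩
  have h1 := hsmall x hx hxr
  have h2 := hsmall y hy hyr
  have h3 : s ≤ ε / 2 := min_le_right _ _
  calc ‖v₀ x - v₀ y‖ = ‖(v₀ x - q) - (v₀ y - q)‖ := by congr 1; ring
    _ ≤ ‖v₀ x - q‖ + ‖v₀ y - q‖ := norm_sub_le _ _
    _ < ε := by linarith

/-- The extension to the closed disc. -/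
def vext (v₀ : ℂ → ℂ) : ℂ → ℂ := extendFrom Dk v₀

theorem closure_Dk : closure Dk = Ek := closure_ball 0 one_ne_zero

theorem RM.exists_lim (h : RM w g ψ v₀) {ζ : ℂ} (hζ : ζ ∈ Ek) :
    ∃ y, Tendsto v₀ (𝓝[Dk] ζ) (𝓝 y) := by
  rcases lt_or_eq_of_le (mem_closedBall_zero_iff.1 hζ) with h1 | h1
  · exact ⟨v₀ ζ, h.v0c ζ (mem_ball_zero_iff.2 h1)⟩
  · have : (𝓝[Dk] ζ).NeBot := mem_closure_iff_nhdsWithin_neBot.1 (closure_Dk ▸ hζ)
    have hc : Cauchy (map v₀ (𝓝[Dk] ζ)) := by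
      rw [Metric.cauchy_iff]
      refine ⟨inferInstance, fun ε hε => ?_⟩
      obtain ⟨δ, hδ, H⟩ := h.osc h1 hε
      refine ⟨v₀ '' (Dk ∩ ball ζ δ), image_mem_map (inter_mem_nhdsWithin _ (ball_mem_nhds _ hδ)), ?_⟩
      rintro _ ⟨x, hx, rfl⟩ _ ⟨y, hy, rfl⟩
      rw [dist_eq_norm]
      exact H x hx.1 y hy.1 (mem_ball_iff_norm.1 hx.2) (mem_ball_iff_norm.1 hy.2)
    exact CompleteSpace.complete hc

theorem RM.vc (h : RM w g ψ v₀) : ContinuousOn (vext v₀) Ek :=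
  continuousOn_extendFrom closure_Dk.ge fun _ hx => h.exists_lim hx

theorem RM.v_eq (h : RM w g ψ v₀) {z : ℂ} (hz : z ∈ Dk) : vext v₀ z = v₀ z :=
  extendFrom_extends h.v0c z hz

theorem RM.v_lim (h : RM w g ψ v₀) {ζ : ℂ} (hζ : ζ ∈ Ek) :
    Tendsto v₀ (𝓝[Dk] ζ) (𝓝 (vext v₀ ζ)) := tendsto_extendFrom (h.exists_lim hζ)

theorem RM.vmD (h : RM w g ψ v₀) : MapsTo (vext v₀) Dk Dk := fun z hz => by
  rw [h.v_eq hz]
  exact h.v0m hz

theorem RM.vmE (h : RM w g ψ v₀) : MapsTo (vext v₀) Ek Ek := by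
  intro z hz
  have : (𝓝[Dk] z).NeBot := mem_closure_iff_nhdsWithin_neBot.1 (closure_Dk ▸ hz)
  refine isClosed_closedBall.mem_of_tendsto (h.v_lim hz) ?_
  filter_upwards [self_mem_nhdsWithin] with y hy
  exact Dk_sub_Ek (h.v0m hy)

/-- The extension maps the boundary to the boundary. -/
theorem RM.vmS (h : RM w g ψ v₀) {z : ℂ} (hz : ‖z‖ = 1) : ‖vext v₀ z‖ = 1 := by
  have hzE : z ∈ Ek := mem_closedBall_zero_iff.2 hz.le
  have : (𝓝[Dk] z).NeBot := mem_closure_iff_nhdsWithin_neBot.1 (closure_Dk ▸ hzE)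
  rcases lt_or_eq_of_le (mem_closedBall_zero_iff.1 (h.vmE hzE)) with h1 | h1
  · exfalso
    have h2 : vext v₀ z ∈ Dk := mem_ball_zero_iff.2 h1
    have h3 : Tendsto ψ (𝓝 (vext v₀ z)) (𝓝 (ψ (vext v₀ z))) :=
      (h.ψc.continuousAt (isOpen_ball.mem_nhds h2))
    have h4 : Tendsto (fun y => ψ (v₀ y)) (𝓝[Dk] z) (𝓝 (ψ (vext v₀ z))) :=
      h3.comp (h.v_lim hzE)
    have h5 : Tendsto (fun y => ψ (v₀ y)) (𝓝[Dk] z) (𝓝 z) := by
      refine (tendsto_nhdsWithin_of_tendsto_nhds tendsto_id).congr' ?_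
      filter_upwards [self_mem_nhdsWithin] with y hy
      exact (h.ψv y hy).symm
    have h6 := tendsto_nhds_unique h4 h5
    have h7 := h.ψm h2
    rw [h6, mem_ball_zero_iff, hz] at h7
    exact lt_irrefl _ h7
  · exact h1

theorem RM.v_surj (h : RM w g ψ v₀) : SurjOn (vext v₀) Ek Ek := by
  have h1 : IsClosed (vext v₀ '' Ek) :=
    ((isCompact_closedBall (0 : ℂ) 1).image_of_continuousOn h.vc).isClosed
  have h2 : Dk ⊆ vext v₀ '' Ek := fun z hz =>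
    ⟨ψ z, Dk_sub_Ek (h.ψm hz), by rw [h.v_eq (h.ψm hz), h.vψ z hz]⟩
  have h3 := closure_minimal h2 h1
  rwa [closure_Dk] at h3

end Pool.Agent.V11210.SPH
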