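import Pool.Agent.V11210.SPH.Car1

/-!
The extension to the closed disc is injective.
-/

set_option autoImplicit false

open Complex Set Filter Topology Function MeasureTheory Metric
open scoped ENNReal ComplexConjugate

noncomputable section

namespace Pool.Agent.V11210.SPH

variable {w g ψ v₀ : ℂ → ℂ}

theorem RM.not_const_arc (h : RM w g ψ v₀) {u : ℂ} (hu : ‖u‖ = 1) {κ : ℝ} (hκ : κ < 1) {p : ℂ}
    (hc : ∀ z : ℂ, ‖z‖ = 1 → κ < (z * conj u).re → vext v₀ z = p) : False := by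
  have huu : (u * conj u).re = 1 := by
    rw [mul_conj, normSq_eq_norm_sq, hu]
    norm_num
  have hp : p = vext v₀ u := (hc u hu (by rw [huu]; exact hκ)).symm
  have hp1 : ‖p‖ = 1 := by rw [hp]; exact h.vmS hu
  have hpE : p ∈ Ek := mem_closedBall_zero_iff.2 hp1.le
  let F : ℂ → ℂ := fun z => w (vext v₀ z) - w p
  have hFc : ContinuousOn F Ek := (h.wc.comp h.vc h.vmE).sub continuousOn_const
  have hFd : DifferentiableOn ℂ F Dk := by
    refine DifferentiableOn.congr (f := fun z => g z - w p) (h.gd.sub_const _) fun z hz => ?_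
    simp only [F]
    rw [h.v_eq hz, h.v0e z hz]
  obtain ⟨t, ht, hcov⟩ := (isCompact_sphere (0 : ℂ) 1).elim_nhds_subcover
    (fun ξ => {z : ℂ | κ < (u / ξ * z * conj u).re}) (fun ξ hξ => by
      refine (isOpen_lt (by fun_prop) (by fun_prop)).mem_nhds ?_
      have hξ0 : ξ ≠ 0 := by
        rw [mem_sphere_zero_iff_norm] at hξ
        exact norm_ne_zero_iff.1 (by rw [hξ]; exact one_ne_zero)
      rw [mem_ofPred_eq, div_mul_cancel₀ _ hξ0, huu]
      exact hκ)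
  have hrot : ∀ ξ ∈ t, ∀ z : ℂ, ‖u / ξ * z‖ = ‖z‖ := by
    intro ξ hξ z
    have := ht ξ hξ
    rw [mem_sphere_zero_iff_norm] at this
    rw [norm_mul, norm_div, hu, this]
    simp
  let G : ℂ → ℂ := fun z => ∏ ξ ∈ t, F (u / ξ * z)
  have hG : DiffContOnCl ℂ G (ball 0 1) := by
    constructor
    · refine DifferentiableOn.fun_finsetProd fun ξ hξ => ?_
      refine hFd.comp (by fun_prop) fun z hz => ?_
      rw [mem_ball_zero_iff, hrot ξ hξ]
      exact mem_ball_zero_iff.1 hz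
    · rw [closure_ball 0 one_ne_zero]
      refine continuousOn_finsetProd t fun ξ hξ => ?_
      refine hFc.comp (by fun_prop) fun z hz => ?_
      rw [mem_closedBall_zero_iff, hrot ξ hξ]
      exact mem_closedBall_zero_iff.1 hz
  have hG0 : ‖G 0‖ ≤ 0 := by
    refine Complex.norm_le_of_forall_mem_frontier_norm_le isBounded_ball hG (fun z hz => ?_)
      (subset_closure zero_mem_Dk)
    rw [frontier_ball 0 one_ne_zero] at hz
    have hz1 := mem_sphere_zero_iff_norm.1 hz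
    obtain ⟨ξ, hξ, hzξ⟩ := mem_iUnion₂.1 (hcov hz)
    have h1 : F (u / ξ * z) = 0 := by
      have h2 := hc (u / ξ * z) ((hrot ξ hξ z).trans hz1) hzξ
      simp only [F]
      rw [h2, sub_self]
    have h3 : G z = 0 := Finset.prod_eq_zero hξ h1
    rw [h3, norm_zero]
  have hG1 : G 0 = 0 := norm_le_zero_iff.1 hG0
  obtain ⟨ξ, -, hξ⟩ := Finset.prod_eq_zero_iff.1 hG1
  rw [mul_zero] at hξ
  have h1 : w (vext v₀ 0) = w p := sub_eq_zero.1 hξ
  have h2 := h.wi (h.vmE (Dk_sub_Ek zero_mem_Dk)) hpE h1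
  rw [h.v_eq zero_mem_Dk, h.z0] at h2
  rw [← h2, norm_zero] at hp1
  exact zero_ne_one hp1

theorem exists_angle {p q : ℂ} (hp : ‖p‖ = 1) (hq : ‖q‖ = 1) (hne : q ≠ p) :
    ∃ τ ∈ Ioo (-Real.pi) Real.pi, q = -p * exp (τ * I) := by
  have hp0 : p ≠ 0 := norm_ne_zero_iff.1 (by rw [hp]; exact one_ne_zero)
  refine ⟨arg (-q / p), ⟨neg_pi_lt_arg _, lt_of_le_of_ne (arg_le_pi _) fun he => hne ?_⟩, ?_⟩
  · have h1 : -q / p = -1 := by
      have h2 := norm_mul_exp_arg_mul_I (-q / p)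
      rw [he, exp_pi_mul_I, norm_div, norm_neg, hq, hp] at h2
      rw [← h2]
      norm_num
    field_simp at h1
    exact neg_injective h1
  · have h2 := norm_mul_exp_arg_mul_I (-q / p)
    rw [norm_div, norm_neg, hq, hp, div_one, ofReal_one, one_mul] at h2
    rw [h2]
    field_simp

theorem exp_ne_neg_one {τ : ℝ} (h : τ ∈ Ioo (-Real.pi) Real.pi) : exp (τ * I) ≠ -1 := by
  intro he
  have h1 : arg (exp (τ * I)) = τ := by
    rw [arg_exp_mul_I, toIocMod_eq_self]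
    constructor
    · exact h.1
    · have := h.2
      linarith
  rw [he, arg_neg_one] at h1
  exact h.2.ne h1.symm

theorem RM.dichotomy (h : RM w g ψ v₀) {u : ℂ} {κ : ℝ} {p : ℂ} (hp : ‖p‖ = 1)
    (hκ : ∀ z : ℂ, ‖z‖ = 1 → (z * conj u).re = κ → vext v₀ z = p) :
    (∀ z : ℂ, ‖z‖ = 1 → κ < (z * conj u).re → vext v₀ z = p) ∨
      ∀ z : ℂ, ‖z‖ = 1 → (z * conj u).re < κ → vext v₀ z = p := by
  by_contra hcon
  rw [not_or] at hcon
  obtain ⟨hcon1, hcon2⟩ := hcon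
  push Not at hcon1 hcon2
  obtain ⟨a, ha, hak, hap⟩ := hcon1
  obtain ⟨b, hb, hbk, hbp⟩ := hcon2
  have hq1 := h.vmS ha
  have hq2 := h.vmS hb
  set q₁ := vext v₀ a
  set q₂ := vext v₀ b
  -- the image of the two radii
  let γ : Set ℂ := Ek ∩ {z | (z * conj u).re = κ * ‖z‖}
  have hγ : IsCompact γ :=
    (isCompact_closedBall 0 1).inter_right (isClosed_eq (by fun_prop) (by fun_prop))
  let Γ : Set ℂ := vext v₀ '' γ
  have hΓ : IsClosed Γ := (hγ.image_of_continuousOn (h.vc.mono inter_subset_left)).isClosed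
  have hΓp : ∀ y ∈ Γ, ‖y‖ = 1 → y = p := by
    rintro _ ⟨z, hz, rfl⟩ hy
    rcases lt_or_eq_of_le (mem_closedBall_zero_iff.1 hz.1) with h1 | h1
    · exfalso
      have h2 := mem_ball_zero_iff.1 (h.vmD (mem_ball_zero_iff.2 h1))
      linarith
    · refine hκ z h1 ?_
      have h2 : (z * conj u).re = κ * ‖z‖ := hz.2
      rw [h2, h1, mul_one]
  -- the arc of the circle
  obtain ⟨τ₁, hτ₁, hτ₁'⟩ := exists_angle hp hq1 hap
  obtain ⟨τ₂, hτ₂, hτ₂'⟩ := exists_angle hp hq2 hbp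
  let J : Set ℂ := (fun τ : ℝ => -p * exp (τ * I)) '' uIcc τ₁ τ₂
  have hJc : IsCompact J := isCompact_uIcc.image (by fun_prop)
  have hJp : IsPreconnected J := isPreconnected_uIcc.image _ (by fun_prop)
  have hJ1 : ∀ q ∈ J, ‖q‖ = 1 := by
    rintro _ ⟨τ, -, rfl⟩
    simp only [norm_mul, norm_neg, hp, norm_exp_ofReal_mul_I, mul_one]
  have hJΓ : J ⊆ Γᶜ := by
    intro q hq hqΓ
    have h1 := hΓp q hqΓ (hJ1 q hq)
    obtain ⟨τ, hτ, hτq⟩ := hq
    have h2 : τ ∈ Ioo (-Real.pi) Real.pi := (ordConnected_Ioo.uIcc_subset hτ₁ hτ₂) hτ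
    refine exp_ne_neg_one h2 ?_
    have hp0 : p ≠ 0 := norm_ne_zero_iff.1 (by rw [hp]; exact one_ne_zero)
    simp only at hτq
    rw [h1] at hτq
    have h3 : -p * exp (τ * I) = -p * (-1) := by rw [hτq]; ring
    exact mul_left_cancel₀ (neg_ne_zero.2 hp0) h3
  have hq1J : q₁ ∈ J := ⟨τ₁, left_mem_uIcc, hτ₁'.symm⟩
  have hq2J : q₂ ∈ J := ⟨τ₂, right_mem_uIcc, hτ₂'.symm⟩
  obtain ⟨d₀, hd₀, hthick⟩ := hJc.exists_thickening_subset_open hΓ.isOpen_compl hJΓ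
  set d := min d₀ 1 with hd
  have hd0 : 0 < d := lt_min hd₀ one_pos
  have hd1 : d ≤ 1 := min_le_right _ _
  have hthick' : ∀ q ∈ J, ∀ y, ‖y - q‖ < d → y ∉ Γ := by
    intro q hq y hy
    refine hthick (mem_thickening_iff.2 ⟨q, hq, ?_⟩)
    rw [dist_eq_norm]
    exact hy.trans_le (min_le_left _ _)
  -- the connected set
  let N' : Set ℂ := (fun x : ℂ × ℝ => (x.2 : ℂ) * x.1) '' (J ×ˢ Ioo (1 - d) 1)
  have hN' : IsPreconnected N' := (hJp.prod isPreconnected_Ioo).image _ (by fun_prop)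
  have hN'D : ∀ y ∈ N', y ∈ Dk ∧ y ∉ Γ := by
    rintro _ ⟨⟨q, s⟩, ⟨hq, hs⟩, rfl⟩
    simp only at hq hs ⊢
    have h0 : 0 < s := by linarith [hs.1]
    constructor
    · rw [mem_ball_zero_iff, norm_mul, hJ1 q hq, mul_one, norm_real, Real.norm_eq_abs,
        abs_of_pos h0]
      exact hs.2
    · refine hthick' q hq _ ?_
      have h1 : (s : ℂ) * q - q = -(((1 - s : ℝ) : ℂ) * q) := by push_cast; ring
      rw [h1, norm_neg, norm_mul, hJ1 q hq, mul_one, norm_real, Real.norm_eq_abs,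
        abs_of_pos (by linarith [hs.2])]
      linarith [hs.1]
  have hball : ∀ q ∈ J, IsPreconnected (ball q d ∩ Dk) := fun q _ =>
    ((convex_ball q d).inter (convex_ball 0 1)).isPreconnected
  have hballD : ∀ q ∈ J, ∀ y ∈ ball q d ∩ Dk, y ∈ Dk ∧ y ∉ Γ := fun q hq y hy =>
    ⟨hy.2, hthick' q hq y (mem_ball_iff_norm.1 hy.1)⟩
  have hcommon : ∀ q ∈ J, ((1 - d / 2 : ℝ) : ℂ) * q ∈ N' ∧
      ((1 - d / 2 : ℝ) : ℂ) * q ∈ ball q d ∩ Dk := by
    intro q hq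
    have h1 : ((1 - d / 2 : ℝ) : ℂ) * q ∈ N' :=
      ⟨(q, 1 - d / 2), ⟨hq, by constructor <;> linarith⟩, rfl⟩
    refine ⟨h1, ?_, (hN'D _ h1).1⟩
    rw [mem_ball_iff_norm]
    have h2 : ((1 - d / 2 : ℝ) : ℂ) * q - q = -(((d / 2 : ℝ) : ℂ) * q) := by push_cast; ring
    rw [h2, norm_neg, norm_mul, hJ1 q hq, mul_one, norm_real, Real.norm_eq_abs,
      abs_of_pos (by linarith)]
    linarith
  let N : Set ℂ := (N' ∪ ball q₁ d ∩ Dk) ∪ ball q₂ d ∩ Dk
  have hN : IsPreconnected N := by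
    refine IsPreconnected.union _ (Or.inl (hcommon q₂ hq2J).1) (hcommon q₂ hq2J).2 ?_
      (hball q₂ hq2J)
    exact IsPreconnected.union _ (hcommon q₁ hq1J).1 (hcommon q₁ hq1J).2 hN' (hball q₁ hq1J)
  have hND : ∀ y ∈ N, y ∈ Dk ∧ y ∉ Γ := by
    rintro y ((hy | hy) | hy)
    · exact hN'D y hy
    · exact hballD q₁ hq1J y hy
    · exact hballD q₂ hq2J y hy
  have hψN : IsPreconnected (ψ '' N) := hN.image _ (h.ψc.mono fun y hy => (hND y hy).1)
  have hsub : ψ '' N ⊆ {z | κ * ‖z‖ < (z * conj u).re} ∪ {z | (z * conj u).re < κ * ‖z‖} := by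
    rintro _ ⟨y, hy, rfl⟩
    obtain ⟨hyD, hyΓ⟩ := hND y hy
    rcases lt_trichotomy (κ * ‖ψ y‖) (ψ y * conj u).re with h1 | h1 | h1
    · exact Or.inl h1
    · exfalso
      refine hyΓ ⟨ψ y, ⟨Dk_sub_Ek (h.ψm hyD), h1.symm⟩, ?_⟩
      rw [h.v_eq (h.ψm hyD), h.vψ y hyD]
    · exact Or.inr h1
  have hclose : ∀ c : ℂ, ‖c‖ = 1 → ∃ t : ℝ, 0 < t ∧ t < 1 ∧ (t : ℂ) * c ∈ Dk ∧
      v₀ (t * c) ∈ ball (vext v₀ c) d ∩ Dk := by
    intro c hc
    have h1 := h.v_lim (mem_closedBall_zero_iff.2 hc.le)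
    rw [Metric.tendsto_nhdsWithin_nhds] at h1
    obtain ⟨δ, hδ, h2⟩ := h1 d hd0
    have hm : 0 < min δ 1 := lt_min hδ one_pos
    have hm1 : min δ 1 ≤ 1 := min_le_right _ _
    have hm2 : min δ 1 ≤ δ := min_le_left _ _
    have ht0 : 0 < 1 - min δ 1 / 2 := by linarith
    have htD : ((1 - min δ 1 / 2 : ℝ) : ℂ) * c ∈ Dk := by
      rw [mem_ball_zero_iff, norm_mul, hc, mul_one, norm_real, Real.norm_eq_abs, abs_of_pos ht0]
      linarith
    refine ⟨1 - min δ 1 / 2, ht0, by linarith, htD, ?_, h.v0m htD⟩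
    refine mem_ball.2 (h2 htD ?_)
    rw [dist_eq_norm]
    have h3 : ((1 - min δ 1 / 2 : ℝ) : ℂ) * c - c = -(((min δ 1 / 2 : ℝ) : ℂ) * c) := by
      push_cast; ring
    rw [h3, norm_neg, norm_mul, hc, mul_one, norm_real, Real.norm_eq_abs, abs_of_pos (by linarith)]
    linarith
  obtain ⟨t, ht0, -, htD, htN⟩ := hclose a ha
  obtain ⟨s, hs0, -, hsD, hsN⟩ := hclose b hb
  have hta : (t : ℂ) * a ∈ ψ '' N := ⟨v₀ (t * a), Or.inl (Or.inr htN), h.ψv _ htD⟩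
  have hsb : (s : ℂ) * b ∈ ψ '' N := ⟨v₀ (s * b), Or.inr hsN, h.ψv _ hsD⟩
  have hn : ∀ (r : ℝ) (c : ℂ), 0 < r → ‖c‖ = 1 → ‖(r : ℂ) * c‖ = r := by
    intro r c hr hc
    rw [norm_mul, hc, mul_one, norm_real, Real.norm_eq_abs, abs_of_pos hr]
  have hre : ∀ (r : ℝ) (c : ℂ), ((r : ℂ) * c * conj u).re = r * (c * conj u).re := by
    intro r c
    rw [mul_assoc, re_ofReal_mul]
  have hor := hψN.subset_or_subset (isOpen_lt (by fun_prop) (by fun_prop))
    (isOpen_lt (by fun_prop) (by fun_prop)) ?_ hsub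
  · rcases hor with hor | hor
    · have h1 : κ * ‖(s : ℂ) * b‖ < ((s : ℂ) * b * conj u).re := hor hsb
      rw [hn s b hs0 hb, hre] at h1
      nlinarith
    · have h1 : ((t : ℂ) * a * conj u).re < κ * ‖(t : ℂ) * a‖ := hor hta
      rw [hn t a ht0 ha, hre] at h1
      nlinarith
  · rw [Set.disjoint_left]
    intro z hz1 hz2
    have hz1' : κ * ‖z‖ < (z * conj u).re := hz1
    have hz2' : (z * conj u).re < κ * ‖z‖ := hz2
    exact lt_asymm hz1' hz2'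

theorem RM.inj_sphere (h : RM w g ψ v₀) {ζ₁ ζ₂ : ℂ} (h1 : ‖ζ₁‖ = 1) (h2 : ‖ζ₂‖ = 1)
    (he : vext v₀ ζ₁ = vext v₀ ζ₂) : ζ₁ = ζ₂ := by
  by_contra hne
  have hsub : ζ₁ - ζ₂ ≠ 0 := sub_ne_zero.2 hne
  have hn0 : ‖ζ₁ - ζ₂‖ ≠ 0 := norm_ne_zero_iff.2 hsub
  set u : ℂ := I * (ζ₁ - ζ₂) / (‖ζ₁ - ζ₂‖ : ℝ) with hu
  have hu1 : ‖u‖ = 1 := by
    rw [hu, norm_div, norm_mul, norm_I, one_mul, norm_real, norm_norm, div_self hn0]
  have hu0 : conj u ≠ 0 := by
    rw [map_ne_zero]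
    exact norm_ne_zero_iff.1 (by rw [hu1]; exact one_ne_zero)
  have horth : ((ζ₁ - ζ₂) * conj u).re = 0 := by
    have : (ζ₁ - ζ₂) * conj u = -((‖ζ₁ - ζ₂‖ : ℝ) : ℂ) * I := by
      rw [hu]
      simp only [map_div₀, map_mul, conj_I, conj_ofReal]
      have h3 : (ζ₁ - ζ₂) * conj (ζ₁ - ζ₂) = ((‖ζ₁ - ζ₂‖ : ℝ) : ℂ) ^ 2 := by
        rw [mul_conj, normSq_eq_norm_sq]
        push_cast
        ring
      have h4 : ((‖ζ₁ - ζ₂‖ : ℝ) : ℂ) ≠ 0 := ofReal_ne_zero.2 hn0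
      calc (ζ₁ - ζ₂) * (-I * conj (ζ₁ - ζ₂) / ((‖ζ₁ - ζ₂‖ : ℝ) : ℂ)) =
          -I * ((ζ₁ - ζ₂) * conj (ζ₁ - ζ₂)) / ((‖ζ₁ - ζ₂‖ : ℝ) : ℂ) := by ring
        _ = _ := by
          rw [h3]
          field_simp
    rw [this]
    simp
  set κ := (ζ₁ * conj u).re with hκ
  have hκ2 : (ζ₂ * conj u).re = κ := by
    rw [sub_mul, sub_re] at horth
    linarith
  have hsq : ∀ z : ℂ, ‖z‖ = 1 → (z * conj u).re ^ 2 + (z * conj u).im ^ 2 = 1 := by
    intro z hz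
    have : normSq (z * conj u) = 1 := by
      rw [normSq_eq_norm_sq, norm_mul, hz, norm_conj, hu1]
      norm_num
    rw [normSq_apply] at this
    linarith
  have him : (ζ₁ * conj u).im ≠ (ζ₂ * conj u).im := by
    intro him
    exact hne (mul_right_cancel₀ hu0 (Complex.ext (hκ.symm.trans hκ2.symm) him))
  have e1 := hsq ζ₁ h1
  have e2 := hsq ζ₂ h2
  rw [← hκ] at e1
  rw [hκ2] at e2
  have him2 : (ζ₂ * conj u).im = -(ζ₁ * conj u).im := by
    have h3 : ((ζ₂ * conj u).im - (ζ₁ * conj u).im) * ((ζ₂ * conj u).im + (ζ₁ * conj u).im) = 0 := by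
      linear_combination e2 - e1
    rcases mul_eq_zero.1 h3 with h4 | h4
    · exact absurd (sub_eq_zero.1 h4).symm him
    · linarith
  have him0 : (ζ₁ * conj u).im ≠ 0 := by
    intro h3
    rw [h3, neg_zero] at him2
    exact him (h3.trans him2.symm)
  have hpos : 0 < (ζ₁ * conj u).im ^ 2 := by positivity
  have hκ1 : κ < 1 := by nlinarith
  have hκ1' : -1 < κ := by nlinarith
  have hlevel : ∀ z : ℂ, ‖z‖ = 1 → (z * conj u).re = κ → vext v₀ z = vext v₀ ζ₁ := by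
    intro z hz hzκ
    have e3 := hsq z hz
    rw [hzκ] at e3
    have h3 : ((z * conj u).im - (ζ₁ * conj u).im) * ((z * conj u).im + (ζ₁ * conj u).im) = 0 := by
      linear_combination e3 - e1
    rcases mul_eq_zero.1 h3 with h4 | h4
    · have : z = ζ₁ := mul_right_cancel₀ hu0 (Complex.ext (hzκ.trans hκ) (sub_eq_zero.1 h4))
      rw [this]
    · have : z = ζ₂ := mul_right_cancel₀ hu0
        (Complex.ext (hzκ.trans hκ2.symm) (by rw [him2]; linarith))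
      rw [this, he]
  rcases h.dichotomy (h.vmS h1) hlevel with h3 | h3
  · exact h.not_const_arc hu1 hκ1 h3
  · refine h.not_const_arc (u := -u) (by rw [norm_neg]; exact hu1) (κ := -κ) (by linarith)
      (p := vext v₀ ζ₁) fun z hz hzk => h3 z hz ?_
    rw [map_neg, mul_neg, neg_re] at hzk
    linarith

theorem RM.inj (h : RM w g ψ v₀) : InjOn (vext v₀) Ek := by
  intro x hx y hy hxy
  rcases lt_or_eq_of_le (mem_closedBall_zero_iff.1 hx) with h1 | h1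
  · rcases lt_or_eq_of_le (mem_closedBall_zero_iff.1 hy) with h2 | h2
    · have hx' := mem_ball_zero_iff.2 h1
      have hy' := mem_ball_zero_iff.2 h2
      rw [h.v_eq hx', h.v_eq hy'] at hxy
      rw [← h.ψv x hx', hxy, h.ψv y hy']
    · exfalso
      have h3 := mem_ball_zero_iff.1 (h.vmD (mem_ball_zero_iff.2 h1))
      rw [hxy, h.vmS h2] at h3
      exact lt_irrefl _ h3
  · rcases lt_or_eq_of_le (mem_closedBall_zero_iff.1 hy) with h2 | h2
    · exfalso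
      have h3 := mem_ball_zero_iff.1 (h.vmD (mem_ball_zero_iff.2 h2))
      rw [← hxy, h.vmS h1] at h3
      exact lt_irrefl _ h3
    · exact h.inj_sphere h1 h2 hxy

/-- Carathéodory's theorem: if `w` is continuous and injective on the closed unit disc and maps
the open unit disc onto an open set, then there is a homeomorphism `v` of the closed disc such
that `w ∘ v` is holomorphic in the open disc. -/
theorem caratheodory {w : ℂ → ℂ} (wc : ContinuousOn w Ek) (wi : InjOn w Ek)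
    (wo : IsOpen (w '' Dk)) : ∃ v : ℂ → ℂ, ContinuousOn v Ek ∧ BijOn v Ek Ek ∧
      MapsTo v Dk Dk ∧ (∀ z, ‖z‖ = 1 → ‖v z‖ = 1) ∧ v 0 = 0 ∧
      DifferentiableOn ℂ (fun z => w (v z)) Dk ∧ deriv (fun z => w (v z)) 0 ≠ 0 := by
  obtain ⟨g, ψ, v₀, h, hd⟩ := exists_RM wc wi wo
  have heq : ∀ z ∈ Dk, w (vext v₀ z) = g z := fun z hz => by rw [h.v_eq hz, h.v0e z hz]
  refine ⟨vext v₀, h.vc, ⟨h.vmE, h.inj, h.v_surj⟩, h.vmD, fun z hz => h.vmS hz, ?_, ?_, ?_⟩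
  · rw [h.v_eq zero_mem_Dk, h.z0]
  · exact h.gd.congr heq
  · have : (fun z => w (vext v₀ z)) =ᶠ[𝓝 0] g := by
      filter_upwards [isOpen_ball.mem_nhds zero_mem_Dk] with z hz
      exact heq z hz
    rw [this.deriv_eq]
    exact hd

end Pool.Agent.V11210.SPH
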