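import Pool.Agent.V11210.SPH.Cone
import Pool.Agent.V11210.SPH.Car2

/-!
Homeomorphisms which map the closed disc into the open disc are standard, up to a homeomorphism
supported in the disc.
-/

set_option autoImplicit false

open Complex Set Filter Topology Function Metric
open scoped OnePoint ComplexConjugate

noncomputable section

namespace Pool.Agent.V11210.SPH

/-- The scaling by one half. -/
def half : S ≃ₜ S := ofC (Homeomorph.mulLeft₀ (2⁻¹ : ℂ) (by norm_num))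

theorem half_coe (z : ℂ) : half (z : S) = ((2⁻¹ * z : ℂ) : S) := rfl

theorem half_infty : half ∞ = ∞ := rfl

theorem half_inv_coe (z : ℂ) : half⁻¹ (z : S) = ((2 * z : ℂ) : S) := by
  rw [inv_eq_iff', half_coe]
  congr 1
  ring

theorem half_inv_infty : half⁻¹ ∞ = ∞ := rfl

/-- The complex conjugation. -/
def conjS : S ≃ₜ S := ofC conjLIE.toHomeomorph

theorem conjS_coe (z : ℂ) : conjS (z : S) = ((conj z : ℂ) : S) := rfl

theorem conjS_infty : conjS ∞ = ∞ := rfl

theorem conjS_conjS (x : S) : conjS (conjS x) = x := by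
  induction x using OnePoint.rec with
  | infty => rfl
  | coe z => rw [conjS_coe, conjS_coe, conj_conj]

/-- The extension of a homeomorphism of the disc to the plane. -/
def Vp (v : ℂ → ℂ) (z : ℂ) : ℂ := (max 1 ‖z‖ : ℝ) * v (z / (max 1 ‖z‖ : ℝ))

theorem Vp_of_le (v : ℂ → ℂ) {z : ℂ} (h : ‖z‖ ≤ 1) : Vp v z = v z := by
  rw [Vp, max_eq_left h, ofReal_one, one_mul, div_one]

theorem exp_mem (θ : ℝ) : ‖((Circle.exp θ : Circle) : ℂ)‖ = 1 := Circle.norm_coe _

theorem Vp_of_ge {v : ℂ → ℂ} {ν : ℝ → ℝ} (hV : ∀ θ : ℝ, v (Circle.exp θ) = Circle.exp (ν θ))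
    {z : ℂ} (h : 1 ≤ ‖z‖) : Vp v z = cone (fun _ => cm ν) z := by
  have hz : z ≠ 0 := norm_ne_zero_iff.1 (by linarith)
  rw [Vp, max_eq_right h, ← dirC_coe hz, cone, dirC, hV, cm,
    Circle.arg_exp (neg_pi_lt_arg z) (arg_le_pi z)]

theorem continuous_Vp {v : ℂ → ℂ} (vc : ContinuousOn v Ek) : Continuous (Vp v) := by
  have h1 : Continuous fun z : ℂ => v (z / (max 1 ‖z‖ : ℝ)) := by
    refine vc.comp_continuous ?_ fun z => ?_
    · refine continuous_id.div (by fun_prop) fun z => ofReal_ne_zero.2 ?_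
      have : 1 ≤ max 1 ‖z‖ := le_max_left _ _
      linarith
    · rw [mem_closedBall_zero_iff, norm_div, norm_real, Real.norm_eq_abs,
        abs_of_pos (by have : 1 ≤ max 1 ‖z‖ := le_max_left _ _; linarith)]
      exact div_le_one_of_le₀ (le_max_right _ _) (by have : 1 ≤ max 1 ‖z‖ := le_max_left _ _; linarith)
  have h2 : Continuous fun z : ℂ => ((max 1 ‖z‖ : ℝ) : ℂ) := by fun_prop
  exact h2.mul h1

section

variable {v : ℂ → ℂ} {ν : ℝ → ℝ} (vc : ContinuousOn v Ek) (vb : BijOn v Ek Ek)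
  (hν : IsLift ν) (hV : ∀ θ : ℝ, v (Circle.exp θ) = Circle.exp (ν θ))

include hV in
theorem norm_Vp {z : ℂ} (h : 1 ≤ ‖z‖) : ‖Vp v z‖ = ‖z‖ := by
  rw [Vp_of_ge hV h, norm_cone]

include vb in
theorem norm_Vp_le {z : ℂ} (h : ‖z‖ ≤ 1) : ‖Vp v z‖ ≤ 1 := by
  rw [Vp_of_le v h]
  exact mem_closedBall_zero_iff.1 (vb.mapsTo (mem_closedBall_zero_iff.2 h))

include vb hν hV in
theorem bijective_Vp : Bijective (Vp v) := by
  have hcone := bijective_cone (Θ := fun _ => cm ν) fun _ => hν.cm_bij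
  constructor
  · intro z y h
    rcases le_or_gt ‖z‖ 1 with hz | hz
    · rcases le_or_gt ‖y‖ 1 with hy | hy
      · rw [Vp_of_le v hz, Vp_of_le v hy] at h
        exact vb.injOn (mem_closedBall_zero_iff.2 hz) (mem_closedBall_zero_iff.2 hy) h
      · exfalso
        have h1 := norm_Vp_le vb hz
        rw [h, norm_Vp hV hy.le] at h1
        linarith
    · rcases le_or_gt ‖y‖ 1 with hy | hy
      · exfalso
        have h1 := norm_Vp_le vb hy
        rw [← h, norm_Vp hV hz.le] at h1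
        linarith
      · rw [Vp_of_ge hV hz.le, Vp_of_ge hV hy.le] at h
        exact hcone.1 h
  · intro y
    rcases le_or_gt ‖y‖ 1 with hy | hy
    · obtain ⟨z, hz, hzy⟩ := vb.surjOn (mem_closedBall_zero_iff.2 hy)
      exact ⟨z, by rw [Vp_of_le v (mem_closedBall_zero_iff.1 hz), hzy]⟩
    · obtain ⟨z, hz⟩ := hcone.2 y
      refine ⟨z, ?_⟩
      rw [Vp_of_ge hV, hz]
      rw [← norm_cone (fun _ => cm ν) z, hz]
      exact hy.le

theorem cone_half (Θ : Circle → Circle) (z : ℂ) :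
    cone (fun _ => Θ) (2⁻¹ * z) = 2⁻¹ * cone (fun _ => Θ) z := by
  have h1 : dirC (2⁻¹ * z) = dirC z := by
    rw [dirC, dirC]
    congr 1
    have : (2⁻¹ : ℂ) = ((2⁻¹ : ℝ) : ℂ) := by norm_num
    rw [this]
    exact arg_real_mul z (by norm_num)
  rw [cone, cone, h1, norm_mul]
  push_cast
  have : ((‖(2⁻¹ : ℂ)‖ : ℝ) : ℂ) = 2⁻¹ := by norm_num
  rw [this]
  ring

/-- The interpolation between the lift and the identity. -/
def itp (ν : ℝ → ℝ) (r θ : ℝ) : ℝ := (1 - clamp (2 * r - 1)) * ν θ + clamp (2 * r - 1) * θ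

include hν in
theorem itp_lift (r : ℝ) : IsLift (itp ν r) :=
  hν.interp (clamp_nonneg _) (clamp_le_one _)

include hν in
theorem continuous_itp : Continuous (uncurry (itp ν)) := by
  have h1 := continuous_clamp
  have h2 := hν.cont
  have : uncurry (itp ν) = fun p : ℝ × ℝ =>
      (1 - clamp (2 * p.1 - 1)) * ν p.2 + clamp (2 * p.1 - 1) * p.2 := rfl
  rw [this]
  fun_prop

theorem cone_itp_of_le {z : ℂ} (h : ‖z‖ ≤ 1 / 2) :
    cone (fun r => cm (itp ν r)) z = cone (fun _ => cm ν) z := by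
  have : itp ν ‖z‖ = ν := by
    funext θ
    rw [itp, clamp_of_nonpos (by linarith)]
    ring
  rw [cone, this, cone]

theorem cone_itp_of_ge {z : ℂ} (h : 1 ≤ ‖z‖) : cone (fun r => cm (itp ν r)) z = z := by
  have : itp ν ‖z‖ = id := by
    funext θ
    rw [itp, clamp_of_one_le (by linarith)]
    simp
  rw [cone, this, cm]
  simp only [id]
  rw [Circle.exp_arg, norm_mul_dirC]

include vc vb hν hV in
theorem claimX0 (w : S ≃ₜ S) (hw : ∀ x ∈ ES, w x ∈ DS)
    (hd : DifferentiableOn ℂ (fun z : ℂ => toC (w (v z : ℂ))) Dk)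
    (hd0 : deriv (fun z : ℂ => toC (w (v z : ℂ))) 0 ≠ 0) :
    ∃ h : S ≃ₜ S, (∀ x ∈ QS, h x = x) ∧ ∀ z : ℂ, ‖z‖ ≤ 1 → h (w z) = half z := by
  -- the extension of `v`
  let VS : S ≃ₜ S := mkS (Vp v) (continuous_Vp vc) (bijective_Vp vb hν hV)
    (tendsto_of_norm fun z hz => norm_Vp hV hz)
  have VS_coe : ∀ z : ℂ, VS (z : S) = ((Vp v z : ℂ) : S) := fun z => rfl
  have VS_infty : VS ∞ = ∞ := rfl
  let κ : S ≃ₜ S := coneS (fun _ => cm ν)
    (continuous_cm (ν := fun _ => ν) (hν.cont.comp continuous_snd) fun _ => hν) fun _ => hν.cm_bij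
  let κ' : S ≃ₜ S := coneS (fun r => cm (itp ν r))
    (continuous_cm (continuous_itp hν) (itp_lift hν)) fun r => (itp_lift hν r).cm_bij
  have κ_coe : ∀ z : ℂ, κ (z : S) = ((cone (fun _ => cm ν) z : ℂ) : S) := fun z => rfl
  have κ'_coe : ∀ z : ℂ, κ' (z : S) = ((cone (fun r => cm (itp ν r)) z : ℂ) : S) := fun z => rfl
  have κ_infty : κ ∞ = ∞ := rfl
  have κ'_infty : κ' ∞ = ∞ := rfl
  -- the germ
  set f : ℂ → ℂ := fun z => toC (w (v z : ℂ)) with hf
  have hv1 : ∀ z : ℂ, ‖z‖ ≤ 1 → ‖v z‖ ≤ 1 := fun z hz =>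
    mem_closedBall_zero_iff.1 (vb.mapsTo (mem_closedBall_zero_iff.2 hz))
  have hfn : ∀ z : ℂ, ‖z‖ ≤ 1 → ‖f z‖ < 1 := fun z hz =>
    norm_toC_DS (hw _ (coe_mem_ES.2 (hv1 z hz)))
  have hfe : ∀ z : ℂ, ‖z‖ ≤ 1 → ((f z : ℂ) : S) = w (VS z) := by
    intro z hz
    rw [VS_coe, Vp_of_le v hz]
    exact coe_toC_ES (DS_sub_ES (hw _ (coe_mem_ES.2 (hv1 z hz))))
  have hstrict : HasStrictDerivAt f (deriv f 0) 0 :=
    (hd.analyticAt (isOpen_ball.mem_nhds zero_mem_Dk)).hasStrictDerivAt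
  have hstrict2 : HasStrictDerivAt (fun z : ℂ => f (2 * z)) (deriv f 0 * 2) 0 := by
    have h1 : HasStrictDerivAt (fun z : ℂ => 2 * z) 2 0 := by
      simpa using (hasStrictDerivAt_id (0 : ℂ)).const_mul 2
    have h2 : HasStrictDerivAt f (deriv f 0) (2 * 0) := by rwa [mul_zero]
    exact h2.comp (0 : ℂ) h1
  obtain ⟨F0', hF1, hF2⟩ := exists_germ hstrict2 (mul_ne_zero hd0 two_ne_zero) (by
    simp only [mul_zero]
    exact hfn 0 (by simp))
  obtain ⟨ε, hε, hεF⟩ := Metric.mem_nhds_iff.1 hF2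
  let F0 : S ≃ₜ S := (ofC F0')⁻¹
  have hF0Q : ∀ x ∈ QS, F0 x = x := by
    intro x hx
    rw [inv_eq_iff']
    induction x using OnePoint.rec with
    | infty => rfl
    | coe z => rw [ofC_coe, hF1 z (coe_mem_QS.1 hx)]
  set ρ := min ε (1 / 2) with hρ
  have hρ0 : 0 < ρ := lt_min hε (by norm_num)
  have hρ1 : ρ < 1 := (min_le_right _ _).trans_lt (by norm_num)
  have hρε : ρ ≤ ε := min_le_left _ _
  have hF0 : ∀ y : ℂ, ‖y‖ ≤ ρ → F0 (w (VS y)) = half y := by
    intro y hy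
    rw [inv_eq_iff', ← hfe y (by linarith), half_coe, ofC_coe]
    have h1 : 2⁻¹ * y ∈ ball (0 : ℂ) ε := by
      rw [mem_ball_zero_iff, norm_mul]
      have : ‖(2⁻¹ : ℂ)‖ = 2⁻¹ := by norm_num
      rw [this]
      linarith [norm_nonneg y]
    have h2 : F0' (2⁻¹ * y) = f (2 * (2⁻¹ * y)) := hεF h1
    rw [h2]
    congr 2
    ring
  -- the enlarged disc
  let fp : S ≃ₜ S := w * VS
  have hfp : ∀ x, fp x = w (VS x) := fun x => rfl
  obtain ⟨R, hR1, hR2, hR⟩ : ∃ R : ℝ, 1 < R ∧ R ≤ 2 ∧ ∀ z : ℂ, ‖z‖ ≤ R → fp z ∈ DS := by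
    have hU : IsOpen {z : ℂ | fp (z : S) ∈ DS} :=
      isOpen_DS.preimage (fp.continuous.comp OnePoint.continuous_coe)
    have hEU : Ek ⊆ {z : ℂ | fp (z : S) ∈ DS} := by
      intro z hz
      have hz' := mem_closedBall_zero_iff.1 hz
      rw [mem_ofPred_eq, hfp, VS_coe, Vp_of_le v hz']
      exact hw _ (coe_mem_ES.2 (hv1 z hz'))
    obtain ⟨δ, hδ, hsub⟩ := (isCompact_closedBall (0 : ℂ) 1).exists_cthickening_subset_open hU hEU
    rw [cthickening_closedBall hδ.le zero_le_one (0 : ℂ)] at hsub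
    refine ⟨1 + min δ 1, by linarith [lt_min hδ one_pos], by linarith [min_le_right δ 1],
      fun z hz => hsub (mem_closedBall_zero_iff.2 (hz.trans ?_))⟩
    linarith [min_le_left δ 1]
  obtain ⟨e, e0, e1, e2⟩ := exists_shrink hρ0 hρ1 hR1
  let θ : S ≃ₜ S := ofC (radHomeo e e0)
  have hθ1 : ∀ z : ℂ, ‖z‖ ≤ 1 → ∃ y : ℂ, ‖y‖ ≤ ρ ∧ θ (z : S) = (y : S) := by
    intro z hz
    refine ⟨radHomeo e e0 z, ?_, rfl⟩
    rw [norm_radHomeo, e1 _ (norm_nonneg z) hz, div_one]
    nlinarith [norm_nonneg z]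
  have hθ2 : ∀ z : ℂ, R ≤ ‖z‖ → θ (z : S) = (z : S) := by
    intro z hz
    change ((rad e z : ℂ) : S) = z
    rw [rad_of_eq (e2 _ hz)]
  have hθ3 : θ ∞ = ∞ := rfl
  let F1 : S ≃ₜ S := (half * θ * half⁻¹)⁻¹ * F0 * (fp * θ * fp⁻¹)
  have hF1a : ∀ x, F1 x = half (θ⁻¹ (half⁻¹ (F0 (fp (θ (fp⁻¹ x)))))) := by
    intro x
    have : F1 = half * θ⁻¹ * half⁻¹ * F0 * fp * θ * fp⁻¹ := by
      simp only [F1]
      group
    rw [this]
    rfl
  have hF1b : ∀ z : ℂ, ‖z‖ ≤ 1 → F1 (fp z) = half z := by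
    intro z hz
    obtain ⟨y, hy, hy'⟩ := hθ1 z hz
    rw [hF1a, inv_apply_self', hy', hfp, hF0 y hy, inv_apply_self', ← hy', inv_apply_self']
  have hF1c : ∀ x ∈ QS, F1 x = x := by
    intro x hx
    have h1 : θ (fp⁻¹ x) = fp⁻¹ x := by
      have h2 : fp (fp⁻¹ x) = x := apply_inv_self' fp x
      generalize fp⁻¹ x = y at h2
      induction y using OnePoint.rec with
      | infty => exact hθ3
      | coe y =>
        refine hθ2 y (not_lt.1 fun h3 => ?_)
        have h4 := hR y h3.le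
        rw [h2] at h4
        exact hx h4
    have h3 : θ⁻¹ (half⁻¹ x) = half⁻¹ x := by
      rw [inv_eq_iff']
      induction x using OnePoint.rec with
      | infty => rfl
      | coe z =>
        rw [half_inv_coe, hθ2]
        rw [norm_mul]
        have := coe_mem_QS.1 hx
        have h4 : ‖(2 : ℂ)‖ = 2 := by norm_num
        rw [h4]
        linarith
    rw [hF1a, h1, apply_inv_self', hF0Q x hx, h3, apply_inv_self']
  -- the second map
  let V' : S ≃ₜ S := κ' * (half * (κ⁻¹ * VS) * half⁻¹)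
  have hV' : ∀ x, V' x = κ' (half (κ⁻¹ (VS (half⁻¹ x)))) := fun x => rfl
  have hV'a : ∀ z : ℂ, ‖z‖ ≤ 1 → V' (half z) = half (VS z) := by
    intro z hz
    have hn : ‖v z‖ ≤ 1 := hv1 z hz
    obtain ⟨t, ht⟩ := (bijective_cone (Θ := fun _ => cm ν) fun _ => hν.cm_bij).2 (v z)
    have ht1 : ‖t‖ ≤ 1 := by rwa [← norm_cone (fun _ => cm ν) t, ht]
    have h1 : κ⁻¹ (VS z) = (t : S) := by
      rw [inv_eq_iff', κ_coe, ht, VS_coe, Vp_of_le v hz]
    rw [hV', inv_apply_self', h1, half_coe, κ'_coe, cone_itp_of_le, cone_half, ht, VS_coe,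
      Vp_of_le v hz, half_coe]
    rw [norm_mul]
    have : ‖(2⁻¹ : ℂ)‖ = 2⁻¹ := by norm_num
    rw [this]
    linarith
  have hV'b : ∀ x ∈ QS, V' x = x := by
    intro x hx
    have h1 : κ⁻¹ (VS (half⁻¹ x)) = half⁻¹ x := by
      rw [inv_eq_iff']
      induction x using OnePoint.rec with
      | infty => rfl
      | coe z =>
        have := coe_mem_QS.1 hx
        rw [half_inv_coe, VS_coe, κ_coe, Vp_of_ge hV]
        rw [norm_mul]
        have h4 : ‖(2 : ℂ)‖ = 2 := by norm_num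
        rw [h4]
        linarith
    rw [hV', h1, apply_inv_self']
    induction x using OnePoint.rec with
    | infty => rfl
    | coe z => rw [κ'_coe, cone_itp_of_ge (coe_mem_QS.1 hx)]
  refine ⟨V' * F1, fun x hx => ?_, fun z hz => ?_⟩
  · rw [mul_apply', hF1c x hx, hV'b x hx]
  · obtain ⟨y, hy, hyz⟩ := vb.surjOn (mem_closedBall_zero_iff.2 hz)
    have hy' := mem_closedBall_zero_iff.1 hy
    have h1 : w (z : S) = fp (y : S) := by
      rw [hfp, VS_coe, Vp_of_le v hy', hyz]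
    rw [mul_apply', h1, hF1b y hy', hV'a y hy', VS_coe, Vp_of_le v hy', hyz]

end

/-- A homeomorphism which maps the closed disc into the open disc can be composed with a
homeomorphism supported in the disc so as to become the scaling by one half, possibly
precomposed with the complex conjugation. -/
theorem claimX (w : S ≃ₜ S) (hw : ∀ x ∈ ES, w x ∈ DS) :
    ∃ h : S ≃ₜ S, (∀ x ∈ QS, h x = x) ∧
      ((∀ x ∈ ES, h (w x) = half x) ∨ (∀ x ∈ ES, h (w x) = half (conjS x))) := by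
  let w₁ : ℂ → ℂ := fun z => toC (w z)
  have hne : ∀ z : ℂ, z ∈ Ek → w (z : S) ≠ ∞ := fun z hz =>
    ne_infty_of_mem_ES (DS_sub_ES (hw _ (coe_mem_ES.2 (mem_closedBall_zero_iff.1 hz))))
  have wc : ContinuousOn w₁ Ek := by
    intro z hz
    refine ContinuousAt.continuousWithinAt ?_
    exact (continuousAt_toC (hne z hz)).comp
      (f := fun z : ℂ => w (z : S)) (w.continuous.comp OnePoint.continuous_coe).continuousAt
  have wi : InjOn w₁ Ek := by
    intro z hz y hy h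
    have h1 : w (z : S) = w (y : S) := by
      rw [← coe_toC (hne z hz), ← coe_toC (hne y hy)]
      exact congrArg _ h
    exact OnePoint.coe_injective (w.injective h1)
  have wo : IsOpen (w₁ '' Dk) := by
    have h1 : w₁ '' Dk = ((↑) : ℂ → S) ⁻¹' (w '' DS) := by
      ext y
      constructor
      · rintro ⟨z, hz, rfl⟩
        refine ⟨z, mem_image_of_mem _ hz, ?_⟩
        exact (coe_toC (hne z (Dk_sub_Ek hz))).symm
      · rintro ⟨_, ⟨z, hz, rfl⟩, hy⟩
        refine ⟨z, hz, ?_⟩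
        change toC (w z) = y
        rw [hy]
        rfl
    rw [h1]
    exact (w.isOpenMap _ isOpen_DS).preimage OnePoint.continuous_coe
  obtain ⟨v, vc, vb, -, vS, -, vd, vd0⟩ := caratheodory wc wi wo
  -- the circle map
  let V : Circle → Circle := fun u => ⟨v u, mem_sphere_zero_iff_norm.2 (vS u (Circle.norm_coe u))⟩
  have hVc : Continuous V := by
    refine Continuous.subtype_mk ?_ _
    exact vc.comp_continuous (by fun_prop) fun u => mem_closedBall_zero_iff.2 (Circle.norm_coe u).le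
  have hVi : Injective V := by
    intro u u' h
    refine Circle.ext (vb.injOn (mem_closedBall_zero_iff.2 (Circle.norm_coe u).le)
      (mem_closedBall_zero_iff.2 (Circle.norm_coe u').le) ?_)
    exact congrArg Subtype.val h
  obtain ⟨ν, hνV, hν⟩ := exists_lift hVc hVi
  have hV : ∀ θ : ℝ, v (Circle.exp θ) = Circle.exp (ν θ) := fun θ => congrArg Subtype.val (hνV θ)
  rcases hν with hν | hν
  · obtain ⟨h, h1, h2⟩ := claimX0 vc vb hν hV w hw vd vd0
    refine ⟨h, h1, Or.inl fun x hx => ?_⟩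
    obtain ⟨z, hz, rfl⟩ := hx
    exact h2 z (mem_closedBall_zero_iff.1 hz)
  · have hcE : ∀ x ∈ ES, conjS x ∈ ES := by
      rintro _ ⟨z, hz, rfl⟩
      rw [conjS_coe, coe_mem_ES, norm_conj]
      exact mem_closedBall_zero_iff.1 hz
    have vc' : ContinuousOn (fun z => conj (v z)) Ek := continuous_conj.comp_continuousOn vc
    have vb' : BijOn (fun z => conj (v z)) Ek Ek := by
      have hconj : BijOn (fun z : ℂ => conj z) Ek Ek := by
        refine ⟨fun z hz => ?_, fun z _ y _ h => ?_, fun z hz => ⟨conj z, ?_, conj_conj z⟩⟩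
        · rw [mem_closedBall_zero_iff, norm_conj]
          exact mem_closedBall_zero_iff.1 hz
        · exact (starRingEnd ℂ).injective h
        · rw [mem_closedBall_zero_iff, norm_conj]
          exact mem_closedBall_zero_iff.1 hz
      exact hconj.comp vb
    have hV' : ∀ θ : ℝ, conj (v (Circle.exp θ)) = Circle.exp (-ν θ) := by
      intro θ
      rw [hV, Circle.coe_exp, Circle.coe_exp, ← exp_conj]
      simp
    have hw' : ∀ z : ℂ, (w * conjS) ((conj (v z) : ℂ) : S) = w (v z : ℂ) := by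
      intro z
      rw [mul_apply', conjS_coe, conj_conj]
    obtain ⟨h, h1, h2⟩ := claimX0 vc' vb' hν hV' (w * conjS) (fun x hx => hw _ (hcE x hx))
      (by simp only [hw']; exact vd) (by simp only [hw']; exact vd0)
    refine ⟨h, h1, Or.inr fun x hx => ?_⟩
    obtain ⟨z, hz, rfl⟩ := hx
    have h3 := h2 (conj z) (by rw [norm_conj]; exact mem_closedBall_zero_iff.1 hz)
    rw [mul_apply', conjS_coe, conj_conj] at h3
    rw [conjS_coe]
    exact h3

end Pool.Agent.V11210.SPH
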