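import Pool.Agent.V11210.SPH.Germ

/-!
Homeomorphisms of the circle, their lifts, and cones over them.
-/

set_option autoImplicit false

open Complex Set Filter Topology Function Metric
open scoped OnePoint ComplexConjugate

noncomputable section

namespace Pool.Agent.V11210.SPH

/-- A lift of an orientation preserving homeomorphism of the circle. -/
structure IsLift (ν : ℝ → ℝ) : Prop where
  cont : Continuous ν
  mono : StrictMono ν
  per : ∀ θ, ν (θ + 2 * Real.pi) = ν θ + 2 * Real.pi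

theorem IsLift.per_int {ν : ℝ → ℝ} (h : IsLift ν) (θ : ℝ) (m : ℤ) :
    ν (θ + m * (2 * Real.pi)) = ν θ + m * (2 * Real.pi) := by
  have h1 : Periodic (fun θ => ν θ - θ) (2 * Real.pi) := fun θ => by
    simp only [h.per]
    ring
  have h2 : ν (θ + m * (2 * Real.pi)) - (θ + m * (2 * Real.pi)) = ν θ - θ := h1.int_mul m θ
  linarith

theorem IsLift.surj {ν : ℝ → ℝ} (h : IsLift ν) : Surjective ν := by
  intro y
  have hpi := Real.pi_pos
  refine mem_range_of_exists_le_of_exists_ge h.cont ?_ ?_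
  · obtain ⟨n, hn⟩ := exists_int_lt ((y - ν 0) / (2 * Real.pi))
    refine ⟨0 + n * (2 * Real.pi), ?_⟩
    rw [h.per_int]
    rw [lt_div_iff₀ (by positivity)] at hn
    linarith
  · obtain ⟨n, hn⟩ := exists_int_gt ((y - ν 0) / (2 * Real.pi))
    refine ⟨0 + n * (2 * Real.pi), ?_⟩
    rw [h.per_int]
    rw [div_lt_iff₀ (by positivity)] at hn
    linarith

theorem IsLift.interp {ν : ℝ → ℝ} (h : IsLift ν) {s : ℝ} (h0 : 0 ≤ s) (h1 : s ≤ 1) :
    IsLift (fun θ => (1 - s) * ν θ + s * θ) := by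
  have hc := h.cont
  refine ⟨by fun_prop, fun x y hxy => ?_, fun θ => ?_⟩
  · have h2 := h.mono hxy
    change (1 - s) * ν x + s * x < (1 - s) * ν y + s * y
    rcases eq_or_lt_of_le h0 with h3 | h3
    · rw [← h3]
      linarith
    · have h4 : (1 - s) * ν x ≤ (1 - s) * ν y := mul_le_mul_of_nonneg_left h2.le (by linarith)
      have h5 : s * x < s * y := mul_lt_mul_of_pos_left hxy h3
      linarith
  · simp only [h.per]
    ring

/-- The circle map with a given lift. -/
def cm (ν : ℝ → ℝ) (u : Circle) : Circle := Circle.exp (ν (arg u))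

theorem exists_arg_exp (θ : ℝ) : ∃ m : ℤ, arg (Circle.exp θ) = θ + m * (2 * Real.pi) :=
  Circle.exp_eq_exp.1 (Circle.exp_arg _)

theorem IsLift.cm_exp {ν : ℝ → ℝ} (h : IsLift ν) (θ : ℝ) :
    cm ν (Circle.exp θ) = Circle.exp (ν θ) := by
  obtain ⟨m, hm⟩ := exists_arg_exp θ
  rw [cm, hm, h.per_int, Circle.exp_eq_exp]
  exact ⟨m, rfl⟩

theorem IsLift.cm_bij {ν : ℝ → ℝ} (h : IsLift ν) : Bijective (cm ν) := by
  constructor
  · intro u u' he
    rw [cm, cm, Circle.exp_eq_exp] at he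
    obtain ⟨m, hm⟩ := he
    rw [← h.per_int] at hm
    have h1 := h.mono.injective hm
    rw [← Circle.exp_arg u, ← Circle.exp_arg u', Circle.exp_eq_exp]
    exact ⟨m, h1⟩
  · intro u
    obtain ⟨θ, hθ⟩ := h.surj (arg u)
    refine ⟨Circle.exp θ, ?_⟩
    rw [h.cm_exp, hθ, Circle.exp_arg]

theorem isQuotientMap_exp : IsQuotientMap (Prod.map id Circle.exp : ℝ × ℝ → ℝ × Circle) := by
  have h1 : IsOpenMap (Circle.exp : ℝ → Circle) := isLocalHomeomorph_circleExp.isOpenMap
  have h2 : Surjective (Circle.exp : ℝ → Circle) := fun u => ⟨arg u, Circle.exp_arg u⟩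
  exact (IsOpenMap.id.prodMap h1).isQuotientMap
    (continuous_id.prodMap Circle.exp.continuous) (surjective_id.prodMap h2)

/-- Joint continuity of a family of circle maps. -/
theorem continuous_cm {ν : ℝ → ℝ → ℝ} (hν : Continuous (uncurry ν)) (h : ∀ r, IsLift (ν r)) :
    Continuous (fun p : ℝ × Circle => cm (ν p.1) p.2) := by
  rw [isQuotientMap_exp.continuous_iff]
  have h1 : (fun p : ℝ × Circle => cm (ν p.1) p.2) ∘ (Prod.map id Circle.exp : ℝ × ℝ → ℝ × Circle) =
      fun p => Circle.exp (uncurry ν p) := by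
    funext p
    exact (h p.1).cm_exp p.2
  rw [h1]
  exact Circle.exp.continuous.comp hν

/-! ### Existence of lifts -/

theorem exists_lift0 {V : Circle → Circle} (hc : Continuous V) :
    ∃ ν : ℝ → ℝ, Continuous ν ∧ ∀ θ, V (Circle.exp θ) = Circle.exp (ν θ) := by
  let f : C(ℝ, Circle) := ⟨fun θ => V (Circle.exp θ), hc.comp Circle.exp.continuous⟩
  obtain ⟨F, ⟨-, h2⟩, -⟩ := Circle.isCoveringMap_exp.existsUnique_continuousMap_lifts f 0
    (arg (f 0)) (Circle.exp_arg _)
  exact ⟨F, F.continuous, fun θ => (congrFun h2 θ).symm⟩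

theorem exists_lift {V : Circle → Circle} (hc : Continuous V) (hi : Injective V) :
    ∃ ν : ℝ → ℝ, (∀ θ, V (Circle.exp θ) = Circle.exp (ν θ)) ∧
      (IsLift ν ∨ IsLift (fun θ => - ν θ)) := by
  obtain ⟨ν, hν, hV⟩ := exists_lift0 hc
  have hpi := Real.pi_pos
  refine ⟨ν, hV, ?_⟩
  -- local injectivity
  have hloc : ∀ a b, |a - b| < 2 * Real.pi → (∃ m : ℤ, ν a = ν b + m * (2 * Real.pi)) → a = b := by
    intro a b hab hm
    have h1 : V (Circle.exp a) = V (Circle.exp b) := by
      rw [hV, hV, Circle.exp_eq_exp]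
      exact hm
    obtain ⟨m, hm⟩ := Circle.exp_eq_exp.1 (hi h1)
    have h2 : |(m : ℝ)| * (2 * Real.pi) < 2 * Real.pi := by
      rw [← abs_of_pos (show 0 < 2 * Real.pi by positivity), ← abs_mul,
        abs_of_pos (show 0 < 2 * Real.pi by positivity)]
      have : a - b = m * (2 * Real.pi) := by rw [hm]; ring
      rwa [← this]
    have h3 : |(m : ℝ)| < 1 := by
      have h4 : 0 < 2 * Real.pi := by positivity
      by_contra hcon
      have := mul_le_mul_of_nonneg_right (not_lt.1 hcon) h4.le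
      linarith
    have h4 : m = 0 := by
      have : |m| < 1 := by exact_mod_cast h3
      exact Int.abs_lt_one_iff.1 this
    rw [hm, h4]
    simp
  have hinj : ∀ a, InjOn ν (Icc a (a + Real.pi)) := by
    intro a x hx y hy hxy
    refine hloc x y ?_ ⟨0, by rw [hxy]; simp⟩
    rw [abs_lt]
    constructor <;> linarith [hx.1, hx.2, hy.1, hy.2]
  have hmon : ∀ a, StrictMonoOn ν (Icc a (a + Real.pi)) ∨ StrictAntiOn ν (Icc a (a + Real.pi)) :=
    fun a => ContinuousOn.strictMonoOn_of_injOn_Icc' (by linarith) hν.continuousOn (hinj a)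
  have hA : IsOpen {a | ν a < ν (a + Real.pi)} := isOpen_lt (by fun_prop) (by fun_prop)
  have hB : IsOpen {a | ν (a + Real.pi) < ν a} := isOpen_lt (by fun_prop) (by fun_prop)
  have hl : ∀ a : ℝ, a ∈ Icc a (a + Real.pi) := fun a => ⟨le_rfl, by linarith⟩
  have hr : ∀ a : ℝ, a + Real.pi ∈ Icc a (a + Real.pi) := fun a => ⟨by linarith, le_rfl⟩
  have hcov : (univ : Set ℝ) ⊆ {a | ν a < ν (a + Real.pi)} ∪ {a | ν (a + Real.pi) < ν a} := by
    intro a _
    rcases hmon a with h | h
    · exact Or.inl (h (hl a) (hr a) (by linarith))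
    · exact Or.inr (h (hl a) (hr a) (by linarith))
  have hor := isPreconnected_univ.subset_or_subset hA hB (by
    rw [Set.disjoint_left]
    intro a h1 h2
    have h1' : ν a < ν (a + Real.pi) := h1
    have h2' : ν (a + Real.pi) < ν a := h2
    exact lt_asymm h1' h2') hcov
  -- global monotonicity
  have hglob : ∀ f : ℝ → ℝ, (∀ a, StrictMonoOn f (Icc a (a + Real.pi))) → StrictMono f := by
    intro f hf
    have key : ∀ n : ℕ, ∀ x y, x < y → y - x ≤ n * Real.pi → f x < f y := by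
      intro n
      induction n with
      | zero =>
        intro x y hxy h
        simp at h
        linarith
      | succ n ih =>
        intro x y hxy h
        by_cases h1 : y ≤ x + Real.pi
        · exact hf x ⟨le_rfl, by linarith⟩ ⟨hxy.le, h1⟩ hxy
        · have h2 : f x < f (x + Real.pi) := hf x (hl x) (hr x) (by linarith)
          refine h2.trans (ih _ _ (not_le.1 h1) ?_)
          push_cast at h
          linarith
    intro x y hxy
    obtain ⟨n, hn⟩ := exists_nat_gt ((y - x) / Real.pi)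
    refine key n x y hxy ?_
    rw [div_lt_iff₀ hpi] at hn
    exact hn.le
  -- the period
  have hperiod : ∀ f : ℝ → ℝ, Continuous f → StrictMono f →
      (∀ θ, ∃ m : ℤ, f (θ + 2 * Real.pi) = f θ + m * (2 * Real.pi)) →
      (∀ a b, |a - b| < 2 * Real.pi → (∃ m : ℤ, f a = f b + m * (2 * Real.pi)) → a = b) →
      ∀ θ, f (θ + 2 * Real.pi) = f θ + 2 * Real.pi := by
    intro f hf hfm hper hfl θ
    obtain ⟨m, hm⟩ := hper θ
    have h1 : f θ < f (θ + 2 * Real.pi) := hfm (by linarith)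
    have h2 : 0 < m := by
      rw [hm] at h1
      have : 0 < (m : ℝ) * (2 * Real.pi) := by linarith
      have := (pos_iff_pos_of_mul_pos this).2 (by positivity)
      exact_mod_cast this
    have h3 : (1 : ℝ) ≤ m := by exact_mod_cast h2
    have h4 : f θ + 2 * Real.pi ∈ Icc (f θ) (f (θ + 2 * Real.pi)) := by
      refine ⟨by linarith, ?_⟩
      rw [hm]
      nlinarith
    obtain ⟨θ', hθ', he⟩ := intermediate_value_Icc (by linarith) hf.continuousOn h4
    have h5 : θ' ≠ θ := by
      rintro rfl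
      linarith
    have h6 : θ' = θ + 2 * Real.pi := by
      by_contra hne
      refine h5 (hfl θ' θ ?_ ⟨1, by rw [he]; simp⟩)
      have h7 : θ' < θ + 2 * Real.pi := lt_of_le_of_ne hθ'.2 hne
      rw [abs_lt]
      constructor <;> linarith [hθ'.1]
    rw [← h6, he]
  have hper : ∀ θ, ∃ m : ℤ, ν (θ + 2 * Real.pi) = ν θ + m * (2 * Real.pi) := by
    intro θ
    rw [← Circle.exp_eq_exp, ← hV, ← hV, Circle.exp_add_two_pi]
  rcases hor with h | h
  · left
    have hm : ∀ a, StrictMonoOn ν (Icc a (a + Real.pi)) := by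
      intro a
      rcases hmon a with h1 | h1
      · exact h1
      · exfalso
        have h2 : ν a < ν (a + Real.pi) := h (mem_univ a)
        exact lt_asymm h2 (h1 (hl a) (hr a) (by linarith))
    exact ⟨hν, hglob ν hm, hperiod ν hν (hglob ν hm) hper hloc⟩
  · right
    have hm : ∀ a, StrictMonoOn (fun θ => - ν θ) (Icc a (a + Real.pi)) := by
      intro a
      rcases hmon a with h1 | h1
      · exfalso
        have h2 : ν (a + Real.pi) < ν a := h (mem_univ a)
        exact lt_asymm h2 (h1 (hl a) (hr a) (by linarith))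
      · exact fun x hx y hy hxy => neg_lt_neg (h1 hx hy hxy)
    have hν' : Continuous (fun θ => - ν θ) := by fun_prop
    refine ⟨hν', hglob _ hm, hperiod (fun θ => - ν θ) hν' (hglob _ hm) (fun θ => ?_)
      (fun a b hab => ?_)⟩
    · obtain ⟨m, hm⟩ := hper θ
      refine ⟨-m, ?_⟩
      simp only [hm]
      push_cast
      ring
    · rintro ⟨m, hm⟩
      refine hloc a b hab ⟨-m, ?_⟩
      push_cast
      linarith

/-! ### Cones -/

/-- The direction of a complex number. -/
def dirC (z : ℂ) : Circle := Circle.exp (arg z)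

theorem norm_mul_dirC (z : ℂ) : ((‖z‖ : ℝ) : ℂ) * dirC z = z := norm_mul_exp_arg_mul_I z

theorem dirC_coe {z : ℂ} (h : z ≠ 0) : (dirC z : ℂ) = z / ((‖z‖ : ℝ) : ℂ) := by
  have h1 := norm_mul_dirC z
  have : ((‖z‖ : ℝ) : ℂ) ≠ 0 := ofReal_ne_zero.2 (norm_ne_zero_iff.2 h)
  rw [eq_div_iff this, mul_comm]
  exact h1

theorem dirC_mul {r : ℝ} (hr : 0 < r) (u : Circle) : dirC (r * u) = u := by
  have h0 : (r : ℂ) * u ≠ 0 := mul_ne_zero (ofReal_ne_zero.2 hr.ne') (Circle.coe_ne_zero u)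
  refine Circle.ext ?_
  rw [dirC_coe h0, norm_mul, norm_real, Real.norm_eq_abs, abs_of_pos hr, Circle.norm_coe, mul_one]
  have : (r : ℂ) ≠ 0 := ofReal_ne_zero.2 hr.ne'
  field_simp

theorem continuousAt_dirC {z : ℂ} (h : z ≠ 0) : ContinuousAt dirC z := by
  have hind : Topology.IsInducing (fun u : Circle => (u : ℂ)) := ⟨rfl⟩
  refine hind.continuousAt_iff.2 ?_
  have h1 : ContinuousAt (fun z : ℂ => z / ((‖z‖ : ℝ) : ℂ)) z :=
    continuousAt_id.div (by fun_prop) (ofReal_ne_zero.2 (norm_ne_zero_iff.2 h))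
  refine h1.congr ?_
  filter_upwards [isOpen_ne.mem_nhds h] with y hy
  exact (dirC_coe hy).symm

/-- The cone over a family of circle maps. -/
def cone (Θ : ℝ → Circle → Circle) (z : ℂ) : ℂ := ((‖z‖ : ℝ) : ℂ) * Θ ‖z‖ (dirC z)

theorem norm_cone (Θ : ℝ → Circle → Circle) (z : ℂ) : ‖cone Θ z‖ = ‖z‖ := by
  rw [cone, norm_mul, norm_real, norm_norm, Circle.norm_coe, mul_one]

theorem continuous_cone {Θ : ℝ → Circle → Circle}
    (hΘ : Continuous (fun p : ℝ × Circle => Θ p.1 p.2)) : Continuous (cone Θ) := by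
  rw [continuous_iff_continuousAt]
  intro z
  by_cases hz : z = 0
  · subst hz
    have h1 : cone Θ 0 = 0 := by simp [cone]
    rw [ContinuousAt, h1, tendsto_zero_iff_norm_tendsto_zero]
    simp only [norm_cone]
    exact tendsto_norm_zero
  · have h1 : ContinuousAt (fun z : ℂ => Θ ‖z‖ (dirC z)) z :=
      hΘ.continuousAt.comp (f := fun z : ℂ => (‖z‖, dirC z))
        (continuous_norm.continuousAt.prodMk (continuousAt_dirC hz))
    have h2 : ContinuousAt (fun z : ℂ => ((Θ ‖z‖ (dirC z) : Circle) : ℂ)) z :=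
      continuous_subtype_val.continuousAt.comp h1
    exact (by fun_prop : ContinuousAt (fun z : ℂ => ((‖z‖ : ℝ) : ℂ)) z).mul h2

theorem cone_mul (Θ : ℝ → Circle → Circle) {r : ℝ} (hr : 0 < r) (u : Circle) :
    cone Θ (r * u) = r * Θ r u := by
  have h1 : ‖(r : ℂ) * u‖ = r := by
    rw [norm_mul, norm_real, Real.norm_eq_abs, abs_of_pos hr, Circle.norm_coe, mul_one]
  rw [cone, h1, dirC_mul hr]

theorem bijective_cone {Θ : ℝ → Circle → Circle} (hΘ : ∀ r, Bijective (Θ r)) :
    Bijective (cone Θ) := by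
  constructor
  · intro z y h
    have hn : ‖z‖ = ‖y‖ := by rw [← norm_cone Θ z, h, norm_cone]
    by_cases hz : z = 0
    · rw [hz, norm_zero] at hn
      rw [hz, norm_eq_zero.1 hn.symm]
    · rw [cone, cone, ← hn] at h
      have h1 : ((‖z‖ : ℝ) : ℂ) ≠ 0 := ofReal_ne_zero.2 (norm_ne_zero_iff.2 hz)
      have h2 := (hΘ _).1 (Circle.ext (mul_left_cancel₀ h1 h))
      rw [← norm_mul_dirC z, ← norm_mul_dirC y, h2, hn]
  · intro y
    by_cases hy : y = 0
    · exact ⟨0, by simp [cone, hy]⟩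
    · obtain ⟨u, hu⟩ := (hΘ ‖y‖).2 (dirC y)
      refine ⟨((‖y‖ : ℝ) : ℂ) * u, ?_⟩
      rw [cone_mul Θ (norm_pos_iff.2 hy), hu, norm_mul_dirC]

theorem tendsto_of_norm {φ : ℂ → ℂ} (h : ∀ z, 1 ≤ ‖z‖ → ‖φ z‖ = ‖z‖) :
    Tendsto φ (cocompact ℂ) (cocompact ℂ) := by
  rw [← cobounded_eq_cocompact, ← tendsto_norm_atTop_iff_cobounded]
  refine (tendsto_norm_cobounded_atTop (E := ℂ)).congr' ?_
  filter_upwards [(tendsto_norm_cobounded_atTop (E := ℂ)).eventually_ge_atTop 1] with z hz
  exact (h z hz).symm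

/-- The cone as a homeomorphism of the sphere. -/
def coneS (Θ : ℝ → Circle → Circle) (hc : Continuous (fun p : ℝ × Circle => Θ p.1 p.2))
    (hb : ∀ r, Bijective (Θ r)) : S ≃ₜ S :=
  mkS (cone Θ) (continuous_cone hc) (bijective_cone hb)
    (tendsto_of_norm fun z _ => norm_cone Θ z)

@[simp] theorem coneS_coe (Θ : ℝ → Circle → Circle)
    (hc : Continuous (fun p : ℝ × Circle => Θ p.1 p.2)) (hb : ∀ r, Bijective (Θ r)) (z : ℂ) :
    coneS Θ hc hb (z : S) = ((cone Θ z : ℂ) : S) := rfl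

@[simp] theorem coneS_infty (Θ : ℝ → Circle → Circle)
    (hc : Continuous (fun p : ℝ × Circle => Θ p.1 p.2)) (hb : ∀ r, Bijective (Θ r)) :
    coneS Θ hc hb ∞ = ∞ := rfl

end Pool.Agent.V11210.SPH
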