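import Pool.Agent.V11210.SPH.Contr
import Pool.Agent.V11210.SPH.ClaimX

/-!
Homeomorphisms with north-south dynamics are conjugate to a standard one.
-/

set_option autoImplicit false

open Complex Set Filter Topology Function Metric
open scoped OnePoint ComplexConjugate

noncomputable section

namespace Pool.Agent.V11210.SPH

theorem Attr.congr {T T₂ : S ≃ₜ S} {X X' : Set S} {q : S} (h : Attr T X X' q) (hX : X' ⊆ X)
    (he : ∀ x ∈ X, T x = T₂ x) : Attr T₂ X X' q := by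
  have hiter : ∀ n : ℕ, ∀ x ∈ X, (T ^ n) x ∈ X ∧ (T ^ n) x = (T₂ ^ n) x := by
    intro n x hx
    induction n with
    | zero => exact ⟨hx, rfl⟩
    | succ n ih =>
      rw [pow_succ', pow_succ', mul_apply', mul_apply', ← ih.2]
      exact ⟨hX (h.maps _ ih.1), he _ ih.1⟩
  refine ⟨h.mem, ?_, fun x hx => he x hx ▸ h.maps x hx, fun U hU => ?_⟩
  · rw [← he q (hX h.mem), h.fix]
  · obtain ⟨n, hn⟩ := h.shr U hU
    exact ⟨n, fun x hx => (hiter n x hx).2 ▸ hn x hx⟩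

theorem conj_pow' (H T : S ≃ₜ S) (n : ℕ) : (H * T * H⁻¹) ^ n = H * T ^ n * H⁻¹ := conj_pow

theorem Attr.conj {T : S ≃ₜ S} {X X' Y Y' : Set S} {q : S} (h : Attr T X X' q) (H : S ≃ₜ S)
    (hY : ∀ y ∈ Y, H⁻¹ y ∈ X) (hY' : ∀ x ∈ X', H x ∈ Y') : Attr (H * T * H⁻¹) Y Y' (H q) := by
  refine ⟨hY' _ h.mem, ?_, fun y hy => hY' _ (h.maps _ (hY y hy)), fun U hU => ?_⟩
  · rw [mul_apply', mul_apply', inv_apply_self', h.fix]
  · obtain ⟨n, hn⟩ := h.shr (H ⁻¹' U) (H.continuous.continuousAt hU)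
    refine ⟨n, fun y hy => ?_⟩
    rw [conj_pow', mul_apply', mul_apply']
    exact hn _ (hY y hy)

theorem pow_inv_pow (T : S ≃ₜ S) (n : ℕ) (x : S) : (T⁻¹ ^ n) ((T ^ n) x) = x := by
  rw [← mul_apply', inv_pow, inv_mul_cancel]
  rfl

theorem pow_pow_inv (T : S ≃ₜ S) (n : ℕ) (x : S) : (T ^ n) ((T⁻¹ ^ n) x) = x := by
  rw [← mul_apply', inv_pow, mul_inv_cancel]
  rfl

theorem pow_fix {T : S ≃ₜ S} {x : S} (h : T x = x) (n : ℕ) : (T ^ n) x = x := by
  induction n with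
  | zero => rfl
  | succ n ih => rw [pow_succ', mul_apply', ih, h]

open Classical in
/-- The conjugating map. -/
def psi (P P' : S ≃ₜ S) (K : Set S) (e' : S) (x : S) : S :=
  if h : ∃ n : ℕ, (P ^ n) x ∈ K then (P'⁻¹ ^ (Nat.find h)) ((P ^ (Nat.find h)) x) else e'

/-- The hypotheses for the construction of the conjugating map. -/
structure Agree (P P' : S ≃ₜ S) (K Ko L Lo : Set S) (e e' : S) : Prop where
  oKo : IsOpen Ko
  KoK : Ko ⊆ K
  cK : IsClosed K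
  KL : ∀ x, x ∉ K → x ∈ L
  LoK : ∀ x ∈ Lo, x ∉ K
  mP : ∀ x ∈ K, P x ∈ Ko
  agr : ∀ x ∈ K, P x = P' x
  A : Attr P⁻¹ L Lo e
  A' : Attr P'⁻¹ L Lo e'

section

variable {P P' : S ≃ₜ S} {K Ko L Lo : Set S} {e e' : S}

theorem Agree.symm (h : Agree P P' K Ko L Lo e e') : Agree P' P K Ko L Lo e' e :=
  ⟨h.oKo, h.KoK, h.cK, h.KL, h.LoK, fun x hx => h.agr x hx ▸ h.mP x hx,
    fun x hx => (h.agr x hx).symm, h.A', h.A⟩

theorem Agree.iter (h : Agree P P' K Ko L Lo e e') (n : ℕ) {x : S} (hx : x ∈ K) :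
    (P ^ n) x ∈ K ∧ (P ^ n) x = (P' ^ n) x := by
  induction n with
  | zero => exact ⟨hx, rfl⟩
  | succ n ih =>
    rw [pow_succ', pow_succ', mul_apply', mul_apply', ← ih.2]
    exact ⟨h.KoK (h.mP _ ih.1), h.agr _ ih.1⟩

theorem Agree.fix (h : Agree P P' K Ko L Lo e e') : P e = e := by
  have := h.A.fix
  rw [inv_eq_iff'] at this
  exact this.symm

theorem Agree.not_mem (h : Agree P P' K Ko L Lo e e') (n : ℕ) : (P ^ n) e ∉ K := by
  rw [pow_fix h.fix]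
  exact h.LoK _ h.A.mem

theorem Agree.absorb (h : Agree P P' K Ko L Lo e e') {x : S} (hx : x ≠ e) :
    ∃ n : ℕ, (P ^ n) x ∈ K := by
  by_contra hcon
  push Not at hcon
  obtain ⟨n, hn⟩ := h.A.shr {x}ᶜ (isOpen_ne.mem_nhds hx.symm)
  have h1 := hn _ (h.KL _ (hcon n))
  rw [pow_inv_pow] at h1
  exact h1 rfl

theorem Agree.psi_eq (h : Agree P P' K Ko L Lo e e') {x : S} {n : ℕ} (hn : (P ^ n) x ∈ K) :
    psi P P' K e' x = (P'⁻¹ ^ n) ((P ^ n) x) := by
  classical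
  have hex : ∃ n : ℕ, (P ^ n) x ∈ K := ⟨n, hn⟩
  have key : ∀ m k : ℕ, (P ^ m) x ∈ K →
      (P'⁻¹ ^ (m + k)) ((P ^ (m + k)) x) = (P'⁻¹ ^ m) ((P ^ m) x) := by
    intro m k hm
    rw [pow_add, mul_apply', add_comm m k, pow_add P k m, mul_apply', (h.iter k hm).2, pow_inv_pow]
  rw [psi, dif_pos hex]
  obtain ⟨k, hk⟩ := Nat.exists_eq_add_of_le (Nat.find_min' hex hn)
  rw [hk, key _ k (Nat.find_spec hex)]

theorem Agree.psi_e (h : Agree P P' K Ko L Lo e e') : psi P P' K e' e = e' := by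
  rw [psi, dif_neg]
  rintro ⟨n, hn⟩
  exact h.not_mem n hn

theorem Agree.psi_psi (h : Agree P P' K Ko L Lo e e') (x : S) :
    psi P' P K e (psi P P' K e' x) = x := by
  by_cases hx : x = e
  · rw [hx, h.psi_e, h.symm.psi_e]
  · obtain ⟨n, hn⟩ := h.absorb hx
    rw [h.psi_eq hn]
    have h1 : (P' ^ n) ((P'⁻¹ ^ n) ((P ^ n) x)) = (P ^ n) x := pow_pow_inv P' n _
    rw [h.symm.psi_eq (n := n) (h1.symm ▸ hn), h1, pow_inv_pow]

theorem Agree.continuous_psi (h : Agree P P' K Ko L Lo e e') : Continuous (psi P P' K e') := by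
  rw [continuous_iff_continuousAt]
  intro x
  by_cases hx : x = e
  · subst hx
    rw [ContinuousAt, h.psi_e]
    intro U' hU'
    obtain ⟨n, hn⟩ := h.A'.shr U' hU'
    have hopen : IsOpen {y | (P ^ n) y ∉ K} := h.cK.isOpen_compl.preimage (P ^ n).continuous
    rw [mem_map]
    filter_upwards [hopen.mem_nhds (h.not_mem n)] with y hy
    by_cases hy' : y = x
    · rw [hy', mem_preimage, h.psi_e]
      exact mem_of_mem_nhds hU'
    · have h1 : (P' ^ n) (psi P P' K e' y) ∉ K := by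
        intro hcon
        have h2 := h.symm.psi_eq hcon
        rw [h.psi_psi] at h2
        have h3 : (P ^ n) y = (P' ^ n) (psi P P' K e' y) := by
          conv_lhs => rw [h2]
          exact pow_pow_inv P n _
        exact hy (h3 ▸ hcon)
      have h2 := hn _ (h.KL _ h1)
      rwa [pow_inv_pow] at h2
  · obtain ⟨n, hn⟩ := h.absorb hx
    have h1 : (P ^ (n + 1)) x ∈ Ko := by
      rw [pow_succ', mul_apply']
      exact h.mP _ hn
    have hopen : IsOpen {y | (P ^ (n + 1)) y ∈ Ko} := h.oKo.preimage (P ^ (n + 1)).continuous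
    have h2 : ContinuousAt (fun y => (P'⁻¹ ^ (n + 1)) ((P ^ (n + 1)) y)) x :=
      ((P'⁻¹ ^ (n + 1)).continuous.comp (P ^ (n + 1)).continuous).continuousAt
    refine h2.congr ?_
    filter_upwards [hopen.mem_nhds h1] with y hy
    exact (h.psi_eq (h.KoK hy)).symm

theorem Agree.psi_comm (h : Agree P P' K Ko L Lo e e') (x : S) :
    psi P P' K e' (P x) = P' (psi P P' K e' x) := by
  by_cases hx : x = e
  · rw [hx, h.fix, h.psi_e, h.symm.fix]
  · obtain ⟨n, hn⟩ := h.absorb hx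
    have h1 : (P ^ (n + 1)) x ∈ K := by
      rw [pow_succ', mul_apply']
      exact h.KoK (h.mP _ hn)
    have h2 : (P ^ n) (P x) ∈ K := by
      rw [← mul_apply', ← pow_succ]
      exact h1
    rw [h.psi_eq h2, h.psi_eq h1, pow_succ' P'⁻¹, mul_apply', apply_inv_self', pow_succ P,
      mul_apply']

/-- Two homeomorphisms which agree on a trapping region and whose inverses have attracting
fixed points in the complement are conjugate. -/
theorem Agree.exists_conj (h : Agree P P' K Ko L Lo e e') :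
    ∃ Ψ : S ≃ₜ S, Ψ * P * Ψ⁻¹ = P' := by
  let Ψ : S ≃ₜ S :=
    { toFun := psi P P' K e'
      invFun := psi P' P K e
      left_inv := h.psi_psi
      right_inv := h.symm.psi_psi
      continuous_toFun := h.continuous_psi
      continuous_invFun := h.symm.continuous_psi }
  refine ⟨Ψ, ?_⟩
  ext x
  rw [mul_apply', mul_apply']
  change psi P P' K e' (P (Ψ⁻¹ x)) = P' x
  rw [h.psi_comm]
  congr 1
  exact apply_inv_self' Ψ x

end

theorem attr_half (σ : S ≃ₜ S) (hσ : ∀ z : ℂ, ∃ y : ℂ, ‖y‖ = ‖z‖ ∧ σ z = (y : S)) :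
    Attr (half * σ) ES DS ((0 : ℂ) : S) := by
  have hstep : ∀ z : ℂ, ∃ y : ℂ, ‖y‖ = 2⁻¹ * ‖z‖ ∧ (half * σ) z = (y : S) := by
    intro z
    obtain ⟨y, hy, hy'⟩ := hσ z
    refine ⟨2⁻¹ * y, ?_, ?_⟩
    · rw [norm_mul, hy]
      norm_num
    · rw [mul_apply', hy', half_coe]
  have hiter : ∀ n : ℕ, ∀ z : ℂ, ∃ y : ℂ, ‖y‖ = (2⁻¹ : ℝ) ^ n * ‖z‖ ∧
      ((half * σ) ^ n) z = (y : S) := by
    intro n z
    induction n with
    | zero => exact ⟨z, by simp, rfl⟩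
    | succ n ih =>
      obtain ⟨y, hy, hy'⟩ := ih
      obtain ⟨y', h1, h2⟩ := hstep y
      refine ⟨y', ?_, ?_⟩
      · rw [h1, hy, pow_succ']
        ring
      · rw [pow_succ', mul_apply', hy', h2]
  refine ⟨coe_mem_DS.2 (by simp), ?_, ?_, fun U hU => ?_⟩
  · obtain ⟨y, hy, hy'⟩ := hstep 0
    rw [hy']
    congr 1
    rw [norm_zero, mul_zero] at hy
    exact norm_eq_zero.1 hy
  · rintro _ ⟨z, hz, rfl⟩
    obtain ⟨y, hy, hy'⟩ := hstep z
    rw [hy', coe_mem_DS, hy]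
    have := mem_closedBall_zero_iff.1 hz
    linarith
  · have h1 : ((↑) : ℂ → S) ⁻¹' U ∈ 𝓝 (0 : ℂ) := OnePoint.continuous_coe.continuousAt hU
    obtain ⟨ε, hε, hεU⟩ := Metric.mem_nhds_iff.1 h1
    obtain ⟨n, hn⟩ := exists_pow_lt_of_lt_one hε (show (2⁻¹ : ℝ) < 1 by norm_num)
    refine ⟨n, ?_⟩
    rintro _ ⟨z, hz, rfl⟩
    obtain ⟨y, hy, hy'⟩ := hiter n z
    rw [hy']
    refine hεU (mem_ball_zero_iff.2 ?_)
    rw [hy]
    have := mem_closedBall_zero_iff.1 hz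
    calc (2⁻¹ : ℝ) ^ n * ‖z‖ ≤ (2⁻¹ : ℝ) ^ n * 1 := by gcongr
      _ < ε := by rw [mul_one]; exact hn

theorem attr_half_one : Attr half ES DS ((0 : ℂ) : S) := by
  have := attr_half 1 fun z => ⟨z, rfl, rfl⟩
  rwa [mul_one] at this

theorem attr_half_conj : Attr (half * conjS) ES DS ((0 : ℂ) : S) :=
  attr_half conjS fun z => ⟨conj z, norm_conj z, rfl⟩

theorem ι_half_ι : ι * half * ι⁻¹ = half⁻¹ := by
  ext x
  rw [ι_inv, mul_apply', mul_apply']
  induction x using OnePoint.rec with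
  | infty =>
    rw [ι_infty, half_coe, mul_zero, ι_zero, half_inv_infty]
  | coe z =>
    by_cases hz : z = 0
    · rw [hz, ι_zero, half_infty, ι_infty, half_inv_coe, mul_zero]
    · rw [ι_coe hz, half_coe, ι_coe (mul_ne_zero (by norm_num) (inv_ne_zero hz)), half_inv_coe]
      congr 1
      field_simp

theorem ι_conj_ι : ι * conjS * ι⁻¹ = conjS := by
  ext x
  rw [ι_inv, mul_apply', mul_apply']
  induction x using OnePoint.rec with
  | infty =>
    rw [ι_infty, conjS_coe, map_zero, ι_zero, conjS_infty]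
  | coe z =>
    by_cases hz : z = 0
    · rw [hz, ι_zero, conjS_infty, ι_infty, conjS_coe, map_zero]
    · rw [ι_coe hz, conjS_coe, ι_coe (by simpa using hz), conjS_coe]
      congr 1
      simp

theorem conjS_mul_self : conjS * conjS = 1 := by
  ext x
  exact conjS_conjS x

theorem conjS_inv : conjS⁻¹ = conjS := inv_eq_of_mul_eq_one_left conjS_mul_self

theorem half_conj_comm : half * conjS = conjS * half := by
  ext x
  induction x using OnePoint.rec with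
  | infty => rfl
  | coe z =>
    rw [mul_apply', mul_apply', conjS_coe, half_coe, half_coe, conjS_coe, map_mul, map_inv₀,
      map_ofNat]

theorem ι_inv_mem_ES {x : S} (h : x ∈ QS) : ι⁻¹ x ∈ ES := by
  rw [ι_inv]
  exact ι_mem_ES.2 h

theorem attr_half_inv : Attr half⁻¹ QS IQ ∞ := by
  have := attr_half_one.conj ι (Y := QS) (Y' := IQ) (fun y hy => ι_inv_mem_ES hy)
    (fun x hx => ι_mem_IQ.2 hx)
  rwa [ι_half_ι, ι_zero] at this

theorem attr_half_conj_inv : Attr (half * conjS)⁻¹ QS IQ ∞ := by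
  have := attr_half_conj.conj ι (Y := QS) (Y' := IQ) (fun y hy => ι_inv_mem_ES hy)
    (fun x hx => ι_mem_IQ.2 hx)
  rw [ι_zero] at this
  convert this using 1
  have h1 : ι * (half * conjS) * ι⁻¹ = (ι * half * ι⁻¹) * (ι * conjS * ι⁻¹) := by group
  rw [h1, ι_half_ι, ι_conj_ι, mul_inv_rev, conjS_inv]
  have h2 := half_conj_comm
  have h3 : half⁻¹ * (half * conjS) * half⁻¹ = half⁻¹ * (conjS * half) * half⁻¹ := by rw [h2]
  calc conjS * half⁻¹ = half⁻¹ * (half * conjS) * half⁻¹ := by group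
    _ = half⁻¹ * (conjS * half) * half⁻¹ := h3
    _ = half⁻¹ * conjS := by group

/-- A homeomorphism with north-south dynamics is conjugate to a standard one. -/
theorem exists_conj_std {T : S ≃ₜ S} {q e : S} (hT : Attr T QS IQ q) (hT' : Attr T⁻¹ ES DS e) :
    ∃ Ψ : S ≃ₜ S, Ψ * T * Ψ⁻¹ = half⁻¹ ∨ Ψ * T * Ψ⁻¹ = (half * conjS)⁻¹ := by
  obtain ⟨h, h1, h2⟩ := claimX T⁻¹ hT'.maps
  have hinv : ∀ x ∈ QS, h⁻¹ x = x := fun x hx => by rw [inv_eq_iff', h1 x hx]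
  set T' : S ≃ₜ S := T * h⁻¹ with hT'def
  have hT'inv : T'⁻¹ = h * T⁻¹ := by rw [hT'def]; group
  have hag : ∀ x ∈ QS, T x = T' x := fun x hx => by rw [hT'def, mul_apply', hinv x hx]
  have key : ∀ M : S ≃ₜ S, (∀ x ∈ ES, h (T⁻¹ x) = M x) → Attr M ES DS ((0 : ℂ) : S) →
      Attr M⁻¹ QS IQ ∞ → ∃ Ψ : S ≃ₜ S, Ψ * T * Ψ⁻¹ = M⁻¹ := by
    intro M hM hM1 hM2
    have hT'E : ∀ x ∈ ES, T'⁻¹ x = M x := fun x hx => by
      rw [hT'inv, mul_apply', hM x hx]
    have hA' : Attr T'⁻¹ ES DS ((0 : ℂ) : S) :=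
      hM1.congr DS_sub_ES fun x hx => (hT'E x hx).symm
    have hAg1 : Agree T T' QS IQ ES DS e ((0 : ℂ) : S) :=
      ⟨isOpen_IQ, IQ_sub_QS, isClosed_QS, fun x hx => mem_ES_of_notMem_QS hx,
        fun x hx hx' => hx' hx, hT.maps, hag, hT', hA'⟩
    obtain ⟨Ψ₁, hΨ₁⟩ := hAg1.exists_conj
    have hAg2 : Agree T'⁻¹ M ES DS QS IQ q ∞ :=
      ⟨isOpen_DS, DS_sub_ES, isClosed_ES, fun x hx => mem_QS_of_notMem_ES hx,
        fun x hx => hx, hA'.maps, hT'E, by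
          rw [inv_inv]
          exact hT.congr IQ_sub_QS hag, hM2⟩
    obtain ⟨Ψ₂, hΨ₂⟩ := hAg2.exists_conj
    refine ⟨Ψ₂ * Ψ₁, ?_⟩
    rw [← hΨ₂, ← hΨ₁]
    group
  rcases h2 with h2 | h2
  · obtain ⟨Ψ, hΨ⟩ := key half h2 attr_half_one attr_half_inv
    exact ⟨Ψ, Or.inl hΨ⟩
  · obtain ⟨Ψ, hΨ⟩ := key (half * conjS) h2 attr_half_conj attr_half_conj_inv
    exact ⟨Ψ, Or.inr hΨ⟩

end Pool.Agent.V11210.SPH
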