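import Pool.Agent.V11210.SPH.Germ

/-!
Creating attracting fixed points by composing with homeomorphisms supported in a disc.
-/

set_option autoImplicit false

open Complex Set Filter Topology Function Metric
open scoped OnePoint ComplexConjugate

noncomputable section

namespace Pool.Agent.V11210.SPH

/-- The truncated norm on the sphere. -/
def R1 (x : S) : ℝ := OnePoint.elim x 1 fun z => min 1 ‖z‖

theorem R1_coe (z : ℂ) : R1 (z : S) = min 1 ‖z‖ := rfl

theorem R1_infty : R1 ∞ = 1 := rfl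

theorem continuous_R1 : Continuous R1 := by
  rw [continuous_iff_continuousAt]
  intro x
  induction x using OnePoint.rec with
  | infty =>
    rw [OnePoint.continuousAt_infty', R1_infty, coclosedCompact_eq_cocompact]
    refine tendsto_const_nhds.congr' ?_
    filter_upwards [(isCompact_closedBall (0 : ℂ) 1).compl_mem_cocompact] with z hz
    rw [mem_compl_iff, mem_closedBall_zero_iff, not_le] at hz
    rw [comp_apply, R1_coe, min_eq_left hz.le]
  | coe z =>
    rw [OnePoint.continuousAt_coe]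
    have : (R1 ∘ ((↑) : ℂ → S)) = fun z => min 1 ‖z‖ := rfl
    rw [this]
    fun_prop

theorem R1_nonneg (x : S) : 0 ≤ R1 x := by
  induction x using OnePoint.rec with
  | infty => exact zero_le_one
  | coe z => exact le_min zero_le_one (norm_nonneg z)

theorem R1_le_one (x : S) : R1 x ≤ 1 := by
  induction x using OnePoint.rec with
  | infty => exact le_rfl
  | coe z => exact min_le_left _ _

theorem eq_zero_of_R1 {x : S} (h : R1 x = 0) : x = ((0 : ℂ) : S) := by
  induction x using OnePoint.rec with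
  | infty =>
    rw [R1_infty] at h
    exact absurd h one_ne_zero
  | coe z =>
    rw [R1_coe] at h
    congr 1
    rcases min_choice 1 ‖z‖ with h1 | h1
    · rw [h1] at h
      exact absurd h one_ne_zero
    · rw [h1] at h
      exact norm_eq_zero.1 h

/-- `q` is an attracting fixed point of `T` which attracts `X` uniformly, and `T` maps `X` to
`X'`. -/
structure Attr (T : S ≃ₜ S) (X X' : Set S) (q : S) : Prop where
  mem : q ∈ X'
  fix : T q = q
  maps : ∀ x ∈ X, T x ∈ X'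
  shr : ∀ U ∈ 𝓝 q, ∃ n : ℕ, ∀ x ∈ X, (T ^ n) x ∈ U

theorem exists_attr (u v : S ≃ₜ S) (hu : ∀ x ∈ QS, u x ∈ DS) (hv : ∀ x ∈ ES, v x ∈ IQ) :
    ∃ k : S ≃ₜ S, (∀ x ∈ QS, k x = x) ∧ ∃ q, Attr (v * k * u) QS IQ q := by
  have h0E : ((0 : ℂ) : S) ∈ ES := coe_mem_ES.2 (by simp)
  set x₀ : S := v ((0 : ℂ) : S) with hx₀
  have hx₀Q : x₀ ∈ QS := IQ_sub_QS (hv _ h0E)
  obtain ⟨φ, hφ1, hφ2⟩ := exists_move (norm_toC_DS (hu x₀ hx₀Q))
  let Φ : S ≃ₜ S := ofC φ
  have hΦQ : ∀ x ∈ QS, Φ x = x := by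
    intro x hx
    induction x using OnePoint.rec with
    | infty => rfl
    | coe z =>
      change ((φ z : ℂ) : S) = z
      rw [hφ1 z (coe_mem_QS.1 hx)]
  have hΦ0 : Φ ((0 : ℂ) : S) = u x₀ := by
    change ((φ 0 : ℂ) : S) = u x₀
    rw [hφ2]
    exact coe_toC_ES (DS_sub_ES (hu x₀ hx₀Q))
  have hΦD : ∀ x ∈ DS, Φ⁻¹ x ∈ DS := by
    intro x hx
    by_contra hcon
    have h1 := hΦQ _ hcon
    rw [apply_inv_self'] at h1
    exact hcon (h1 ▸ hx)
  let r : S → ℝ := fun x => R1 (Φ⁻¹ (u x))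
  have hrc : Continuous r := continuous_R1.comp ((Φ⁻¹).continuous.comp u.continuous)
  have hr0 : r x₀ = 0 := by
    change R1 (Φ⁻¹ (u x₀)) = 0
    rw [← hΦ0, inv_apply_self', R1_coe]
    simp
  have hr0' : ∀ x, r x = 0 → x = x₀ := by
    intro x hx
    have h1 := eq_zero_of_R1 hx
    rw [inv_eq_iff', hΦ0] at h1
    exact u.injective h1
  have hr1 : ∀ x, r x ≤ 1 := fun x => R1_le_one _
  have hrn : ∀ x, 0 ≤ r x := fun x => R1_nonneg _
  -- for points of `QS`
  have hrQ : ∀ x ∈ QS, ∃ ζ : ℂ, ‖ζ‖ < 1 ∧ r x = ‖ζ‖ ∧ Φ⁻¹ (u x) = (ζ : S) := by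
    intro x hx
    have h1 := hΦD _ (hu x hx)
    obtain ⟨ζ, hζ, hζ'⟩ := h1
    rw [mem_ball_zero_iff] at hζ
    refine ⟨ζ, hζ, ?_, hζ'.symm⟩
    change R1 (Φ⁻¹ (u x)) = _
    rw [← hζ', R1_coe, min_eq_right hζ.le]
  -- the function `G`
  let g : ℝ → ℂ → ℝ := fun s ζ => r (v (((clamp s : ℝ) * ζ : ℂ) : S))
  have hgc : Continuous (uncurry g) := by
    have h1 := continuous_clamp
    have h2 : Continuous fun p : ℝ × ℂ => (((clamp p.1 : ℝ) * p.2 : ℂ) : S) :=
      OnePoint.continuous_coe.comp (by fun_prop)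
    exact hrc.comp (v.continuous.comp h2)
  let G : ℝ → ℝ := fun s => sSup (g s '' closedBall 0 1)
  have hGc : Continuous G := (isCompact_closedBall (0 : ℂ) 1).continuous_sSup hgc
  have hbdd : ∀ s, BddAbove (g s '' closedBall 0 1) := fun s => ⟨1, by
    rintro _ ⟨ζ, -, rfl⟩
    exact hr1 _⟩
  have hne : ∀ s, (g s '' closedBall 0 1).Nonempty := fun s => ⟨_, 0, by simp, rfl⟩
  have hGle : ∀ s, ∀ ξ : ℂ, ‖ξ‖ ≤ clamp s → r (v (ξ : S)) ≤ G s := by
    intro s ξ hξ
    rcases eq_or_lt_of_le (clamp_nonneg s) with h | h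
    · rw [← h] at hξ
      refine le_csSup (hbdd s) ⟨0, by simp, ?_⟩
      simp only [g, mul_zero]
      rw [norm_le_zero_iff.1 hξ]
    · refine le_csSup (hbdd s) ⟨ξ / (clamp s : ℝ), ?_, ?_⟩
      · rw [mem_closedBall_zero_iff, norm_div, norm_real, Real.norm_eq_abs, abs_of_pos h]
        exact div_le_one_of_le₀ hξ h.le
      · simp only [g]
        rw [mul_div_cancel₀ _ (ofReal_ne_zero.2 h.ne')]
  have hGmono : Monotone G := by
    intro s t hst
    refine csSup_le (hne s) ?_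
    rintro _ ⟨ζ, hζ, rfl⟩
    refine hGle t _ ?_
    rw [norm_mul, norm_real, Real.norm_eq_abs, abs_of_nonneg (clamp_nonneg s)]
    have h1 := mem_closedBall_zero_iff.1 hζ
    calc clamp s * ‖ζ‖ ≤ clamp s * 1 := mul_le_mul_of_nonneg_left h1 (clamp_nonneg s)
      _ ≤ clamp t := by rw [mul_one]; exact clamp_mono hst
  have hG0 : G 0 = 0 := by
    have h1 : ∀ ζ, g 0 ζ = 0 := by
      intro ζ
      simp only [g]
      rw [clamp_of_nonpos le_rfl, ofReal_zero, zero_mul]
      exact hr0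
    refine le_antisymm (csSup_le (hne 0) ?_) ((h1 0).symm.le.trans (le_csSup (hbdd 0) ⟨0, by simp, rfl⟩))
    rintro _ ⟨ζ, -, rfl⟩
    exact (h1 ζ).le
  have hGnonneg : ∀ s, 0 ≤ G s := fun s =>
    (hrn _).trans (le_csSup (hbdd s) ⟨0, by simp, rfl⟩)
  have hG1 : G 1 < 1 := by
    obtain ⟨ζ, hζ, hζ'⟩ := (isCompact_closedBall (0 : ℂ) 1).exists_sSup_image_eq ⟨0, by simp⟩
      (f := g 1) (hgc.comp (by fun_prop : Continuous fun ζ : ℂ => ((1 : ℝ), ζ))).continuousOn
    change sSup (g 1 '' closedBall 0 1) < 1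
    rw [hζ']
    simp only [g]
    rw [clamp_of_one_le le_rfl, ofReal_one, one_mul]
    obtain ⟨ξ, hξ, hξ', -⟩ := hrQ (v (ζ : S))
      (IQ_sub_QS (hv _ (coe_mem_ES.2 (mem_closedBall_zero_iff.1 hζ))))
    rw [hξ']
    exact hξ
  have hGclamp : ∀ s, G s = G (clamp s) := by
    intro s
    have : clamp (clamp s) = clamp s := clamp_of_mem (clamp_nonneg s) (clamp_le_one s)
    simp only [G, g, this]
  -- the radial map
  let f : ℝ → ℝ := fun x => G x + (1 - G 1) * clamp x + (x - clamp x)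
  have hfc : Continuous f := by
    have h1 := continuous_clamp
    simp only [f]
    fun_prop
  have hfm : StrictMono f := by
    intro x y hxy
    have h1 := hGmono hxy.le
    have h2 : clamp y - clamp x ≤ y - x := by
      have := abs_clamp_sub y x
      rw [abs_of_pos (sub_pos.2 hxy)] at this
      exact (le_abs_self _).trans this
    have h3 : 0 ≤ clamp y - clamp x := sub_nonneg.2 (clamp_mono hxy.le)
    have h4 := hGnonneg 1
    have h5 : f y - f x = (G y - G x) + ((y - x) - G 1 * (clamp y - clamp x)) := by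
      simp only [f]
      ring
    have h6 : G 1 * (clamp y - clamp x) ≤ G 1 * (y - x) := mul_le_mul_of_nonneg_left h2 h4
    nlinarith
  have hflow : ∀ x, x ≤ 0 → f x = x := by
    intro x hx
    simp only [f]
    rw [hGclamp, clamp_of_nonpos hx, hG0]
    ring
  have hfhigh : ∀ x, 1 ≤ x → f x = x := by
    intro x hx
    simp only [f]
    rw [hGclamp, clamp_of_one_le hx]
    ring
  have hfmid : ∀ x, 0 ≤ x → x ≤ 1 → f x = G x + (1 - G 1) * x := by
    intro x h0 h1
    simp only [f]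
    rw [clamp_of_mem h0 h1]
    ring
  have hsurj : Surjective f := by
    refine hfc.surjective ?_ ?_
    · refine tendsto_id.congr' ?_
      filter_upwards [eventually_ge_atTop 1] with x hx
      exact (hfhigh x hx).symm
    · refine tendsto_id.congr' ?_
      filter_upwards [eventually_le_atBot 0] with x hx
      exact (hflow x hx).symm
  let e : ℝ ≃o ℝ := hfm.orderIsoOfSurjective f hsurj
  have he : ∀ x, e x = f x := fun x => rfl
  have e0 : e 0 = 0 := hflow 0 le_rfl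
  have e0' : e.symm 0 = 0 := orderIso_symm_zero e e0
  let Λ : S ≃ₜ S := (ofC (radHomeo e e0))⁻¹
  have hΛ_coe : ∀ z : ℂ, Λ (z : S) = (((radHomeo e e0).symm z : ℂ) : S) := fun z => rfl
  have hΛQ : ∀ x ∈ QS, Λ x = x := by
    intro x hx
    rw [inv_eq_iff']
    induction x using OnePoint.rec with
    | infty => rfl
    | coe z =>
      have h1 : rad e z = z := rad_of_eq ((he _).trans (hfhigh _ (coe_mem_QS.1 hx)))
      change (z : S) = ((rad e z : ℂ) : S)
      rw [h1]
  have hΛ0 : Λ ((0 : ℂ) : S) = ((0 : ℂ) : S) := by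
    rw [hΛ_coe]
    congr 1
    rw [← norm_eq_zero, norm_radHomeo_symm, norm_zero, e0']
  let k : S ≃ₜ S := Λ * Φ⁻¹
  have hkQ : ∀ x ∈ QS, k x = x := by
    intro x hx
    rw [mul_apply']
    have : Φ⁻¹ x = x := by rw [inv_eq_iff', hΦQ x hx]
    rw [this, hΛQ x hx]
  let C : S ≃ₜ S := v * k * u
  have hC : ∀ x, C x = v (Λ (Φ⁻¹ (u x))) := fun x => rfl
  -- the one-dimensional dynamics
  let H : ℝ → ℝ := fun ρ => G (e.symm ρ)
  have hHc : Continuous H := hGc.comp e.symm.continuous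
  have hHmono : Monotone H := hGmono.comp e.symm.monotone
  have hsymm : ∀ ρ, 0 ≤ ρ → ρ ≤ 1 → 0 ≤ e.symm ρ ∧ e.symm ρ ≤ 1 := by
    intro ρ h0 h1
    constructor
    · rw [← e0']
      exact e.symm.monotone h0
    · rw [← e.le_iff_le, e.apply_symm_apply, he, hfhigh 1 le_rfl]
      exact h1
  have hHlt : ∀ ρ, 0 < ρ → ρ ≤ 1 → H ρ < ρ := by
    intro ρ h0 h1
    obtain ⟨h2, h3⟩ := hsymm ρ h0.le h1
    have h4 : 0 < e.symm ρ := by
      rw [← e0']
      exact e.symm.strictMono h0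
    have h5 : f (e.symm ρ) = ρ := e.apply_symm_apply ρ
    rw [hfmid _ h2 h3] at h5
    have h6 : 0 < (1 - G 1) * e.symm ρ := mul_pos (by linarith) h4
    change G (e.symm ρ) < ρ
    linarith
  have hH0 : H 0 = 0 := by
    change G (e.symm 0) = 0
    rw [e0', hG0]
  have hHle : ∀ ρ, 0 ≤ ρ → ρ ≤ 1 → H ρ ≤ ρ := by
    intro ρ h0 h1
    rcases eq_or_lt_of_le h0 with h | h
    · rw [← h, hH0]
    · exact (hHlt ρ h h1).le
  have hHn : ∀ ρ, 0 ≤ H ρ := fun ρ => hGnonneg _
  have hstep : ∀ x ∈ QS, C x ∈ IQ ∧ r (C x) ≤ H (r x) := by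
    intro x hx
    obtain ⟨ζ, hζ, hζr, hζe⟩ := hrQ x hx
    obtain ⟨h1, h2⟩ := hsymm ‖ζ‖ (norm_nonneg ζ) hζ.le
    have h3 : ‖(radHomeo e e0).symm ζ‖ = e.symm ‖ζ‖ := norm_radHomeo_symm e e0 ζ
    rw [hC, hζe, hΛ_coe]
    constructor
    · exact hv _ (coe_mem_ES.2 (h3 ▸ h2))
    · rw [hζr]
      refine hGle _ _ ?_
      rw [h3, clamp_of_mem h1 h2]
  let a : ℕ → ℝ := fun n => H^[n] 1
  have ha0 : a 0 = 1 := rfl
  have ha1 : ∀ n, a (n + 1) = H (a n) := fun n => iterate_succ_apply' H n 1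
  have ha : ∀ n, 0 ≤ a n ∧ a n ≤ 1 := by
    intro n
    induction n with
    | zero => exact ⟨zero_le_one, le_rfl⟩
    | succ n ih =>
      rw [ha1]
      exact ⟨hHn _, (hHle _ ih.1 ih.2).trans ih.2⟩
  have hanti : Antitone a := antitone_nat_of_succ_le fun n => by
    rw [ha1]
    exact hHle _ (ha n).1 (ha n).2
  have hlim : Tendsto a atTop (𝓝 0) := by
    have h1 := tendsto_atTop_ciInf hanti ⟨0, by
      rintro _ ⟨n, rfl⟩
      exact (ha n).1⟩
    set L := ⨅ n, a n
    have h2 : Tendsto (fun n => a (n + 1)) atTop (𝓝 (H L)) := by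
      simp only [ha1]
      exact (hHc.tendsto L).comp h1
    have h3 : Tendsto (fun n => a (n + 1)) atTop (𝓝 L) := h1.comp (tendsto_add_atTop_nat 1)
    have h4 := tendsto_nhds_unique h2 h3
    have h5 : 0 ≤ L := ge_of_tendsto' h1 fun n => (ha n).1
    have h6 : L ≤ 1 := le_of_tendsto' h1 fun n => (ha n).2
    rcases eq_or_lt_of_le h5 with h7 | h7
    · rwa [← h7] at h1
    · exact absurd h4 (hHlt L h7 h6).ne
  have hiter : ∀ n, ∀ x ∈ QS, (C ^ n) x ∈ QS ∧ r ((C ^ n) x) ≤ a n := by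
    intro n x hx
    induction n with
    | zero => exact ⟨hx, hr1 _⟩
    | succ n ih =>
      rw [pow_succ', mul_apply', ha1]
      obtain ⟨h1, h2⟩ := hstep _ ih.1
      exact ⟨IQ_sub_QS h1, h2.trans (hHmono ih.2)⟩
  refine ⟨k, hkQ, x₀, hv _ h0E, ?_, fun x hx => (hstep x hx).1, fun U hU => ?_⟩
  · change C x₀ = x₀
    have : Φ⁻¹ (u x₀) = ((0 : ℂ) : S) := by rw [inv_eq_iff', hΦ0]
    rw [hC, this, hΛ0]
  · have hK : IsCompact (QS \ interior U) := isCompact_QS.diff isOpen_interior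
    rcases (QS \ interior U).eq_empty_or_nonempty with hKe | hKn
    · refine ⟨0, fun x hx => ?_⟩
      have h1 : x ∉ QS \ interior U := by rw [hKe]; exact notMem_empty x
      by_contra h2
      exact h1 ⟨hx, fun h3 => h2 (interior_subset h3)⟩
    · obtain ⟨y, hy, hmin⟩ := hK.exists_isMinOn hKn hrc.continuousOn
      have hpos : 0 < r y := by
        rcases eq_or_lt_of_le (hrn y) with h1 | h1
        · exfalso
          have h2 := hr0' y h1.symm
          exact hy.2 (h2 ▸ mem_interior_iff_mem_nhds.2 hU)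
        · exact h1
      obtain ⟨n, hn⟩ := (hlim.eventually_lt_const hpos).exists
      refine ⟨n, fun x hx => ?_⟩
      obtain ⟨h1, h2⟩ := hiter n x hx
      by_contra h3
      have h4 : (C ^ n) x ∈ QS \ interior U := ⟨h1, fun h => h3 (interior_subset h)⟩
      have h5 : r y ≤ r ((C ^ n) x) := hmin h4
      linarith

end Pool.Agent.V11210.SPH
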