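import Pool.Agent.V11210.SPH.Homeo

/-!
Germs of conformal maps are germs of homeomorphisms supported in the disc.
-/

set_option autoImplicit false

open Complex Set Filter Topology Function Metric
open scoped OnePoint ComplexConjugate

noncomputable section

namespace Pool.Agent.V11210.SPH

/-- A cut-off function. -/
def clamp (x : ℝ) : ℝ := max 0 (min 1 x)

theorem continuous_clamp : Continuous clamp := by
  unfold clamp
  fun_prop

theorem clamp_of_nonpos {x : ℝ} (h : x ≤ 0) : clamp x = 0 :=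
  max_eq_left ((min_le_right _ _).trans h)

theorem clamp_of_one_le {x : ℝ} (h : 1 ≤ x) : clamp x = 1 := by
  rw [clamp, min_eq_left h, max_eq_right zero_le_one]

theorem clamp_of_mem {x : ℝ} (h0 : 0 ≤ x) (h1 : x ≤ 1) : clamp x = x := by
  rw [clamp, min_eq_right h1, max_eq_right h0]

theorem clamp_nonneg (x : ℝ) : 0 ≤ clamp x := le_max_left _ _

theorem clamp_le_one (x : ℝ) : clamp x ≤ 1 := max_le zero_le_one (min_le_left _ _)

theorem clamp_mono : Monotone clamp := fun _ _ h =>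
  max_le_max le_rfl (min_le_min le_rfl h)

theorem abs_clamp_sub (x y : ℝ) : |clamp x - clamp y| ≤ |x - y| := by
  have h1 := abs_max_sub_max_le_max 0 (min 1 x) 0 (min 1 y)
  have h2 := abs_min_sub_min_le_max 1 x 1 y
  rw [sub_self, abs_zero, max_eq_right (abs_nonneg (min 1 x - min 1 y))] at h1
  rw [sub_self, abs_zero, max_eq_right (abs_nonneg (x - y))] at h2
  exact h1.trans h2

/-- There is a homeomorphism supported in the unit disc which maps `0` to a given point. -/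
theorem exists_move {b : ℂ} (hb : ‖b‖ < 1) :
    ∃ h : ℂ ≃ₜ ℂ, (∀ z, 1 ≤ ‖z‖ → h z = z) ∧ h 0 = b := by
  obtain ⟨h, hh⟩ := exists_perturb (fun z => (clamp (1 - ‖z‖) : ℂ) * b) (norm_nonneg b) hb
    (fun x y => by
      rw [← sub_mul, norm_mul, mul_comm, ← ofReal_sub, norm_real, Real.norm_eq_abs]
      refine mul_le_mul_of_nonneg_left ?_ (norm_nonneg b)
      refine (abs_clamp_sub _ _).trans ?_
      have : 1 - ‖x‖ - (1 - ‖y‖) = ‖y‖ - ‖x‖ := by ring
      rw [this, norm_sub_rev]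
      exact abs_norm_sub_norm_le y x)
  refine ⟨h, fun z hz => ?_, ?_⟩
  · rw [hh, clamp_of_nonpos (by linarith)]
    simp
  · rw [hh, norm_zero, clamp_of_one_le (by linarith)]
    simp

theorem exists_translate {b : ℂ} (hb : ‖b‖ < 1) :
    ∃ h : ℂ ≃ₜ ℂ, (∀ z, 1 ≤ ‖z‖ → h z = z) ∧ ∀ᶠ z in 𝓝 0, h z = z + b := by
  set δ := (1 - ‖b‖) / 2 with hδ
  have hδ0 : 0 < δ := by rw [hδ]; linarith
  have hb0 := norm_nonneg b
  have hδ1 : ‖b‖ < 1 - δ := by rw [hδ]; linarith
  have hδ2 : 0 < 1 - δ := by linarith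
  obtain ⟨h, hh⟩ := exists_perturb (fun z => (clamp ((1 - ‖z‖) / (1 - δ)) : ℂ) * b)
    (K := ‖b‖ / (1 - δ)) (by positivity) (by rwa [div_lt_one hδ2])
    (fun x y => by
      rw [← sub_mul, norm_mul, mul_comm, ← ofReal_sub, norm_real, Real.norm_eq_abs, div_mul_eq_mul_div,
        mul_div_assoc]
      refine mul_le_mul_of_nonneg_left ?_ (norm_nonneg b)
      refine (abs_clamp_sub _ _).trans ?_
      have : (1 - ‖x‖) / (1 - δ) - (1 - ‖y‖) / (1 - δ) = (‖y‖ - ‖x‖) / (1 - δ) := by ring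
      rw [this, norm_sub_rev, abs_div, abs_of_pos hδ2]
      exact div_le_div_of_nonneg_right (abs_norm_sub_norm_le y x) hδ2.le)
  refine ⟨h, fun z hz => ?_, ?_⟩
  · rw [hh, clamp_of_nonpos (div_nonpos_of_nonpos_of_nonneg (by linarith) hδ2.le)]
    simp
  · filter_upwards [ball_mem_nhds (0 : ℂ) hδ0] with z hz
    rw [mem_ball_zero_iff] at hz
    rw [hh, clamp_of_one_le (by rw [le_div_iff₀ hδ2]; linarith)]
    simp

theorem exists_scale {k : ℝ} (hk : 0 < k) :
    ∃ e : ℝ ≃o ℝ, e 0 = 0 ∧ (∃ δ > 0, ∀ x, 0 ≤ x → x ≤ δ → e x = k * x) ∧ ∀ x, 1 ≤ x → e x = x := by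
  rcases lt_trichotomy k 1 with h | h | h
  · obtain ⟨e, e0, e1, e2⟩ := exists_shrink (a := 1 / 2) (b := k / 2) (c := 1) (by linarith)
      (by linarith) (by norm_num)
    refine ⟨e, e0, ⟨1 / 2, by norm_num, fun x hx hx' => ?_⟩, e2⟩
    rw [e1 x hx hx']
    ring
  · exact ⟨OrderIso.refl ℝ, rfl, ⟨1, one_pos, fun x _ _ => by rw [h, one_mul]; rfl⟩, fun _ _ => rfl⟩
  · have hk1 : k⁻¹ < 1 := inv_lt_one_of_one_lt₀ h
    have hk0 : 0 < k⁻¹ := inv_pos.2 hk
    obtain ⟨e, e0, e1, e2⟩ := exists_shrink (a := 1 / 2) (b := k⁻¹ / 2) (c := 1) (by linarith)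
      (by linarith) (by norm_num)
    refine ⟨e.symm, orderIso_symm_zero e e0, ⟨k⁻¹ / 2, by positivity, fun x hx hx' => ?_⟩,
      fun x hx => ?_⟩
    · rw [e.symm_apply_eq, e1 (k * x) (by positivity)]
      · field_simp
      · calc k * x ≤ k * (k⁻¹ / 2) := by gcongr
          _ = 1 / 2 := by field_simp
    · rw [e.symm_apply_eq, e2 x hx]

/-- The map which rotates the circle of radius `r` around `0` by the angle `β r`. -/
def tw (β : ℝ → ℝ) (z : ℂ) : ℂ := z * exp (β ‖z‖ * I)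

theorem norm_tw (β : ℝ → ℝ) (z : ℂ) : ‖tw β z‖ = ‖z‖ := by
  rw [tw, norm_mul, norm_exp_ofReal_mul_I, mul_one]

theorem tw_tw (β γ : ℝ → ℝ) (h : ∀ r, γ r + β r = 0) (z : ℂ) : tw β (tw γ z) = z := by
  rw [tw, norm_tw, tw, mul_assoc, ← exp_add, ← add_mul, ← ofReal_add, h, ofReal_zero, zero_mul,
    exp_zero, mul_one]

/-- The twist as a homeomorphism. -/
def twHomeo (β : ℝ → ℝ) (hβ : Continuous β) : ℂ ≃ₜ ℂ where
  toFun := tw β
  invFun := tw (fun r => - β r)
  left_inv := tw_tw _ _ fun r => by ring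
  right_inv := tw_tw _ _ fun r => by ring
  continuous_toFun := by
    unfold tw
    fun_prop
  continuous_invFun := by
    unfold tw
    fun_prop

theorem exists_linear {c : ℂ} (hc : c ≠ 0) :
    ∃ h : ℂ ≃ₜ ℂ, (∀ z, 1 ≤ ‖z‖ → h z = z) ∧ ∀ᶠ z in 𝓝 0, h z = c * z := by
  obtain ⟨e, e0, ⟨δ, hδ, e1⟩, e2⟩ := exists_scale (norm_pos_iff.2 hc)
  let β : ℝ → ℝ := fun r => clamp (2 - 2 * r) * arg c
  have hβ : Continuous β := by
    have := continuous_clamp
    simp only [β]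
    fun_prop
  refine ⟨(twHomeo β hβ).trans (radHomeo e e0), fun z hz => ?_, ?_⟩
  · have h1 : twHomeo β hβ z = z := by
      change tw β z = z
      simp only [tw, β]
      rw [clamp_of_nonpos (by linarith)]
      simp
    rw [Homeomorph.trans_apply, h1, radHomeo_apply]
    exact rad_of_eq (e2 _ hz)
  · filter_upwards [ball_mem_nhds (0 : ℂ) hδ, ball_mem_nhds (0 : ℂ) (ε := 1 / 2) (by norm_num)]
      with z hz hz'
    rw [mem_ball_zero_iff] at hz hz'
    have h1 : twHomeo β hβ z = z * exp (arg c * I) := by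
      change tw β z = _
      simp only [tw, β]
      rw [clamp_of_one_le (by linarith), one_mul]
    have h2 : ‖z * exp (arg c * I)‖ = ‖z‖ := by
      rw [norm_mul, norm_exp_ofReal_mul_I, mul_one]
    rw [Homeomorph.trans_apply, h1, radHomeo_apply,
      rad_of_scale (k := ‖c‖) (by rw [h2]; exact e1 _ (norm_nonneg z) hz.le)]
    conv_rhs => rw [← norm_mul_exp_arg_mul_I c]
    ring

theorem exists_nonlinear {η : ℂ → ℂ} {r : ℝ} (hr : 0 < r) (h0 : η 0 = 0)
    (hη : ∀ x, ‖x‖ < r → ∀ y, ‖y‖ < r → ‖η x - η y‖ ≤ 1 / 6 * ‖x - y‖) :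
    ∃ h : ℂ ≃ₜ ℂ, (∀ z, 1 ≤ ‖z‖ → h z = z) ∧ ∀ᶠ z in 𝓝 0, h z = z + η z := by
  set δ := min r 1 / 4 with hδ
  have hm : 0 < min r 1 := lt_min hr one_pos
  have hδ0 : 0 < δ := by rw [hδ]; linarith
  have hδr : 4 * δ ≤ r := by
    have := min_le_left r 1
    rw [hδ]; linarith
  have hδ1 : 4 * δ ≤ 1 := by
    have := min_le_right r 1
    rw [hδ]; linarith
  let χ : ℂ → ℝ := fun z => clamp (2 - ‖z‖ / δ)
  have hχ0 : ∀ z, 2 * δ ≤ ‖z‖ → χ z = 0 := by
    intro z hz
    refine clamp_of_nonpos ?_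
    rw [sub_nonpos, le_div_iff₀ hδ0]
    exact hz
  have hχ1 : ∀ z, ‖z‖ ≤ δ → χ z = 1 := by
    intro z hz
    refine clamp_of_one_le ?_
    have : ‖z‖ / δ ≤ 1 := (div_le_one hδ0).2 hz
    linarith
  have hχL : ∀ x y, |χ x - χ y| ≤ ‖x - y‖ / δ := by
    intro x y
    refine (abs_clamp_sub _ _).trans ?_
    have : 2 - ‖x‖ / δ - (2 - ‖y‖ / δ) = (‖y‖ - ‖x‖) / δ := by ring
    rw [this, norm_sub_rev, abs_div, abs_of_pos hδ0]
    exact div_le_div_of_nonneg_right (abs_norm_sub_norm_le y x) hδ0.le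
  have key : ∀ x y, ‖x‖ < 2 * δ → ‖(χ x : ℂ) * η x - (χ y : ℂ) * η y‖ ≤ 1 / 2 * ‖x - y‖ := by
    intro x y hx
    have h1 : (χ x : ℂ) * η x - (χ y : ℂ) * η y =
        ((χ x - χ y : ℝ) : ℂ) * η x + (χ y : ℂ) * (η x - η y) := by
      push_cast; ring
    have h2 : ‖((χ x - χ y : ℝ) : ℂ) * η x‖ ≤ 1 / 3 * ‖x - y‖ := by
      rw [norm_mul, norm_real, Real.norm_eq_abs]
      have h3 := hη x (by linarith) 0 (by rw [norm_zero]; exact hr)
      rw [h0, sub_zero, sub_zero] at h3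
      calc |χ x - χ y| * ‖η x‖ ≤ (‖x - y‖ / δ) * (1 / 6 * (2 * δ)) := by
            refine mul_le_mul (hχL x y) (h3.trans ?_) (norm_nonneg _) (by positivity)
            linarith
        _ = 1 / 3 * ‖x - y‖ := by
            field_simp
            ring
    have h3 : ‖(χ y : ℂ) * (η x - η y)‖ ≤ 1 / 6 * ‖x - y‖ := by
      by_cases hy : ‖y‖ < r
      · rw [norm_mul, norm_real, Real.norm_eq_abs, abs_of_nonneg (clamp_nonneg _)]
        have h4 := hη x (by linarith) y hy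
        calc χ y * ‖η x - η y‖ ≤ 1 * ‖η x - η y‖ := by
              refine mul_le_mul_of_nonneg_right (clamp_le_one _) (norm_nonneg _)
          _ ≤ _ := by rw [one_mul]; exact h4
      · rw [hχ0 y (by linarith), ofReal_zero, zero_mul, norm_zero]
        positivity
    rw [h1]
    exact (norm_add_le _ _).trans (by linarith)
  obtain ⟨h, hh⟩ := exists_perturb (fun z => (χ z : ℂ) * η z) (K := 1 / 2) (by norm_num)
    (by norm_num) (fun x y => by
      by_cases hx : ‖x‖ < 2 * δ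
      · exact key x y hx
      · by_cases hy : ‖y‖ < 2 * δ
        · rw [norm_sub_rev, norm_sub_rev x y]
          exact key y x hy
        · rw [hχ0 x (not_lt.1 hx), hχ0 y (not_lt.1 hy)]
          simp)
  refine ⟨h, fun z hz => ?_, ?_⟩
  · rw [hh, hχ0 z (by linarith)]
    simp
  · filter_upwards [ball_mem_nhds (0 : ℂ) hδ0] with z hz
    rw [mem_ball_zero_iff] at hz
    rw [hh, hχ1 z hz.le]
    simp

/-- The germ at `0` of a map which is strictly differentiable with non-zero derivative is the germ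
of a homeomorphism supported in the unit disc. -/
theorem exists_germ {g : ℂ → ℂ} {c : ℂ} (hg : HasStrictDerivAt g c 0) (hc : c ≠ 0)
    (h0 : ‖g 0‖ < 1) :
    ∃ F : ℂ ≃ₜ ℂ, (∀ z, 1 ≤ ‖z‖ → F z = z) ∧ ∀ᶠ z in 𝓝 0, F z = g z := by
  obtain ⟨T, T1, T2⟩ := exists_translate h0
  obtain ⟨L, L1, L2⟩ := exists_linear hc
  have hc' : 0 < ‖c‖ := norm_pos_iff.2 hc
  obtain ⟨s, hs, hap⟩ := hg.hasStrictFDerivAt.approximates_deriv_on_nhds
    (c := Real.toNNReal (‖c‖ / 6)) (Or.inr (Real.toNNReal_pos.2 (div_pos hc' (by norm_num))))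
  obtain ⟨r, hr, hrs⟩ := Metric.mem_nhds_iff.1 hs
  obtain ⟨P, P1, P2⟩ := exists_nonlinear (η := fun z => (g z - g 0) / c - z) hr (by simp)
    (fun x hx y hy => by
      have h1 := hap x (hrs (mem_ball_zero_iff.2 hx)) y (hrs (mem_ball_zero_iff.2 hy))
      have h2 : (g x - g 0) / c - x - ((g y - g 0) / c - y) = (g x - g y - (x - y) * c) / c := by
        field_simp
        ring
      rw [h2, norm_div, div_le_iff₀ hc']
      rw [Real.coe_toNNReal _ (by positivity)] at h1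
      have h3 : ‖g x - g y - (x - y) * c‖ ≤ ‖c‖ / 6 * ‖x - y‖ := by
        simpa using h1
      linarith)
  refine ⟨(P.trans L).trans T, fun z hz => ?_, ?_⟩
  · rw [Homeomorph.trans_apply, Homeomorph.trans_apply, P1 z hz, L1 z hz, T1 z hz]
  · have hP0 : P 0 = 0 := by
      rw [P2.self_of_nhds]
      simp
    have hL0 : L 0 = 0 := by
      rw [L2.self_of_nhds, mul_zero]
    have h1 : Tendsto P (𝓝 0) (𝓝 0) := by
      have := P.continuous.tendsto 0
      rwa [hP0] at this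
    have h2 : Tendsto (fun z => L (P z)) (𝓝 0) (𝓝 0) := by
      have := (L.continuous.tendsto 0).comp h1
      rwa [hL0] at this
    filter_upwards [P2, h1.eventually L2, h2.eventually T2] with z hz1 hz2 hz3
    rw [Homeomorph.trans_apply, Homeomorph.trans_apply, hz3, hz2, hz1]
    field_simp
    ring

end Pool.Agent.V11210.SPH
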