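import Mathlib

/-!
Homeomorphisms of the Riemann sphere: basic constructions.
-/

set_option autoImplicit false

open Complex Set Filter Topology Function Metric
open scoped OnePoint ComplexConjugate

noncomputable section

namespace Pool.Agent.V11210.SPH

/-- The Riemann sphere. -/
abbrev S : Type := OnePoint ℂ

/-- The open unit disc in the sphere. -/
def DS : Set S := ((↑) : ℂ → S) '' ball (0 : ℂ) 1

/-- The closed unit disc in the sphere. -/
def ES : Set S := ((↑) : ℂ → S) '' closedBall (0 : ℂ) 1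

/-- The complement of the open unit disc in the sphere. -/
def QS : Set S := DSᶜ

/-- The complement of the closed unit disc in the sphere. -/
def IQ : Set S := ESᶜ

theorem coe_mem_DS {z : ℂ} : (z : S) ∈ DS ↔ ‖z‖ < 1 := by
  rw [DS, OnePoint.coe_injective.mem_set_image, mem_ball_zero_iff]

theorem coe_mem_ES {z : ℂ} : (z : S) ∈ ES ↔ ‖z‖ ≤ 1 := by
  rw [ES, OnePoint.coe_injective.mem_set_image, mem_closedBall_zero_iff]

theorem coe_mem_QS {z : ℂ} : (z : S) ∈ QS ↔ 1 ≤ ‖z‖ := by
  rw [QS, mem_compl_iff, coe_mem_DS, not_lt]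

theorem coe_mem_IQ {z : ℂ} : (z : S) ∈ IQ ↔ 1 < ‖z‖ := by
  rw [IQ, mem_compl_iff, coe_mem_ES, not_le]

theorem infty_mem_QS : (∞ : S) ∈ QS := OnePoint.infty_notMem_image_coe

theorem infty_mem_IQ : (∞ : S) ∈ IQ := OnePoint.infty_notMem_image_coe

theorem isOpen_DS : IsOpen DS := OnePoint.isOpenEmbedding_coe.isOpenMap _ isOpen_ball

theorem isCompact_ES : IsCompact ES := (isCompact_closedBall 0 1).image OnePoint.continuous_coe

theorem isClosed_ES : IsClosed ES := isCompact_ES.isClosed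

theorem isOpen_IQ : IsOpen IQ := isClosed_ES.isOpen_compl

theorem isClosed_QS : IsClosed QS := isOpen_DS.isClosed_compl

theorem isCompact_QS : IsCompact QS := isClosed_QS.isCompact

theorem DS_sub_ES : DS ⊆ ES := image_mono ball_subset_closedBall

theorem IQ_sub_QS : IQ ⊆ QS := compl_subset_compl.2 DS_sub_ES

theorem mem_ES_of_notMem_QS {x : S} (h : x ∉ QS) : x ∈ ES := DS_sub_ES (not_not.1 h)

theorem mem_DS_of_notMem_QS {x : S} (h : x ∉ QS) : x ∈ DS := not_not.1 h

theorem mem_QS_of_notMem_ES {x : S} (h : x ∉ ES) : x ∈ QS := IQ_sub_QS h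

/-- The complex number (`0` for `∞`). -/
def toC (x : S) : ℂ := OnePoint.elim x 0 id

@[simp] theorem toC_coe (z : ℂ) : toC (z : S) = z := rfl

theorem coe_toC {x : S} (h : x ≠ ∞) : ((toC x : ℂ) : S) = x := by
  induction x using OnePoint.rec with
  | infty => exact absurd rfl h
  | coe z => rfl

theorem ne_infty_of_mem_ES {x : S} (h : x ∈ ES) : x ≠ ∞ := by
  rintro rfl
  exact infty_mem_IQ h

theorem coe_toC_ES {x : S} (h : x ∈ ES) : ((toC x : ℂ) : S) = x := coe_toC (ne_infty_of_mem_ES h)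

theorem norm_toC_ES {x : S} (h : x ∈ ES) : ‖toC x‖ ≤ 1 := by
  rw [← coe_mem_ES, coe_toC_ES h]
  exact h

theorem norm_toC_DS {x : S} (h : x ∈ DS) : ‖toC x‖ < 1 := by
  rw [← coe_mem_DS, coe_toC_ES (DS_sub_ES h)]
  exact h

theorem continuousAt_toC {x : S} (h : x ≠ ∞) : ContinuousAt toC x := by
  induction x using OnePoint.rec with
  | infty => exact absurd rfl h
  | coe z =>
    rw [OnePoint.continuousAt_coe]
    exact continuousAt_id

/-- A homeomorphism of the plane as a homeomorphism of the sphere. -/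
def ofC (h : ℂ ≃ₜ ℂ) : S ≃ₜ S := h.onePointCongr

@[simp] theorem ofC_coe (h : ℂ ≃ₜ ℂ) (z : ℂ) : ofC h (z : S) = ((h z : ℂ) : S) := rfl

@[simp] theorem ofC_infty (h : ℂ ≃ₜ ℂ) : ofC h ∞ = ∞ := rfl

theorem ofC_inv_coe (h : ℂ ≃ₜ ℂ) (z : ℂ) : (ofC h)⁻¹ (z : S) = ((h.symm z : ℂ) : S) := rfl

theorem ofC_inv_infty (h : ℂ ≃ₜ ℂ) : (ofC h)⁻¹ ∞ = ∞ := rfl

theorem inv_apply_self' {X : Type} [TopologicalSpace X] (f : X ≃ₜ X) (x : X) : f⁻¹ (f x) = x :=
  f.symm_apply_apply x

theorem apply_inv_self' {X : Type} [TopologicalSpace X] (f : X ≃ₜ X) (x : X) : f (f⁻¹ x) = x :=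
  f.apply_symm_apply x

theorem mul_apply' {X : Type} [TopologicalSpace X] (f g : X ≃ₜ X) (x : X) : (f * g) x = f (g x) :=
  rfl

theorem inv_eq_iff' {X : Type} [TopologicalSpace X] (f : X ≃ₜ X) {x y : X} :
    f⁻¹ x = y ↔ x = f y := f.symm_apply_eq

/-- A continuous proper bijection of the plane is a homeomorphism of the sphere. -/
def mkS (φ : ℂ → ℂ) (hc : Continuous φ) (hb : Bijective φ)
    (ht : Tendsto φ (cocompact ℂ) (cocompact ℂ)) : S ≃ₜ S :=
  Continuous.homeoOfEquivCompactToT2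
    (f := (Equiv.ofBijective (OnePoint.map φ) (by
      constructor
      · intro x y h
        induction x using OnePoint.rec with
        | infty =>
          induction y using OnePoint.rec with
          | infty => rfl
          | coe y => simp at h
        | coe x =>
          induction y using OnePoint.rec with
          | infty => simp at h
          | coe y =>
            rw [OnePoint.map_some, OnePoint.map_some, OnePoint.coe_eq_coe] at h
            rw [hb.1 h]
      · intro y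
        induction y using OnePoint.rec with
        | infty => exact ⟨∞, rfl⟩
        | coe y =>
          obtain ⟨x, rfl⟩ := hb.2 y
          exact ⟨x, rfl⟩) : S ≃ S))
    (OnePoint.continuous_map hc (by
      rw [coclosedCompact_eq_cocompact]
      exact ht))

@[simp] theorem mkS_coe (φ : ℂ → ℂ) (hc : Continuous φ) (hb : Bijective φ)
    (ht : Tendsto φ (cocompact ℂ) (cocompact ℂ)) (z : ℂ) : mkS φ hc hb ht (z : S) = ((φ z : ℂ) : S) :=
  rfl

@[simp] theorem mkS_infty (φ : ℂ → ℂ) (hc : Continuous φ) (hb : Bijective φ)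
    (ht : Tendsto φ (cocompact ℂ) (cocompact ℂ)) : mkS φ hc hb ht ∞ = ∞ := rfl

/-! ### The inversion -/

/-- The inversion of the sphere. -/
def invFun (x : S) : S := OnePoint.elim x ((0 : ℂ) : S) fun z => if z = 0 then ∞ else ((z⁻¹ : ℂ) : S)

theorem invFun_infty : invFun ∞ = ((0 : ℂ) : S) := rfl

theorem invFun_zero : invFun ((0 : ℂ) : S) = ∞ := if_pos rfl

theorem invFun_coe {z : ℂ} (h : z ≠ 0) : invFun (z : S) = ((z⁻¹ : ℂ) : S) := if_neg h

theorem invFun_invFun (x : S) : invFun (invFun x) = x := by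
  induction x using OnePoint.rec with
  | infty => rw [invFun_infty, invFun_zero]
  | coe z =>
    by_cases h : z = 0
    · rw [h, invFun_zero, invFun_infty]
    · rw [invFun_coe h, invFun_coe (inv_ne_zero h), inv_inv]

theorem continuous_invFun : Continuous invFun := by
  rw [continuous_iff_continuousAt]
  intro x
  induction x using OnePoint.rec with
  | infty =>
    rw [OnePoint.continuousAt_infty', invFun_infty, coclosedCompact_eq_cocompact]
    have h1 : Tendsto (fun z : ℂ => ((z⁻¹ : ℂ) : S)) (cocompact ℂ) (𝓝 ((0 : ℂ) : S)) := by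
      refine (OnePoint.continuous_coe.tendsto (0 : ℂ)).comp ?_
      rw [← cobounded_eq_cocompact]
      exact tendsto_inv₀_cobounded
    refine h1.congr' ?_
    have h2 : ∀ᶠ z : ℂ in cocompact ℂ, z ≠ 0 := by
      have := (isCompact_singleton (x := (0 : ℂ))).compl_mem_cocompact
      filter_upwards [this] with z hz
      exact hz
    filter_upwards [h2] with z hz
    rw [comp_apply, invFun_coe hz]
  | coe z =>
    rw [OnePoint.continuousAt_coe]
    by_cases h : z = 0
    · subst h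
      rw [ContinuousAt, comp_apply, invFun_zero]
      have h1 : 𝓝 (0 : ℂ) = 𝓝[≠] (0 : ℂ) ⊔ pure 0 := (nhdsNE_sup_pure (0 : ℂ)).symm
      rw [h1, tendsto_sup]
      constructor
      · have h2 : Tendsto (fun z : ℂ => ((z⁻¹ : ℂ) : S)) (𝓝[≠] 0) (𝓝 ∞) := by
          refine (OnePoint.tendsto_coe_infty (X := ℂ)).comp ?_
          rw [coclosedCompact_eq_cocompact, ← cobounded_eq_cocompact]
          exact tendsto_inv₀_nhdsNE_zero
        refine h2.congr' ?_
        filter_upwards [self_mem_nhdsWithin] with z hz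
        rw [comp_apply, invFun_coe hz]
      · rw [tendsto_pure_left]
        intro s hs
        rw [comp_apply, invFun_zero]
        exact mem_of_mem_nhds hs
    · have h1 : ContinuousAt (fun z : ℂ => ((z⁻¹ : ℂ) : S)) z :=
        OnePoint.continuous_coe.continuousAt.comp (continuousAt_inv₀ h)
      refine h1.congr ?_
      filter_upwards [isOpen_ne.mem_nhds h] with y hy
      rw [comp_apply, invFun_coe hy]

/-- The inversion as a homeomorphism. -/
def ι : S ≃ₜ S where
  toFun := invFun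
  invFun := invFun
  left_inv := invFun_invFun
  right_inv := invFun_invFun
  continuous_toFun := continuous_invFun
  continuous_invFun := continuous_invFun

theorem ι_ι (x : S) : ι (ι x) = x := invFun_invFun x

theorem ι_infty : ι ∞ = ((0 : ℂ) : S) := rfl

theorem ι_zero : ι ((0 : ℂ) : S) = ∞ := invFun_zero

theorem ι_coe {z : ℂ} (h : z ≠ 0) : ι (z : S) = ((z⁻¹ : ℂ) : S) := invFun_coe h

theorem ι_inv : ι⁻¹ = ι := rfl

theorem ι_mem_QS {x : S} : ι x ∈ QS ↔ x ∈ ES := by
  induction x using OnePoint.rec with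
  | infty =>
    rw [ι_infty, coe_mem_QS, norm_zero]
    constructor
    · intro h
      norm_num at h
    · intro h
      exact absurd h infty_mem_IQ
  | coe z =>
    by_cases h : z = 0
    · subst h
      rw [ι_zero, coe_mem_ES, norm_zero]
      exact ⟨fun _ => zero_le_one, fun _ => infty_mem_QS⟩
    · rw [ι_coe h, coe_mem_QS, coe_mem_ES, norm_inv, one_le_inv₀ (norm_pos_iff.2 h)]

theorem ι_mem_ES {x : S} : ι x ∈ ES ↔ x ∈ QS := by
  rw [← ι_mem_QS, ι_ι]

theorem ι_mem_DS {x : S} : ι x ∈ DS ↔ x ∈ IQ := by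
  rw [← not_iff_not]
  change ι x ∈ QS ↔ ¬ x ∈ ESᶜ
  rw [ι_mem_QS, mem_compl_iff, not_not]

theorem ι_mem_IQ {x : S} : ι x ∈ IQ ↔ x ∈ DS := by
  rw [← ι_mem_DS, ι_ι]

/-! ### Radial homeomorphisms -/

/-- The radial map with radial part `f`. -/
def rad (f : ℝ → ℝ) (z : ℂ) : ℂ := ((f ‖z‖ / ‖z‖ : ℝ) : ℂ) * z

theorem norm_rad {f : ℝ → ℝ} (h0 : f 0 = 0) (hf : ∀ x, 0 ≤ x → 0 ≤ f x) (z : ℂ) :
    ‖rad f z‖ = f ‖z‖ := by
  by_cases hz : z = 0
  · rw [hz, rad, mul_zero, norm_zero, h0]
  · rw [rad, norm_mul, norm_real, Real.norm_eq_abs,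
      abs_of_nonneg (div_nonneg (hf _ (norm_nonneg z)) (norm_nonneg z)),
      div_mul_cancel₀ _ (norm_ne_zero_iff.2 hz)]

theorem rad_of_eq {f : ℝ → ℝ} {z : ℂ} (h : f ‖z‖ = ‖z‖) : rad f z = z := by
  by_cases hz : z = 0
  · rw [hz, rad, mul_zero]
  · rw [rad, h, div_self (norm_ne_zero_iff.2 hz), ofReal_one, one_mul]

theorem rad_of_scale {f : ℝ → ℝ} {z : ℂ} {k : ℝ} (h : f ‖z‖ = k * ‖z‖) : rad f z = k * z := by
  by_cases hz : z = 0
  · rw [hz, rad, mul_zero, mul_zero]
  · rw [rad, h, mul_div_cancel_right₀ _ (norm_ne_zero_iff.2 hz)]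

theorem rad_rad {f g : ℝ → ℝ} (h0 : f 0 = 0) (hf : ∀ x, 0 ≤ x → 0 ≤ f x)
    (hgf : ∀ x, 0 ≤ x → g (f x) = x) (z : ℂ) : rad g (rad f z) = z := by
  by_cases hz : z = 0
  · rw [hz]
    simp [rad]
  · have hn := norm_rad h0 hf z
    have hz' := norm_ne_zero_iff.2 hz
    have hf' : f ‖z‖ ≠ 0 := by
      intro h
      have h1 := hgf ‖z‖ (norm_nonneg z)
      have h2 := hgf 0 le_rfl
      rw [h, ← h0, h2] at h1
      exact hz' (h1.symm)
    rw [rad, hn, hgf _ (norm_nonneg z), rad, ← mul_assoc, ← ofReal_mul]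
    have : ‖z‖ / f ‖z‖ * (f ‖z‖ / ‖z‖) = 1 := by field_simp
    rw [this, ofReal_one, one_mul]

theorem continuous_rad {f : ℝ → ℝ} (hc : Continuous f) (h0 : f 0 = 0)
    (hf : ∀ x, 0 ≤ x → 0 ≤ f x) : Continuous (rad f) := by
  rw [continuous_iff_continuousAt]
  intro z
  by_cases hz : z = 0
  · subst hz
    have h1 : rad f 0 = 0 := by simp [rad]
    rw [ContinuousAt, h1]
    rw [tendsto_zero_iff_norm_tendsto_zero]
    simp only [norm_rad h0 hf]
    have : Tendsto (fun z : ℂ => f ‖z‖) (𝓝 0) (𝓝 (f ‖(0 : ℂ)‖)) :=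
      (hc.comp continuous_norm).tendsto 0
    rwa [norm_zero, h0] at this
  · refine ContinuousAt.mul (continuous_ofReal.continuousAt.comp ?_) continuousAt_id
    exact (hc.comp continuous_norm).continuousAt.div continuous_norm.continuousAt
      (norm_ne_zero_iff.2 hz)

theorem orderIso_nonneg (e : ℝ ≃o ℝ) (h0 : e 0 = 0) {x : ℝ} (hx : 0 ≤ x) : 0 ≤ e x := by
  rw [← h0]
  exact e.monotone hx

theorem orderIso_symm_zero (e : ℝ ≃o ℝ) (h0 : e 0 = 0) : e.symm 0 = 0 := by
  rw [e.symm_apply_eq, h0]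

/-- The radial homeomorphism. -/
def radHomeo (e : ℝ ≃o ℝ) (h0 : e 0 = 0) : ℂ ≃ₜ ℂ where
  toFun := rad e
  invFun := rad e.symm
  left_inv := rad_rad h0 (fun _ => orderIso_nonneg e h0) fun x _ => e.symm_apply_apply x
  right_inv := rad_rad (orderIso_symm_zero e h0)
    (fun _ => orderIso_nonneg e.symm (orderIso_symm_zero e h0)) fun x _ => e.apply_symm_apply x
  continuous_toFun := continuous_rad e.continuous h0 fun _ => orderIso_nonneg e h0
  continuous_invFun := continuous_rad e.symm.continuous (orderIso_symm_zero e h0)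
    fun _ => orderIso_nonneg e.symm (orderIso_symm_zero e h0)

theorem radHomeo_apply (e : ℝ ≃o ℝ) (h0 : e 0 = 0) (z : ℂ) : radHomeo e h0 z = rad e z := rfl

theorem norm_radHomeo (e : ℝ ≃o ℝ) (h0 : e 0 = 0) (z : ℂ) : ‖radHomeo e h0 z‖ = e ‖z‖ :=
  norm_rad h0 (fun _ => orderIso_nonneg e h0) z

theorem norm_radHomeo_symm (e : ℝ ≃o ℝ) (h0 : e 0 = 0) (z : ℂ) :
    ‖(radHomeo e h0).symm z‖ = e.symm ‖z‖ :=
  norm_rad (orderIso_symm_zero e h0)
    (fun _ => orderIso_nonneg e.symm (orderIso_symm_zero e h0)) z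

/-- A piecewise linear order isomorphism which shrinks `[0, a]` to `[0, b]`. -/
theorem exists_shrink {a b c : ℝ} (hb : 0 < b) (hba : b < a) (hac : a < c) :
    ∃ e : ℝ ≃o ℝ, e 0 = 0 ∧ (∀ x, 0 ≤ x → x ≤ a → e x = b / a * x) ∧ ∀ x, c ≤ x → e x = x := by
  have ha : 0 < a := hb.trans hba
  let m : ℝ := (c - b) / (c - a)
  have hm : 1 < m := by
    rw [lt_div_iff₀ (by linarith)]
    linarith
  have hk : b / a < 1 := by rwa [div_lt_one ha]
  have hk0 : 0 < b / a := div_pos hb ha
  let f : ℝ → ℝ := fun x => min x (max (b / a * x) (b + m * (x - a)))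
  have hfc : Continuous f := by
    simp only [f]
    fun_prop
  have hfm : StrictMono f := by
    intro x y hxy
    have h1 : b / a * x < b / a * y := by gcongr
    have h2 : b + m * (x - a) < b + m * (y - a) := by gcongr
    refine lt_min ((min_le_left _ _).trans_lt hxy) ((min_le_right _ _).trans_lt ?_)
    exact max_lt (h1.trans_le (le_max_left _ _)) (h2.trans_le (le_max_right _ _))
  have hma : m * (c - a) = c - b := div_mul_cancel₀ _ (by linarith : (c - a) ≠ 0)
  have hlow : ∀ x, x ≤ 0 → f x = x := by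
    intro x hx
    refine min_eq_left (le_max_of_le_left ?_)
    nlinarith
  have hhigh : ∀ x, c ≤ x → f x = x := by
    intro x hx
    refine min_eq_left (le_max_of_le_right ?_)
    have : b + m * (x - a) - x = (m - 1) * (x - c) := by
      linear_combination hma
    nlinarith
  have hsurj : Surjective f := by
    refine hfc.surjective ?_ ?_
    · refine tendsto_id.congr' ?_
      filter_upwards [eventually_ge_atTop c] with x hx
      exact (hhigh x hx).symm
    · refine tendsto_id.congr' ?_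
      filter_upwards [eventually_le_atBot 0] with x hx
      exact (hlow x hx).symm
  refine ⟨hfm.orderIsoOfSurjective f hsurj, hlow 0 le_rfl, fun x hx0 hxa => ?_, fun x hx => hhigh x hx⟩
  change min x (max (b / a * x) (b + m * (x - a))) = b / a * x
  have h1 : b + m * (x - a) ≤ b / a * x := by
    have h2 : b / a * a = b := div_mul_cancel₀ _ ha.ne'
    nlinarith
  rw [max_eq_left h1, min_eq_right]
  nlinarith

/-! ### Lipschitz perturbations of the identity -/

/-- A small Lipschitz perturbation of the identity is a homeomorphism. -/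
theorem exists_perturb (p : ℂ → ℂ) {K : ℝ} (hK0 : 0 ≤ K) (hK : K < 1)
    (hp : ∀ x y, ‖p x - p y‖ ≤ K * ‖x - y‖) : ∃ h : ℂ ≃ₜ ℂ, ∀ z, h z = z + p z := by
  have ha : ApproximatesLinearOn (fun z => z + p z)
      ((ContinuousLinearEquiv.refl ℝ ℂ : ℂ ≃L[ℝ] ℂ) : ℂ →L[ℝ] ℂ) univ ⟨K, hK0⟩ := by
    intro x _ y _
    have h1 : x + p x - (y + p y) -
        ((ContinuousLinearEquiv.refl ℝ ℂ : ℂ ≃L[ℝ] ℂ) : ℂ →L[ℝ] ℂ) (x - y) = p x - p y := by
      simp only [ContinuousLinearEquiv.coe_refl, ContinuousLinearMap.coe_id', id_eq]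
      ring
    rw [h1]
    exact hp x y
  refine ⟨ha.toHomeomorph _ (Or.inr ?_), fun z => rfl⟩
  have h2 : ‖((ContinuousLinearEquiv.refl ℝ ℂ : ℂ ≃L[ℝ] ℂ).symm : ℂ →L[ℝ] ℂ)‖₊ = 1 := by
    rw [ContinuousLinearEquiv.refl_symm, ContinuousLinearEquiv.coe_refl]
    exact ContinuousLinearMap.nnnorm_id
  rw [h2, inv_one]
  exact hK

end Pool.Agent.V11210.SPH
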