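import Mathlib

/-!
The length-area argument for injective holomorphic maps of the disc.
-/

set_option autoImplicit false

open Complex Set Filter Topology Function MeasureTheory Metric
open scoped ENNReal

noncomputable section

namespace Pool.Agent.V11210.SPH

theorem det_mul (c : ℂ) :
    ((ContinuousLinearMap.toSpanSingleton ℂ c).restrictScalars ℝ).det = ‖c‖ ^ 2 := by
  have : (((ContinuousLinearMap.toSpanSingleton ℂ c).restrictScalars ℝ : ℂ →L[ℝ] ℂ) : ℂ →ₗ[ℝ] ℂ) =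
      ((LinearMap.toSpanSingleton ℂ ℂ c).restrictScalars ℝ) := by
    ext
    simp
  rw [ContinuousLinearMap.det, this, LinearMap.det_restrictScalars]
  simp [Algebra.norm_complex_apply, Complex.normSq_eq_norm_sq]

/-- The area formula. -/
theorem area {f : ℂ → ℂ} (hf : DifferentiableOn ℂ f (ball 0 1)) (hi : InjOn f (ball 0 1)) :
    ∫⁻ z in ball (0 : ℂ) 1, ENNReal.ofReal (‖deriv f z‖ ^ 2) = volume (f '' ball 0 1) := by
  have h1 := MeasureTheory.lintegral_abs_det_fderiv_eq_addHaar_image volume measurableSet_ball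
    (f := f) (f' := fun z => (ContinuousLinearMap.toSpanSingleton ℂ (deriv f z)).restrictScalars ℝ)
    (fun z hz => ((hf.differentiableAt (isOpen_ball.mem_nhds hz)).hasDerivAt.hasFDerivAt.restrictScalars
      ℝ).hasFDerivWithinAt) hi
  rw [← h1]
  apply lintegral_congr
  intro z
  rw [det_mul, abs_of_nonneg (sq_nonneg _)]

/-- The density. -/
def dens (f : ℂ → ℂ) : ℂ → ℝ≥0∞ :=
  (ball (0 : ℂ) 1).indicator fun z => ENNReal.ofReal (‖deriv f z‖ ^ 2)

theorem measurable_dens (f : ℂ → ℂ) : Measurable (dens f) := by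
  refine Measurable.indicator ?_ measurableSet_ball
  have := measurable_deriv f
  fun_prop

theorem lintegral_dens {f : ℂ → ℂ} (hf : DifferentiableOn ℂ f (ball 0 1))
    (hi : InjOn f (ball 0 1)) : ∫⁻ z, dens f z = volume (f '' ball 0 1) := by
  rw [← area hf hi, dens, lintegral_indicator measurableSet_ball]

/-- The arc around the boundary point. -/
def arc (ζ : ℂ) (r φ : ℝ) : ℂ := ζ * (1 - r * exp (φ * I))

theorem polar_area {f : ℂ → ℂ} (hf : DifferentiableOn ℂ f (ball 0 1))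
    (hi : InjOn f (ball 0 1)) {ζ : ℂ} (hζ : ‖ζ‖ = 1) :
    ∫⁻ r in Ioi (0 : ℝ), ∫⁻ φ in Ioo (-Real.pi) Real.pi, ENNReal.ofReal r * dens f (arc ζ r φ) =
      volume (f '' ball 0 1) := by
  have hm := measurable_dens f
  rw [← lintegral_dens hf hi]
  have h1 : ∫⁻ z, dens f z = ∫⁻ z, dens f (ζ * z) := by
    let R : ℂ ≃ₗᵢ[ℝ] ℂ := rotation ⟨ζ, mem_sphere_zero_iff_norm.2 hζ⟩
    have := R.measurePreserving.lintegral_comp_emb R.toHomeomorph.measurableEmbedding (dens f)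
    rw [← this]
    rfl
  have h2 : ∫⁻ z, dens f (ζ * z) = ∫⁻ z, dens f (ζ * (1 - z)) :=
    (lintegral_sub_left_eq_self (fun z => dens f (ζ * z)) 1).symm
  rw [h1, h2, ← Complex.lintegral_comp_polarCoord_symm, polarCoord_target]
  rw [Measure.volume_eq_prod, setLIntegral_prod]
  · simp only [smul_eq_mul, Complex.polarCoord_symm_apply, arc, exp_mul_I]
    simp
  · refine Measurable.aemeasurable ?_
    have h3 : Measurable fun p : ℝ × ℝ => Complex.polarCoord.symm p := by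
      simp only [Complex.polarCoord_symm_apply]
      fun_prop
    simp only [smul_eq_mul]
    fun_prop

theorem lintegral_inv_eq_top {c δ : ℝ} (hc : 0 < c) (hδ : 0 < δ) :
    ∫⁻ r in Ioo 0 δ, ENNReal.ofReal (c / r) = ⊤ := by
  by_contra h
  have h1 : IntegrableOn (fun r : ℝ => c / r) (Ioo 0 δ) := by
    refine ⟨by fun_prop, ?_⟩
    rw [hasFiniteIntegral_iff_ofReal, lt_top_iff_ne_top]
    · exact h
    · filter_upwards [ae_restrict_mem measurableSet_Ioo] with r hr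
      exact (div_pos hc hr.1).le
  have h2 : IntervalIntegrable (fun r : ℝ => r⁻¹) volume 0 δ := by
    rw [intervalIntegrable_iff_integrableOn_Ioo_of_le hδ.le]
    have h3 := h1.const_mul (c⁻¹)
    refine h3.congr ?_
    filter_upwards with r
    field_simp
  rw [intervalIntegrable_inv_iff] at h2
  rcases h2 with h2 | h2
  · exact hδ.ne h2
  · exact h2 left_mem_uIcc

theorem arc_mem_ball {ζ : ℂ} (hζ : ‖ζ‖ = 1) {r : ℝ} (hr : 0 < r) (φ : ℝ) :
    arc ζ r φ ∈ ball (0 : ℂ) 1 ↔ r / 2 < Real.cos φ := by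
  rw [mem_ball_zero_iff, arc, norm_mul, hζ, one_mul]
  have h : ‖1 - (r : ℂ) * exp (φ * I)‖ ^ 2 = 1 + r ^ 2 - 2 * r * Real.cos φ := by
    have h : 1 - (r : ℂ) * exp (φ * I) =
        ((1 - r * Real.cos φ : ℝ) : ℂ) + ((- r * Real.sin φ : ℝ) : ℂ) * I := by
      rw [exp_mul_I, ← ofReal_cos, ← ofReal_sin]
      push_cast
      ring
    rw [h, ← Complex.normSq_eq_norm_sq, normSq_add_mul_I]
    linear_combination r ^ 2 * Real.sin_sq_add_cos_sq φ
  rw [← sq_lt_one_iff₀ (norm_nonneg _), h]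
  constructor
  · intro h'
    have : r * (r - 2 * Real.cos φ) < 0 := by linarith
    have := (pos_iff_neg_of_mul_neg this).1 hr
    linarith
  · intro h'
    have : r * (r - 2 * Real.cos φ) < 0 := mul_neg_of_pos_of_neg hr (by linarith)
    linarith

theorem exists_arc {ζ : ℂ} (hζ : ‖ζ‖ = 1) {r : ℝ} (hr : 0 < r) {z : ℂ} (hz : z ∈ ball (0 : ℂ) 1)
    (hzr : ‖z - ζ‖ = r) : ∃ φ : ℝ, |φ| < Real.pi / 2 ∧ arc ζ r φ = z := by
  have hζ0 : ζ ≠ 0 := norm_ne_zero_iff.1 (by rw [hζ]; exact one_ne_zero)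
  set u := 1 - z / ζ with hu
  have hur : ‖u‖ = r := by
    have : u = -(z - ζ) / ζ := by rw [hu]; field_simp; ring
    rw [this, norm_div, norm_neg, hzr, hζ, div_one]
  have harc : arc ζ r (arg u) = z := by
    rw [arc, ← hur, norm_mul_exp_arg_mul_I, hu]
    field_simp
    ring
  refine ⟨arg u, ?_, harc⟩
  have h1 := (arc_mem_ball hζ hr (arg u)).1 (harc ▸ hz)
  have hu0 : u ≠ 0 := norm_ne_zero_iff.1 (by rw [hur]; exact hr.ne')
  rw [abs_arg_lt_pi_div_two_iff]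
  left
  rw [cos_arg hu0, hur] at h1
  have h2 : 0 < u.re / r := by linarith
  exact (div_pos_iff_of_pos_right hr).1 h2

theorem arc_mid {ζ : ℂ} (hζ : ‖ζ‖ = 1) {r : ℝ} (hr : 0 < r) {φ₁ φ₂ φ : ℝ}
    (h₁ : |φ₁| < Real.pi / 2) (h₂ : |φ₂| < Real.pi / 2) (hb₁ : arc ζ r φ₁ ∈ ball (0 : ℂ) 1)
    (hb₂ : arc ζ r φ₂ ∈ ball (0 : ℂ) 1) (h : φ ∈ Icc φ₁ φ₂) : arc ζ r φ ∈ ball (0 : ℂ) 1 := by
  rw [arc_mem_ball hζ hr] at *
  have hpi := Real.pi_pos
  rcases le_total |φ₁| |φ₂| with h' | h'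
  · have : |φ| ≤ |φ₂| := by
      rw [abs_le]
      constructor
      · have := neg_abs_le φ₁
        linarith [h.1]
      · exact h.2.trans (le_abs_self _)
    refine hb₂.trans_le ?_
    rw [← Real.cos_abs φ₂, ← Real.cos_abs φ]
    exact Real.cos_le_cos_of_nonneg_of_le_pi (abs_nonneg _) (by linarith) this
  · have : |φ| ≤ |φ₁| := by
      rw [abs_le]
      constructor
      · have := neg_abs_le φ₁
        linarith [h.1]
      · have := le_abs_self φ₂
        linarith [h.2]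
    refine hb₁.trans_le ?_
    rw [← Real.cos_abs φ₁, ← Real.cos_abs φ]
    exact Real.cos_le_cos_of_nonneg_of_le_pi (abs_nonneg _) (by linarith) this

theorem hasDerivAt_arc (ζ : ℂ) (r φ : ℝ) :
    HasDerivAt (fun φ : ℝ => arc ζ r φ) (-(ζ * r * exp (φ * I) * I)) φ := by
  have h1 : HasDerivAt (fun φ : ℝ => (φ : ℂ) * I) (1 * I) φ :=
    (ofRealCLM.hasDerivAt (x := φ)).mul_const I
  have h2 := (((h1.cexp).const_mul (r : ℂ)).const_sub 1).const_mul ζ
  refine h2.congr_deriv ?_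
  ring

theorem arc_bound {f : ℂ → ℂ} (hf : DifferentiableOn ℂ f (ball 0 1)) {ζ : ℂ} (hζ : ‖ζ‖ = 1)
    {r η : ℝ} (hr : 0 < r) (hη : 0 < η) {φ₁ φ₂ : ℝ} (h₁ : |φ₁| < Real.pi / 2)
    (h₂ : |φ₂| < Real.pi / 2) (hb₁ : arc ζ r φ₁ ∈ ball (0 : ℂ) 1)
    (hb₂ : arc ζ r φ₂ ∈ ball (0 : ℂ) 1) (h12 : φ₁ ≤ φ₂)
    (hbig : η < ‖f (arc ζ r φ₂) - f (arc ζ r φ₁)‖) :
    ENNReal.ofReal ((η ^ 2 / (2 * Real.pi)) / r) ≤
      ∫⁻ φ in Ioo (-Real.pi) Real.pi, ENNReal.ofReal r * dens f (arc ζ r φ) := by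
  have hpi := Real.pi_pos
  have hmem : ∀ φ ∈ Icc φ₁ φ₂, arc ζ r φ ∈ ball (0 : ℂ) 1 := fun φ hφ =>
    arc_mid hζ hr h₁ h₂ hb₁ hb₂ hφ
  have hdc : ContinuousOn (deriv f) (ball 0 1) := (hf.deriv isOpen_ball).continuousOn
  have harc : Continuous (fun φ : ℝ => arc ζ r φ) := by
    unfold arc
    fun_prop
  have hgc : ContinuousOn (fun φ : ℝ => deriv f (arc ζ r φ)) (Icc φ₁ φ₂) :=
    hdc.comp harc.continuousOn hmem
  have hgc' : ContinuousOn (fun φ : ℝ => deriv f (arc ζ r φ) * -(ζ * r * exp (φ * I) * I))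
      (Icc φ₁ φ₂) := hgc.mul (by fun_prop)
  have hI : ∀ g : ℝ → ℂ, ContinuousOn g (Icc φ₁ φ₂) → IntervalIntegrable g volume φ₁ φ₂ :=
    fun g hg => (hg.mono (by rw [uIcc_of_le h12])).intervalIntegrable
  have hI' : ∀ g : ℝ → ℝ, ContinuousOn g (Icc φ₁ φ₂) → IntervalIntegrable g volume φ₁ φ₂ :=
    fun g hg => (hg.mono (by rw [uIcc_of_le h12])).intervalIntegrable
  have hftc := intervalIntegral.integral_eq_sub_of_hasDerivAt (a := φ₁) (b := φ₂)
    (f := fun φ : ℝ => f (arc ζ r φ))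
    (f' := fun φ : ℝ => deriv f (arc ζ r φ) * -(ζ * r * exp (φ * I) * I))
    (fun φ hφ => by
      rw [uIcc_of_le h12] at hφ
      have h3 := (hf.differentiableAt (isOpen_ball.mem_nhds (hmem φ hφ))).hasDerivAt
      refine (h3.scomp φ (hasDerivAt_arc ζ r φ)).congr_deriv ?_
      rw [smul_eq_mul, mul_comm]) (hI _ hgc')
  rw [← hftc] at hbig
  set J := ∫ φ in φ₁..φ₂, r * ‖deriv f (arc ζ r φ)‖ ^ 2 with hJ
  have hnorm : ∀ φ : ℝ, ‖deriv f (arc ζ r φ) * -(ζ * r * exp (φ * I) * I)‖ =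
      r * ‖deriv f (arc ζ r φ)‖ := by
    intro φ
    rw [norm_mul, norm_neg, norm_mul, norm_mul, norm_mul, norm_I, norm_exp_ofReal_mul_I, hζ,
      norm_real, Real.norm_eq_abs, abs_of_pos hr]
    ring
  have h4 : ‖∫ φ in φ₁..φ₂, deriv f (arc ζ r φ) * -(ζ * r * exp (φ * I) * I)‖ ≤
      ∫ φ in φ₁..φ₂, r * ‖deriv f (arc ζ r φ)‖ := by
    have := intervalIntegral.norm_integral_le_integral_norm (μ := volume)
      (f := fun φ : ℝ => deriv f (arc ζ r φ) * -(ζ * r * exp (φ * I) * I)) h12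
    simpa only [hnorm] using this
  have h5 : ∫ φ in φ₁..φ₂, r * ‖deriv f (arc ζ r φ)‖ ≤
      ∫ φ in φ₁..φ₂, ((Real.pi / η * r) * (r * ‖deriv f (arc ζ r φ)‖ ^ 2) + η / (4 * Real.pi)) := by
    refine intervalIntegral.integral_mono_on h12 (hI' _ ?_) (hI' _ ?_) fun φ _ => ?_
    · exact continuousOn_const.mul hgc.norm
    · exact (continuousOn_const.mul (continuousOn_const.mul (hgc.norm.pow 2))).add continuousOn_const
    · have h6 := sq_nonneg (2 * Real.pi * (r * ‖deriv f (arc ζ r φ)‖) - η)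
      have h7 : 0 < 4 * Real.pi * η := by positivity
      have h8 : (Real.pi / η * r) * (r * ‖deriv f (arc ζ r φ)‖ ^ 2) + η / (4 * Real.pi) -
          r * ‖deriv f (arc ζ r φ)‖ =
          (2 * Real.pi * (r * ‖deriv f (arc ζ r φ)‖) - η) ^ 2 / (4 * Real.pi * η) := by
        field_simp
        ring
      have h9 := div_nonneg h6 h7.le
      linarith
  have h6 : ∫ φ in φ₁..φ₂, ((Real.pi / η * r) * (r * ‖deriv f (arc ζ r φ)‖ ^ 2) +
      η / (4 * Real.pi)) = (Real.pi / η * r) * J + η / (4 * Real.pi) * (φ₂ - φ₁) := by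
    rw [intervalIntegral.integral_add, intervalIntegral.integral_const_mul,
      intervalIntegral.integral_const, smul_eq_mul, mul_comm (φ₂ - φ₁)]
    · exact hI' _ (continuousOn_const.mul (continuousOn_const.mul (hgc.norm.pow 2)))
    · exact hI' _ continuousOn_const
  have h7 : φ₂ - φ₁ ≤ Real.pi := by
    have := abs_lt.1 h₁
    have := abs_lt.1 h₂
    linarith
  have h8 : η < Real.pi / η * r * J + η / 4 := by
    have h9 : η / (4 * Real.pi) * (φ₂ - φ₁) ≤ η / (4 * Real.pi) * Real.pi := by gcongr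
    have h10 : η / (4 * Real.pi) * Real.pi = η / 4 := by field_simp
    linarith
  have h9 : (η ^ 2 / (2 * Real.pi)) / r ≤ J := by
    have h10 : η ^ 2 * (3 / 4) < Real.pi * r * J := by
      have h11 : η * (3 / 4) < Real.pi / η * r * J := by linarith
      have h12 : η * (η * (3 / 4)) < η * (Real.pi / η * r * J) := by gcongr
      have h13 : η * (Real.pi / η * r * J) = Real.pi * r * J := by field_simp
      nlinarith
    rw [div_div, div_le_iff₀ (by positivity)]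
    nlinarith [sq_nonneg η]
  calc ENNReal.ofReal ((η ^ 2 / (2 * Real.pi)) / r) ≤ ENNReal.ofReal J :=
        ENNReal.ofReal_le_ofReal h9
    _ = ∫⁻ φ in Ioc φ₁ φ₂, ENNReal.ofReal (r * ‖deriv f (arc ζ r φ)‖ ^ 2) := by
        rw [hJ, intervalIntegral.integral_of_le h12, ofReal_integral_eq_lintegral_ofReal]
        · have := hI' (fun φ => r * ‖deriv f (arc ζ r φ)‖ ^ 2)
            (continuousOn_const.mul (hgc.norm.pow 2))
          rwa [intervalIntegrable_iff_integrableOn_Ioc_of_le h12] at this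
        · filter_upwards with φ
          positivity
    _ = ∫⁻ φ in Ioc φ₁ φ₂, ENNReal.ofReal r * dens f (arc ζ r φ) := by
        refine setLIntegral_congr_fun measurableSet_Ioc fun φ hφ => ?_
        rw [dens, indicator_of_mem (hmem φ ⟨hφ.1.le, hφ.2⟩), ENNReal.ofReal_mul hr.le]
    _ ≤ _ := by
        refine lintegral_mono_set fun φ hφ => ?_
        have := abs_lt.1 h₁
        have := abs_lt.1 h₂
        exact ⟨by linarith [hφ.1], by linarith [hφ.2]⟩

/-- The length-area principle: close to a boundary point there are circular crosscuts whose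
images have small diameter. -/
theorem exists_small_crosscut {f : ℂ → ℂ} (hf : DifferentiableOn ℂ f (ball 0 1))
    (hi : InjOn f (ball 0 1)) (hv : volume (f '' ball 0 1) ≠ ⊤) {ζ : ℂ} (hζ : ‖ζ‖ = 1) {δ η : ℝ}
    (hδ : 0 < δ) (hη : 0 < η) :
    ∃ r, 0 < r ∧ r < δ ∧ ∀ z₁ ∈ ball (0 : ℂ) 1, ∀ z₂ ∈ ball (0 : ℂ) 1, ‖z₁ - ζ‖ = r →
      ‖z₂ - ζ‖ = r → ‖f z₂ - f z₁‖ ≤ η := by
  by_contra hcon
  push Not at hcon
  refine hv (top_le_iff.1 ?_)
  rw [← polar_area hf hi hζ, ← lintegral_inv_eq_top (c := η ^ 2 / (2 * Real.pi))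
    (by positivity) hδ]
  refine (setLIntegral_mono' measurableSet_Ioo fun r hr => ?_).trans
    (lintegral_mono_set (s := Ioo 0 δ) Ioo_subset_Ioi_self)
  obtain ⟨z₁, hz₁, z₂, hz₂, h₁, h₂, hb⟩ := hcon r hr.1 hr.2
  obtain ⟨φ₁, hφ₁, rfl⟩ := exists_arc hζ hr.1 hz₁ h₁
  obtain ⟨φ₂, hφ₂, rfl⟩ := exists_arc hζ hr.1 hz₂ h₂
  rcases le_total φ₁ φ₂ with h | h
  · exact arc_bound hf hζ hr.1 hη hφ₁ hφ₂ hz₁ hz₂ h hb
  · refine arc_bound hf hζ hr.1 hη hφ₂ hφ₁ hz₂ hz₁ h ?_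
    rwa [norm_sub_rev]

end Pool.Agent.V11210.SPH
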