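import Pool.Agent.V11210.SPH.Conj

/-!
The reflection of the sphere is not isotopic to the identity.
-/

set_option autoImplicit false

open Complex Set Filter Topology Function Metric
open scoped OnePoint ComplexConjugate

noncomputable section

namespace Pool.Agent.V11210.SPH

/-- Homogeneous coordinates. -/
def rep (x : S) : ℂ × ℂ := OnePoint.elim x (1, 0) fun z => (z, 1)

/-- The determinant. -/
def dt (a b : ℂ × ℂ) : ℂ := a.1 * b.2 - b.1 * a.2

theorem rep_coe (z : ℂ) : rep (z : S) = (z, 1) := rfl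

theorem rep_infty : rep ∞ = (1, 0) := rfl

theorem dt_rep_ne {x y : S} (h : x ≠ y) : dt (rep x) (rep y) ≠ 0 := by
  induction x using OnePoint.rec with
  | infty =>
    induction y using OnePoint.rec with
    | infty => exact absurd rfl h
    | coe y => simp [rep_coe, rep_infty, dt]
  | coe x =>
    induction y using OnePoint.rec with
    | infty => simp [rep_coe, rep_infty, dt]
    | coe y =>
      simp only [rep_coe, dt, mul_one]
      rw [sub_ne_zero]
      rintro rfl
      exact h rfl

theorem dt_smul_left (c : ℂ) (a b : ℂ × ℂ) : dt (c • a) b = c * dt a b := by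
  simp only [dt, Prod.smul_fst, Prod.smul_snd, smul_eq_mul]
  ring

theorem dt_smul_right (c : ℂ) (a b : ℂ × ℂ) : dt a (c • b) = c * dt a b := by
  simp only [dt, Prod.smul_fst, Prod.smul_snd, smul_eq_mul]
  ring

/-- The cross ratio in homogeneous coordinates. -/
def crh (a b c d : ℂ × ℂ) : ℂ := dt a b * dt d c / (dt a c * dt d b)

theorem crh_smul {k l m n : ℂ} (hk : k ≠ 0) (hl : l ≠ 0) (hm : m ≠ 0) (hn : n ≠ 0)
    (a b c d : ℂ × ℂ) : crh (k • a) (l • b) (m • c) (n • d) = crh a b c d := by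
  simp only [crh, dt_smul_left, dt_smul_right]
  have h1 : l * (k * dt a b) * (m * (n * dt d c)) = (k * l * m * n) * (dt a b * dt d c) := by ring
  have h2 : m * (k * dt a c) * (l * (n * dt d b)) = (k * l * m * n) * (dt a c * dt d b) := by ring
  rw [h1, h2, mul_div_mul_left]
  exact mul_ne_zero (mul_ne_zero (mul_ne_zero hk hl) hm) hn

/-- The cross ratio. -/
def cr (x y z w : S) : ℂ := crh (rep x) (rep y) (rep z) (rep w)

/-- Local continuous lifts. -/
theorem exists_local_lift (x₀ : S) : ∃ (L : S → ℂ × ℂ) (c : S → ℂ), ContinuousAt L x₀ ∧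
    ∀ᶠ x in 𝓝 x₀, c x ≠ 0 ∧ rep x = c x • L x := by
  by_cases h : x₀ = ∞
  · refine ⟨fun x => (1, toC (ι x)), fun x => OnePoint.elim x 1 id, ?_, ?_⟩
    · refine continuousAt_const.prodMk ?_
      refine ContinuousAt.comp (f := fun x => ι x) (continuousAt_toC ?_) ι.continuous.continuousAt
      rw [h, ι_infty]
      exact OnePoint.coe_ne_infty 0
    · have h0 : ∀ᶠ x in 𝓝 x₀, x ≠ ((0 : ℂ) : S) := by
        refine isOpen_ne.mem_nhds ?_
        rw [h]
        exact OnePoint.infty_ne_coe 0
      filter_upwards [h0] with x hx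
      induction x using OnePoint.rec with
      | infty =>
        refine ⟨one_ne_zero, ?_⟩
        rw [rep_infty, ι_infty]
        change ((1 : ℂ), (0 : ℂ)) = (1 : ℂ) • ((1 : ℂ), toC ((0 : ℂ) : S))
        rw [toC_coe, one_smul]
      | coe z =>
        have hz : z ≠ 0 := fun h => hx (by rw [h])
        refine ⟨hz, ?_⟩
        rw [rep_coe, ι_coe hz, toC_coe]
        change (z, (1 : ℂ)) = z • ((1 : ℂ), z⁻¹)
        ext
        · simp
        · simp [hz]
  · refine ⟨fun x => (toC x, 1), fun _ => 1, (continuousAt_toC h).prodMk continuousAt_const, ?_⟩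
    filter_upwards [isOpen_ne.mem_nhds h] with x hx
    refine ⟨one_ne_zero, ?_⟩
    rw [one_smul]
    conv_lhs => rw [← coe_toC hx, rep_coe]

theorem continuousAt_dt {A : Type} [TopologicalSpace A] {f g : A → ℂ × ℂ} {a : A}
    (hf : ContinuousAt f a) (hg : ContinuousAt g a) : ContinuousAt (fun x => dt (f x) (g x)) a := by
  simp only [dt]
  exact (hf.fst.mul hg.snd).sub (hg.fst.mul hf.snd)

theorem continuousAt_cr {A : Type} [TopologicalSpace A] {x y z w : A → S} {a : A}
    (hx : ContinuousAt x a) (hy : ContinuousAt y a) (hz : ContinuousAt z a)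
    (hw : ContinuousAt w a) (hxz : x a ≠ z a) (hwy : w a ≠ y a) :
    ContinuousAt (fun t => cr (x t) (y t) (z t) (w t)) a := by
  obtain ⟨Lx, cx, hLx, ex⟩ := exists_local_lift (x a)
  obtain ⟨Ly, cy, hLy, ey⟩ := exists_local_lift (y a)
  obtain ⟨Lz, cz, hLz, ez⟩ := exists_local_lift (z a)
  obtain ⟨Lw, cw, hLw, ew⟩ := exists_local_lift (w a)
  have h1 : ContinuousAt (fun t => crh (Lx (x t)) (Ly (y t)) (Lz (z t)) (Lw (w t))) a := by
    have kx : ContinuousAt (fun t => Lx (x t)) a := hLx.comp hx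
    have ky : ContinuousAt (fun t => Ly (y t)) a := hLy.comp hy
    have kz : ContinuousAt (fun t => Lz (z t)) a := hLz.comp hz
    have kw : ContinuousAt (fun t => Lw (w t)) a := hLw.comp hw
    simp only [crh]
    refine ((continuousAt_dt kx ky).mul (continuousAt_dt kw kz)).div
      ((continuousAt_dt kx kz).mul (continuousAt_dt kw ky)) (mul_ne_zero ?_ ?_)
    · have h2 := dt_rep_ne hxz
      rw [ex.self_of_nhds.2, ez.self_of_nhds.2, dt_smul_left, dt_smul_right] at h2
      exact right_ne_zero_of_mul (right_ne_zero_of_mul h2)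
    · have h2 := dt_rep_ne hwy
      rw [ew.self_of_nhds.2, ey.self_of_nhds.2, dt_smul_left, dt_smul_right] at h2
      exact right_ne_zero_of_mul (right_ne_zero_of_mul h2)
  refine h1.congr ?_
  filter_upwards [hx.eventually ex, hy.eventually ey, hz.eventually ez, hw.eventually ew]
    with t tx ty tz tw
  rw [cr, tx.2, ty.2, tz.2, tw.2, crh_smul tx.1 ty.1 tz.1 tw.1]

theorem cr_ne {x y z w : S} (hxy : x ≠ y) (hwz : w ≠ z) (hxz : x ≠ z) (hwy : w ≠ y) :
    cr x y z w ≠ 0 :=
  div_ne_zero (mul_ne_zero (dt_rep_ne hxy) (dt_rep_ne hwz))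
    (mul_ne_zero (dt_rep_ne hxz) (dt_rep_ne hwy))

theorem exists_log_homotopy' {A : Type} [TopologicalSpace A] (N : unitInterval × A → ℂ)
    (hN : Continuous N) (h0 : ∀ p, N p ≠ 0) (h1 : ∀ a, N (0, a) = 1) :
    ∃ δ : unitInterval × A → ℂ, Continuous δ ∧ ∀ p, exp (δ p) = N p := by
  let H : C(unitInterval × A, {z : ℂ // z ≠ 0}) := ⟨fun a => ⟨N a, h0 a⟩, by fun_prop⟩
  let f : C(A, ℂ) := ⟨fun _ => 0, continuous_const⟩
  have H0 : ∀ a, H (0, a) = (⟨exp (f a), exp_ne_zero _⟩ : {z : ℂ // z ≠ 0}) := by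
    intro a
    refine Subtype.ext ?_
    simp [H, f, h1]
  refine ⟨isCoveringMap_exp.liftHomotopy H f H0, ContinuousMap.continuous _, ?_⟩
  intro p
  have := congrFun (isCoveringMap_exp.liftHomotopy_lifts H f H0) p
  exact congrArg Subtype.val this

theorem no_log (δ : ℝ → ℂ) (hδ : Continuous δ) (hper : δ (2 * Real.pi) = δ 0)
    (h : ∀ θ : ℝ, exp (δ θ) = exp (-(2 * θ * I))) : False := by
  have h1 : (fun θ : ℝ => δ θ + 2 * θ * I) = fun _ => δ 0 := by
    refine isCoveringMap_exp.eq_of_comp_eq (by fun_prop) continuous_const ?_ 0 (by simp)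
    funext θ
    refine Subtype.ext ?_
    simp only [comp_apply]
    rw [exp_add, h, ← exp_add]
    have h2 := h 0
    simp only [ofReal_zero, mul_zero, zero_mul, neg_zero, exp_zero] at h2
    rw [h2]
    simp
  have h2 := congrFun h1 (2 * Real.pi)
  simp only [hper] at h2
  have h3 : (2 : ℂ) * ((2 * Real.pi : ℝ) : ℂ) * I = 0 := by
    linear_combination h2
  have hpi : (Real.pi : ℂ) ≠ 0 := ofReal_ne_zero.2 Real.pi_ne_zero
  simp at h3

/-- The reflection is not isotopic to the identity. -/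
theorem not_isotopic (H : unitInterval → (S ≃ₜ S))
    (hH : Continuous fun p : unitInterval × S => H p.1 p.2) (h0 : H 0 = 1)
    (h1 : H 1 = (half * conjS)⁻¹) : False := by
  have hc : ∀ x : S, Continuous fun p : unitInterval × Circle => H p.1 x := fun x =>
    hH.comp (by fun_prop : Continuous fun p : unitInterval × Circle => (p.1, x))
  have hcu : Continuous fun p : unitInterval × Circle => H p.1 ((p.2 : ℂ) : S) := by
    have h2 : Continuous fun p : unitInterval × Circle => ((p.2 : ℂ) : S) :=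
      OnePoint.continuous_coe.comp (by fun_prop)
    exact hH.comp (continuous_fst.prodMk h2)
  let M : unitInterval × Circle → ℂ := fun p =>
    cr (H p.1 ((p.2 : ℂ) : S)) (H p.1 ((0 : ℂ) : S)) (H p.1 ∞) (H p.1 ((2 : ℂ) : S))
  have hu0 : ∀ u : Circle, ((u : ℂ) : S) ≠ ((0 : ℂ) : S) := fun u h =>
    Circle.coe_ne_zero u (OnePoint.coe_injective h)
  have hu2 : ((2 : ℂ) : S) ≠ ((0 : ℂ) : S) := fun h => two_ne_zero (OnePoint.coe_injective h)
  have hM : Continuous M := by
    rw [continuous_iff_continuousAt]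
    intro p
    exact continuousAt_cr hcu.continuousAt (hc _).continuousAt (hc _).continuousAt
      (hc _).continuousAt ((H p.1).injective.ne (OnePoint.coe_ne_infty _))
      ((H p.1).injective.ne hu2)
  have hM0 : ∀ p, M p ≠ 0 := fun p => cr_ne ((H p.1).injective.ne (hu0 _))
    ((H p.1).injective.ne (OnePoint.coe_ne_infty _))
    ((H p.1).injective.ne (OnePoint.coe_ne_infty _)) ((H p.1).injective.ne hu2)
  have hMz : ∀ u : Circle, M (0, u) = u / 2 := by
    intro u
    simp only [M, h0]
    change cr ((u : ℂ) : S) ((0 : ℂ) : S) ∞ ((2 : ℂ) : S) = _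
    rw [cr, crh, rep_coe, rep_coe, rep_coe, rep_infty]
    simp [dt]
  have hMo : ∀ u : Circle, M (1, u) = conj (u : ℂ) / 2 := by
    intro u
    have e1 : ∀ z : ℂ, (half * conjS)⁻¹ (z : S) = ((2 * conj z : ℂ) : S) := by
      intro z
      rw [inv_eq_iff', mul_apply', conjS_coe, half_coe, map_mul, map_ofNat, conj_conj]
      congr 1
      ring
    have e2 : (half * conjS)⁻¹ ∞ = ∞ := by
      rw [inv_eq_iff']
      rfl
    simp only [M, h1]
    rw [e1, e1, e1, e2, cr, crh, rep_coe, rep_coe, rep_coe, rep_infty]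
    have h4 : conj (2 : ℂ) = 2 := map_ofNat (starRingEnd ℂ) 2
    simp only [dt, h4, map_zero]
    ring
  obtain ⟨δ, hδ, hδe⟩ := exists_log_homotopy' (fun p => M p / ((p.2 : ℂ) / 2))
    (hM.div (by fun_prop) fun p => div_ne_zero (Circle.coe_ne_zero _) two_ne_zero)
    (fun p => div_ne_zero (hM0 p) (div_ne_zero (Circle.coe_ne_zero _) two_ne_zero))
    (fun u => by
      simp only [hMz]
      exact div_self (div_ne_zero (Circle.coe_ne_zero _) two_ne_zero))
  refine no_log (fun θ => δ (1, Circle.exp θ)) ?_ ?_ ?_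
  · exact hδ.comp (continuous_const.prodMk Circle.exp.continuous)
  · simp
  · intro θ
    rw [hδe, hMo, Circle.coe_exp, ← exp_conj, div_div_div_cancel_right₀ two_ne_zero, ← exp_sub]
    congr 1
    simp
    ring

end Pool.Agent.V11210.SPH
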