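import Pool.Agent.V11210.SPH.Conj

/-!
Some product of a conjugate of `A` and a conjugate of `B` has north-south dynamics.
-/

set_option autoImplicit false

open Complex Set Filter Topology Function Metric
open scoped OnePoint ComplexConjugate

noncomputable section

namespace Pool.Agent.V11210.SPH

theorem inv_fix' {k : S ≃ₜ S} {x : S} (h : k x = x) : k⁻¹ x = x := by rw [inv_eq_iff', h]

theorem Attr.image {T : S ≃ₜ S} {X X' : Set S} {q : S} (h : Attr T X X' q) (hX : X' ⊆ X) :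
    Attr T X (T '' X) q :=
  ⟨⟨q, hX h.mem, h.fix⟩, h.fix, fun x hx => ⟨x, hx, rfl⟩, h.shr⟩

/-- The first modification: after replacing `A` by a conjugate, `A B` has an attracting fixed
point. -/
theorem exists_first (A B : S ≃ₜ S) (hA : ∀ x ∈ ES, A x ∈ IQ) (hB : ∀ x ∈ QS, B x ∈ DS) :
    ∃ g : S ≃ₜ S, (∀ x ∈ ES, (g * A * g⁻¹)⁻¹ x ∈ IQ) ∧
      ∃ q, Attr (g * A * g⁻¹ * B) QS IQ q := by
  obtain ⟨k, hk, q, hq⟩ := exists_attr B A hB hA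
  have hA' : ∀ x ∈ ES, A⁻¹ x ∈ IQ := by
    intro x hx hcon
    have h1 := hA _ hcon
    rw [apply_inv_self'] at h1
    exact h1 hx
  have hkD : ∀ x ∈ DS, k x ∈ DS := by
    intro x hx
    by_contra hcon
    have h1 := k.injective (hk _ hcon)
    exact hcon (h1.symm ▸ hx)
  set g : S ≃ₜ S := A * k * A⁻¹ with hg
  have hgx : ∀ x, g x = A (k (A⁻¹ x)) := fun x => rfl
  have hgE : ∀ x ∈ ES, g x = x := by
    intro x hx
    rw [hgx, hk _ (IQ_sub_QS (hA' x hx)), apply_inv_self']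
  have hgI : ∀ x ∈ IQ, g x ∈ IQ := by
    intro x hx
    rw [hgx]
    by_cases h : A⁻¹ x ∈ DS
    · exact hA _ (DS_sub_ES (hkD _ h))
    · rw [hk _ h, apply_inv_self']
      exact hx
  have hA1 : ∀ x ∈ ES, (g * A * g⁻¹) x = A (k x) := by
    intro x hx
    rw [mul_apply', mul_apply', inv_fix' (hgE x hx), hgx, inv_apply_self']
  refine ⟨g, fun x hx => ?_, q, hq.congr IQ_sub_QS fun x hx => ?_⟩
  · have h1 : (g * A * g⁻¹)⁻¹ = g * A⁻¹ * g⁻¹ := by group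
    rw [h1, mul_apply', mul_apply', inv_fix' (hgE x hx)]
    exact hgI _ (hA' x hx)
  · rw [mul_apply' (g * A * g⁻¹), hA1 _ (DS_sub_ES (hB x hx))]
    rfl

/-- The case in which one of the maps is not an involution. -/
theorem ping (A B : S ≃ₜ S) (hA : ∀ x ∈ ES, A x ∈ IQ) (hB : ∀ x ∈ QS, B x ∈ DS)
    (hBB : ∀ x ∈ QS, B (B x) ∈ DS) : ∃ g h : S ≃ₜ S, ∃ q e,
      Attr ((g * A * g⁻¹) * (h * B * h⁻¹)) QS IQ q ∧
        Attr ((g * A * g⁻¹) * (h * B * h⁻¹))⁻¹ ES DS e := by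
  obtain ⟨g, hg, q, hq⟩ := exists_first A B hA hB
  set A₁ : S ≃ₜ S := g * A * g⁻¹ with hA₁
  have hB' : ∀ x ∈ QS, B⁻¹ x ∈ DS := by
    intro x hx
    by_contra hcon
    have h1 := hB _ hcon
    rw [apply_inv_self'] at h1
    exact hx h1
  obtain ⟨k', hk', q', hq'⟩ := exists_attr (ι * A₁⁻¹ * ι⁻¹) (ι * B⁻¹ * ι⁻¹)
    (fun x hx => by
      rw [mul_apply', mul_apply']
      exact ι_mem_DS.2 (hg _ (ι_inv_mem_ES hx)))
    (fun x hx => by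
      rw [mul_apply', mul_apply']
      refine ι_mem_IQ.2 (hB' _ ?_)
      rw [ι_inv]
      exact ι_mem_QS.2 hx)
  have hιι : ι * ι = 1 := by
    ext x
    exact ι_ι x
  set k : S ≃ₜ S := ι * k' * ι⁻¹ with hk
  have hkE : ∀ x ∈ ES, k x = x := by
    intro x hx
    rw [hk, mul_apply', mul_apply', hk' _ (by rw [ι_inv]; exact ι_mem_QS.2 hx), apply_inv_self']
  have hconj := hq'.conj ι (Y := ES) (Y' := DS)
    (fun y hy => by rw [ι_inv]; exact ι_mem_QS.2 hy) (fun x hx => ι_mem_DS.2 hx)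
  have heq : ι * (ι * B⁻¹ * ι⁻¹ * k' * (ι * A₁⁻¹ * ι⁻¹)) * ι⁻¹ = B⁻¹ * k * A₁⁻¹ := by
    rw [hk]
    have h1 : ι * (ι * B⁻¹ * ι⁻¹ * k' * (ι * A₁⁻¹ * ι⁻¹)) * ι⁻¹ =
        (ι * ι) * B⁻¹ * ι⁻¹ * k' * ι * A₁⁻¹ * (ι * ι)⁻¹ := by group
    rw [h1, hιι, ι_inv]
    group
  rw [heq] at hconj
  set h : S ≃ₜ S := B⁻¹ * k * B with hh
  have hhx : ∀ x, h x = B⁻¹ (k (B x)) := fun x => rfl
  have hfix : ∀ x, B x ∈ DS → h x = x := by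
    intro x hx
    rw [hhx, hkE _ (DS_sub_ES hx), inv_apply_self']
  refine ⟨g, h, q, ι q', ?_, ?_⟩
  · refine hq.congr IQ_sub_QS fun x hx => ?_
    have h1 : (h * B * h⁻¹) x = B x := by
      rw [mul_apply', mul_apply', inv_fix' (hfix x (hB x hx)), hfix _ (hBB x hx)]
    exact congrArg A₁ h1.symm
  · refine hconj.congr DS_sub_ES fun x hx => ?_
    have h1 : (A₁ * (h * B * h⁻¹))⁻¹ = h * B⁻¹ * h⁻¹ * A₁⁻¹ := by group
    have h2 : B (A₁⁻¹ x) ∈ DS := hB _ (IQ_sub_QS (hg x hx))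
    have h3 : (h * B⁻¹ * h⁻¹) (A₁⁻¹ x) = B⁻¹ (k (A₁⁻¹ x)) := by
      rw [mul_apply', mul_apply', inv_fix' (hfix _ h2), hhx, apply_inv_self']
    rw [h1]
    exact h3.symm

/-- The case of two involutions. -/
theorem ping2 (A B : S ≃ₜ S) (hA : ∀ x ∈ ES, A x ∈ IQ) (hB : ∀ x ∈ QS, B x ∈ DS)
    (hAA : A * A = 1) (hBB : B * B = 1) : ∃ g : S ≃ₜ S, ∃ q e,
      Attr ((g * A * g⁻¹) * B) QS IQ q ∧ Attr ((g * A * g⁻¹) * B)⁻¹ ES DS e := by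
  obtain ⟨g, hg, q, hq⟩ := exists_first A B hA hB
  set A₁ : S ≃ₜ S := g * A * g⁻¹ with hA₁
  have hA₁A₁ : A₁ * A₁ = 1 := by
    have h1 : A₁ * A₁ = g * (A * A) * g⁻¹ := by rw [hA₁]; group
    rw [h1, hAA]
    group
  have hA₁i : A₁⁻¹ = A₁ := inv_eq_of_mul_eq_one_left hA₁A₁
  have hBi : B⁻¹ = B := inv_eq_of_mul_eq_one_left hBB
  have h1 := (hq.image IQ_sub_QS).conj A₁ (Y := ES) (Y' := DS)
    (fun y hy => IQ_sub_QS (hg y hy)) (by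
      rintro _ ⟨x, hx, rfl⟩
      have h2 : A₁ ((A₁ * B) x) = B x := by
        rw [← mul_apply' A₁, ← mul_assoc, hA₁A₁, one_mul]
      rw [h2]
      exact hB x hx)
  refine ⟨g, q, A₁ q, hq, ?_⟩
  have h2 : A₁ * (A₁ * B) * A₁⁻¹ = (A₁ * B)⁻¹ := by
    rw [← mul_assoc, hA₁A₁, one_mul, mul_inv_rev A₁ B, hBi]
  rwa [h2] at h1

theorem exists_disp_nhd (A : S ≃ₜ S) {x : S} (h : A x ≠ x) : ∃ N ∈ 𝓝 x, ∀ y ∈ N, A y ∉ N := by
  obtain ⟨U, V, hU, hV, hxU, hxV, hUV⟩ := t2_separation h.symm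
  refine ⟨U ∩ A ⁻¹' V, inter_mem (hU.mem_nhds hxU) (A.continuous.continuousAt (hV.mem_nhds hxV)),
    fun y hy hy' => ?_⟩
  exact Set.disjoint_left.1 hUV hy'.1 hy.2

theorem exists_zoom {z₀ : ℂ} {N : Set S} (hN : N ∈ 𝓝 (z₀ : S)) :
    ∃ M : S ≃ₜ S, ∀ x ∈ ES, M⁻¹ x ∈ N := by
  have h1 : ((↑) : ℂ → S) ⁻¹' N ∈ 𝓝 z₀ := OnePoint.continuous_coe.continuousAt hN
  obtain ⟨ε, hε, hεN⟩ := Metric.mem_nhds_iff.1 h1
  have hδ : ((ε / 2 : ℝ) : ℂ) ≠ 0 := ofReal_ne_zero.2 (by positivity)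
  let Mi : S ≃ₜ S := ofC ((Homeomorph.mulLeft₀ ((ε / 2 : ℝ) : ℂ) hδ).trans (Homeomorph.addLeft z₀))
  refine ⟨Mi⁻¹, ?_⟩
  rintro _ ⟨z, hz, rfl⟩
  rw [inv_inv]
  have h2 : Mi (z : S) = ((z₀ + ((ε / 2 : ℝ) : ℂ) * z : ℂ) : S) := rfl
  rw [h2]
  refine hεN (mem_ball_iff_norm.2 ?_)
  rw [add_sub_cancel_left, norm_mul, norm_real, Real.norm_eq_abs, abs_of_pos (by positivity)]
  have := mem_closedBall_zero_iff.1 hz
  nlinarith

/-- The normalisation. -/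
theorem exists_norm {A : S ≃ₜ S} (hA : A ≠ 1) : ∃ M : S ≃ₜ S,
    (∀ x ∈ ES, (M * A * M⁻¹) x ∈ IQ) ∧
      (A * A = 1 ∨ ∀ x ∈ ES, (M * A * M⁻¹) ((M * A * M⁻¹) x) ∈ IQ) := by
  have hdense : ∀ f : S ≃ₜ S, f ≠ 1 → ∃ z : ℂ, f (z : S) ≠ z := by
    intro f hf
    have h1 : ∃ x : S, f x ≠ x := by
      by_contra hcon
      push Not at hcon
      exact hf (Homeomorph.ext hcon)
    obtain ⟨x, hx⟩ := h1
    have hopen : IsOpen {x | f x ≠ x} := isOpen_ne_fun f.continuous continuous_id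
    obtain ⟨z, hz⟩ := OnePoint.denseRange_coe.exists_mem_open hopen ⟨x, hx⟩
    exact ⟨z, hz⟩
  have hpull : ∀ (N : Set S) (M f : S ≃ₜ S), (∀ x ∈ ES, M⁻¹ x ∈ N) → (∀ y ∈ N, f y ∉ N) →
      ∀ x ∈ ES, (M * f * M⁻¹) x ∈ IQ := by
    intro N M f hM hf x hx hcon
    have h1 := hM _ hcon
    rw [mul_apply', mul_apply', inv_apply_self'] at h1
    exact hf _ (hM x hx) h1
  by_cases hAA : A * A = 1
  · obtain ⟨z, hz⟩ := hdense A hA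
    obtain ⟨N, hN, hN'⟩ := exists_disp_nhd A hz
    obtain ⟨M, hM⟩ := exists_zoom hN
    exact ⟨M, hpull N M A hM hN', Or.inl hAA⟩
  · obtain ⟨z, hz⟩ := hdense (A * A) hAA
    have hz' : A (z : S) ≠ z := by
      intro h
      rw [mul_apply', h, h] at hz
      exact hz rfl
    obtain ⟨N₁, hN₁, hN₁'⟩ := exists_disp_nhd A hz'
    obtain ⟨N₂, hN₂, hN₂'⟩ := exists_disp_nhd (A * A) hz
    obtain ⟨M, hM⟩ := exists_zoom (inter_mem hN₁ hN₂)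
    refine ⟨M, hpull N₁ M A (fun x hx => (hM x hx).1) hN₁', Or.inr fun x hx => ?_⟩
    have h1 := hpull N₂ M (A * A) (fun x hx => (hM x hx).2) hN₂' x hx
    have h2 : M * (A * A) * M⁻¹ = (M * A * M⁻¹) * (M * A * M⁻¹) := by group
    rw [h2] at h1
    exact h1

theorem pass_ι {f : S ≃ₜ S} (h : ∀ x ∈ ES, f x ∈ IQ) : ∀ x ∈ QS, (ι * f * ι⁻¹) x ∈ DS := by
  intro x hx
  rw [mul_apply', mul_apply']
  exact ι_mem_DS.2 (h _ (ι_inv_mem_ES hx))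

theorem pass_ι' {f : S ≃ₜ S} (h : ∀ x ∈ QS, f x ∈ DS) : ∀ x ∈ ES, (ι * f * ι⁻¹) x ∈ IQ := by
  intro x hx
  rw [mul_apply', mul_apply']
  refine ι_mem_IQ.2 (h _ ?_)
  rw [ι_inv]
  exact ι_mem_QS.2 hx

/-- For all non-trivial `A` and `B`, a product of a conjugate of `A` and a conjugate of `B` is
one of two standard homeomorphisms. -/
theorem exists_std {A B : S ≃ₜ S} (hA : A ≠ 1) (hB : B ≠ 1) : ∃ H₁ H₂ : S ≃ₜ S,
    (H₁ * A * H₁⁻¹) * (H₂ * B * H₂⁻¹) = half⁻¹ ∨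
      (H₁ * A * H₁⁻¹) * (H₂ * B * H₂⁻¹) = (half * conjS)⁻¹ := by
  obtain ⟨M, hM1, hM2⟩ := exists_norm hA
  obtain ⟨L, hL1, hL2⟩ := exists_norm hB
  have hfin : ∀ (H K : S ≃ₜ S) (q e : S), Attr ((H * A * H⁻¹) * (K * B * K⁻¹)) QS IQ q →
      Attr ((H * A * H⁻¹) * (K * B * K⁻¹))⁻¹ ES DS e → ∃ H₁ H₂ : S ≃ₜ S,
      (H₁ * A * H₁⁻¹) * (H₂ * B * H₂⁻¹) = half⁻¹ ∨
        (H₁ * A * H₁⁻¹) * (H₂ * B * H₂⁻¹) = (half * conjS)⁻¹ := by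
    intro H K q e h1 h2
    obtain ⟨Ψ, hΨ⟩ := exists_conj_std h1 h2
    refine ⟨Ψ * H, Ψ * K, ?_⟩
    have h3 : (Ψ * H * A * (Ψ * H)⁻¹) * (Ψ * K * B * (Ψ * K)⁻¹) =
        Ψ * ((H * A * H⁻¹) * (K * B * K⁻¹)) * Ψ⁻¹ := by group
    rw [h3]
    exact hΨ
  have eB : ι * (L * B * L⁻¹) * ι⁻¹ = (ι * L) * B * (ι * L)⁻¹ := by group
  have eA : ι * (M * A * M⁻¹) * ι⁻¹ = (ι * M) * A * (ι * M)⁻¹ := by group
  by_cases hBB : B * B = 1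
  · by_cases hAA : A * A = 1
    · obtain ⟨g, q, e, h1, h2⟩ := ping2 (M * A * M⁻¹) (ι * (L * B * L⁻¹) * ι⁻¹) hM1 (pass_ι hL1)
        (by
          have : M * A * M⁻¹ * (M * A * M⁻¹) = M * (A * A) * M⁻¹ := by group
          rw [this, hAA]
          group)
        (by
          have : ι * (L * B * L⁻¹) * ι⁻¹ * (ι * (L * B * L⁻¹) * ι⁻¹) =
            ι * L * (B * B) * L⁻¹ * ι⁻¹ := by group
          rw [this, hBB]
          group)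
      have h3 : g * (M * A * M⁻¹) * g⁻¹ * (ι * (L * B * L⁻¹) * ι⁻¹) =
          ((g * M) * A * (g * M)⁻¹) * ((ι * L) * B * (ι * L)⁻¹) := by group
      rw [h3] at h1 h2
      exact hfin _ _ q e h1 h2
    · have hM2' := hM2.resolve_left hAA
      have hAι : ∀ x ∈ QS, (ι * (M * A * M⁻¹) * ι⁻¹) ((ι * (M * A * M⁻¹) * ι⁻¹) x) ∈ DS := by
        have h1 := pass_ι (f := (M * A * M⁻¹) * (M * A * M⁻¹)) hM2'
        have h2 : ι * ((M * A * M⁻¹) * (M * A * M⁻¹)) * ι⁻¹ =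
          (ι * (M * A * M⁻¹) * ι⁻¹) * (ι * (M * A * M⁻¹) * ι⁻¹) := by group
        rw [h2] at h1
        exact h1
      obtain ⟨g, h, q, e, h1, h2⟩ := ping (L * B * L⁻¹) (ι * (M * A * M⁻¹) * ι⁻¹) hL1
        (pass_ι hM1) hAι
      obtain ⟨Ψ, hΨ⟩ := exists_conj_std h1 h2
      set Y : S ≃ₜ S := g * (L * B * L⁻¹) * g⁻¹ with hY
      set X : S ≃ₜ S := h * (ι * (M * A * M⁻¹) * ι⁻¹) * h⁻¹ with hX
      refine ⟨Ψ * Y * h * ι * M, Ψ * Y * g * L, ?_⟩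
      have h3 : (Ψ * Y * h * ι * M * A * (Ψ * Y * h * ι * M)⁻¹) *
          (Ψ * Y * g * L * B * (Ψ * Y * g * L)⁻¹) = (Ψ * Y) * X * Y * (Ψ * Y)⁻¹ := by
        rw [hX]
        conv_rhs => rw [mul_assoc (Ψ * Y * _) Y, hY]
        rw [hY]
        group
      have h4 : (Ψ * Y) * X * Y * (Ψ * Y)⁻¹ = Ψ * (Y * X) * Ψ⁻¹ := by group
      rw [h3, h4]
      exact hΨ
  · have hL2' := hL2.resolve_left hBB
    have hBι : ∀ x ∈ QS, (ι * (L * B * L⁻¹) * ι⁻¹) ((ι * (L * B * L⁻¹) * ι⁻¹) x) ∈ DS := by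
      have h1 := pass_ι (f := (L * B * L⁻¹) * (L * B * L⁻¹)) hL2'
      have h2 : ι * ((L * B * L⁻¹) * (L * B * L⁻¹)) * ι⁻¹ =
        (ι * (L * B * L⁻¹) * ι⁻¹) * (ι * (L * B * L⁻¹) * ι⁻¹) := by group
      rw [h2] at h1
      exact h1
    obtain ⟨g, h, q, e, h1, h2⟩ := ping (M * A * M⁻¹) (ι * (L * B * L⁻¹) * ι⁻¹) hM1
      (pass_ι hL1) hBι
    have h3 : g * (M * A * M⁻¹) * g⁻¹ * (h * (ι * (L * B * L⁻¹) * ι⁻¹) * h⁻¹) =
        ((g * M) * A * (g * M)⁻¹) * ((h * ι * L) * B * (h * ι * L)⁻¹) := by group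
    rw [h3] at h1 h2
    exact hfin _ _ q e h1 h2

end Pool.Agent.V11210.SPH
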