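import Pool.Agent.V11210.SPH.Orient
import Pool.Agent.V11210.SPH.Ping
import Pool.Agent.V11210.SPH.Statement

/-!
Three conjugates suffice.
-/

set_option autoImplicit false

open Complex Set Filter Topology Function Metric
open scoped OnePoint ComplexConjugate

noncomputable section

namespace Pool.Agent.V11210.SPH

theorem refl_notMem_IdComp : (half * conjS)⁻¹ ∉ IdComp S := by
  intro h
  rw [mem_IdComp] at h
  obtain ⟨H, h1, h2, h3⟩ := h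
  exact not_isotopic H h1 h2 h3

/-- In the identity component, a suitable product of conjugates of `A` and `B` is the dilation. -/
theorem exists_std' {A B : S ≃ₜ S} (hA : A ≠ 1) (hB : B ≠ 1) (hA' : A ∈ IdComp S)
    (hB' : B ∈ IdComp S) : ∃ H₁ H₂ : S ≃ₜ S, (H₁ * A * H₁⁻¹) * (H₂ * B * H₂⁻¹) = half⁻¹ := by
  obtain ⟨H₁, H₂, h | h⟩ := exists_std hA hB
  · exact ⟨H₁, H₂, h⟩
  · exfalso
    refine refl_notMem_IdComp ?_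
    rw [← h]
    exact IdComp_mul (IdComp_conj _ hA') (IdComp_conj _ hB')

theorem conjProd_three : ConjProd S 3 := by
  intro A hA B hB hA1 hB1
  obtain ⟨H₁, H₂, h⟩ := exists_std' hA1 hA1 hA hA
  obtain ⟨K₁, K₂, k⟩ := exists_std' hB1 (inv_ne_one.2 hA1) hB (IdComp_inv hA)
  refine ⟨![K₁⁻¹ * H₁, K₁⁻¹ * H₂, K₁⁻¹ * K₂], ?_⟩
  have h3 : (H₁ * A * H₁⁻¹) * (H₂ * A * H₂⁻¹) * (K₂ * A * K₂⁻¹) = K₁ * B * K₁⁻¹ := by
    rw [h, ← k]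
    group
  have h4 : B = K₁⁻¹ * ((H₁ * A * H₁⁻¹) * (H₂ * A * H₂⁻¹) * (K₂ * A * K₂⁻¹)) * K₁ := by
    rw [h3]
    group
  have h5 : (List.ofFn fun i : Fin 3 => (![K₁⁻¹ * H₁, K₁⁻¹ * H₂, K₁⁻¹ * K₂] : Fin 3 → (S ≃ₜ S)) i *
      A * ((![K₁⁻¹ * H₁, K₁⁻¹ * H₂, K₁⁻¹ * K₂] : Fin 3 → (S ≃ₜ S)) i)⁻¹) =
      [(K₁⁻¹ * H₁) * A * (K₁⁻¹ * H₁)⁻¹, (K₁⁻¹ * H₂) * A * (K₁⁻¹ * H₂)⁻¹,
        (K₁⁻¹ * K₂) * A * (K₁⁻¹ * K₂)⁻¹] := rfl
  rw [h5, h4]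
  simp only [List.prod_cons, List.prod_nil]
  group

end Pool.Agent.V11210.SPH
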